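import Mathlib
import Pool.Agent.Lib_helper72.AP.TypeIITotal

set_option autoImplicit false

/-!
Isolated primes in the classes of every modulus. Block B: an elementary Bombieri-Vinogradov
inequality relative to a fixed class, for squarefree moduli without small prime factors.

`ps u r n` is the product over the prime factors `l` of `u` of the discrepancy weights
`wt l r n = 1_{n = r (l)} - 1_{l not| n} / (l - 1)`.
-/

namespace IPR

open Finset ArithmeticFunction
open scoped ArithmeticFunction.zeta ArithmeticFunction.Moebius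

noncomputable section

/-- The product of the discrepancy weights of the prime factors of `u`. -/
def ps (u : ℕ) (r : ℤ) (n : ℕ) : ℝ :=
  ∏ l ∈ u.primeFactors, Pool.Agent.Lib_helper72.AP.wt l r n

/-- `r` is a unit modulo all prime factors of `u`. -/
def UnitM (r : ℤ) (u : ℕ) : Prop := ∀ l ∈ u.primeFactors, ((r : ℤ) : ZMod l) ≠ 0

/-- Functions modulo `u` all of whose fibre sums (over the fibres of the reduction modulo `u / l`,
`l` a prime factor of `u`) vanish. -/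
def PureF (u : ℕ) (F : ℕ → ℝ) : Prop :=
  (∀ n, F (n + u) = F n) ∧
    ∀ l : ℕ, l.Prime → l ∣ u → ∀ n, ∑ j ∈ range l, F (n + j * (u / l)) = 0

/-- The constant of the large sieve (`N` the length, `f` the modulus of the progression,
`u ∈ [U, 2U]`, `p` the number of moduli). -/
def dlt (N f U p : ℕ) : ℝ := ((N : ℝ) / f + 1) / U + 1 + (2 * U + 1) * p

/-- DLS: the dual large sieve for pure functions on a progression modulo `f`.
PROOF. Put `k = ρ' + f j`; the number of `j` is at most `N / f + 1` and `F u (ρ' + f j)` is again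
pure in `j` (`f` is coprime to `u`). Expand the square. Diagonal: an interval of `n` integers `j`
contains every class modulo `u` at most `n / u + 1 ≤ n / U + 1` times. Off the diagonal, `u ≠ u'`
both squarefree: some prime `l` divides exactly one of them, say `u`; the sum over a complete period
`u u'` vanishes (shift `j` by multiples of `u' (u / l)`, which permutes the fibre, `F u'` does not
change). So only a block of fewer than `u u'` consecutive `j` remains, and by Cauchy-Schwarz it is at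
most `sqrt (u' + 1) sqrt (u + 1) |F u| |F u'| ≤ (2 U + 1) |F u| |F u'|` (l2 norms over a period).
Then `(∑ |F u|)^2 ≤ p ∑ |F u|^2`. -/
def S_DLS : Prop := ∀ (P : Finset ℕ) (U f ρ x N : ℕ) (F : ℕ → ℕ → ℝ), 1 ≤ U → 1 ≤ f →
  (∀ u ∈ P, Squarefree u ∧ U ≤ u ∧ u ≤ 2 * U ∧ u.Coprime f) → (∀ u ∈ P, PureF u (F u)) →
  ∑ k ∈ (Ico x (x + N)).filter (fun k => k ≡ ρ [MOD f]), (∑ u ∈ P, F u k) ^ 2 ≤
    dlt N f U P.card * ∑ u ∈ P, ∑ r ∈ range u, F u r ^ 2

/-- LSV: the large sieve, variance form.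
PROOF. `V u t := ∑_k β k ps u t k` (for `(t, u) = 1`, `0` otherwise) is pure and
`∑_t V u t ps u t k = V u k` for every `k` (expand the product over `l`: all terms but the one
with all indicators contain a free fibre sum; both sides are `0` if `(k, u) > 1`). So the left side
`A` is `∑_k β k ∑_u V u k`, and by Cauchy-Schwarz and DLS `A^2 ≤ (∑ β^2) dlt A`. -/
def S_LSV : Prop := ∀ (P : Finset ℕ) (U f ρ x N : ℕ) (β : ℕ → ℝ), 1 ≤ U → 1 ≤ f →
  (∀ u ∈ P, Squarefree u ∧ U ≤ u ∧ u ≤ 2 * U ∧ u.Coprime f) →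
  ∑ u ∈ P, ∑ t ∈ (range u).filter (fun t => t.Coprime u),
    (∑ k ∈ (Ico x (x + N)).filter (fun k => k ≡ ρ [MOD f]), β k * ps u t k) ^ 2 ≤
    dlt N f U P.card * ∑ k ∈ (Ico x (x + N)).filter (fun k => k ≡ ρ [MOD f]), β k ^ 2

def M_LSV : Prop := S_DLS → S_LSV

/-- T2: bilinear forms on a rectangle, on average over the squarefree moduli `u ∈ P`, with the
product in a fixed class modulo `f` (the residues `c u` modulo `f` and `r u` modulo `u` are
arbitrary).
PROOF. Cauchy-Schwarz over `u`, then over `m`: the square is at most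
`p ∑_u (∑ α^2) ∑_m S_u(m)^2`, `S_u(m) = ∑_k [m k = c (f)] β k ps u (r u) (m k)`. `S_u(m) = 0` unless
`(m, f u) = 1`, and then it is `V(κ, t) = ∑_{k = κ (f)} β k ps u t k` with `κ = c / m` modulo `f`,
`t = r u / m` modulo `u`. `m ↦ (κ, t)` is injective on the units modulo `f u`, and an interval of
length `D` contains every class modulo `f u` at most `D / (f u) + 1` times. Finally LSV for every
unit `κ` modulo `f`. -/
def S_T2 : Prop := ∀ (P : Finset ℕ) (U f : ℕ) (c : ℕ → ℕ) (r : ℕ → ℤ) (α β : ℕ → ℝ)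
  (v D y N : ℕ), 1 ≤ U → 1 ≤ f →
  (∀ u ∈ P, Squarefree u ∧ U ≤ u ∧ u ≤ 2 * U ∧ u.Coprime f ∧ (c u).Coprime f ∧ UnitM (r u) u) →
  (∑ u ∈ P, |∑ m ∈ Ico v (v + D), ∑ k ∈ (Ico y (y + N)).filter (fun k => m * k ≡ c u [MOD f]),
    α m * β k * ps u (r u) (m * k)|) ^ 2 ≤
    P.card * (∑ m ∈ Ico v (v + D), α m ^ 2) * ((D : ℝ) / (f * U) + 1) *
      (dlt N f U P.card * ∑ k ∈ Ico y (y + N), β k ^ 2)

def M_T2 : Prop := S_LSV → S_T2

/-- TY1: Type I sums, with constant and logarithmic weight (crude: the bound is `u`).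
PROOF. If `(m, f u) > 1` the sum is `0` (`c` is a unit modulo `f`, `ps u r (m k)` vanishes when a
prime factor of `u` divides `m`). Otherwise the condition on `k` is a class modulo `f`, the function
is periodic with period `u` in the progression with vanishing sum over a period and
`|ps| ≤ 1`, so every interval sum is at most `u`; partial summation for the logarithm as in
`abs_sum_mul_wt_le`, `abs_sum_log_wt_le`. -/
def S_TY1 : Prop := ∀ (u f c m x y : ℕ) (r : ℤ), Squarefree u → 1 < u → 1 ≤ f → u.Coprime f →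
  c.Coprime f → UnitM r u →
  |∑ k ∈ (Ioc x y).filter (fun k => m * k ≡ c [MOD f]), ps u r (m * k)| ≤ u ∧
  |∑ k ∈ (Ioc x y).filter (fun k => m * k ≡ c [MOD f]), Real.log k * ps u r (m * k)| ≤
    u * Real.log (y + 1)

/-- The twisted discrepancy of a function on the class `c` modulo `f`. -/
def dsc (f c u : ℕ) (r : ℤ) (X Y : ℕ) (F : ArithmeticFunction ℝ) : ℝ :=
  ∑ n ∈ (Ioc X Y).filter (fun n => n ≡ c [MOD f]), F n * ps u r n

/-- The hypotheses on the family of moduli. -/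
def Fam (P : Finset ℕ) (U f : ℕ) (c : ℕ → ℕ) (r : ℕ → ℤ) : Prop :=
  ∀ u ∈ P, Squarefree u ∧ 1 < u ∧ U ≤ u ∧ u ≤ 2 * U ∧ u.Coprime f ∧ (c u).Coprime f ∧ UnitM (r u) u

/-- TT2: the Type II part of Vaughan's identity (`vaughan` in Lib_helper72/AP/Vaughan, both
parameters equal to `V`, the integer part of the cube root of `Y`).
PROOF. `m ∈ (V, Y / V]` (coefficients `muR`, at most `1`), `k ∈ (X / m, Y / m]` (coefficients
`large Λ V * ζ`, between `0` and `log k`, `0` for `k ≤ V`). Cut the range of `m` into blocks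
`[v, v + D)`, `D` the integer part of `Y^(1/6)` (or use the multiplicative blocks of
Lib_helper72/AP/Blocks), and replace the range of `k` by `(X / v, Y / v]`; this changes every inner
sum by at most `2 (Y D / v^2 + 1)` terms of size at most `log Y`, in total
(all blocks, all `u`) at most `Y^0.9`. On every block T2 gives at most
`sqrt (2U D (2D / (f U)) (2 N / (f U)) N log^2 Y) ≤ 6 D (Y / v) log Y / (f sqrt U)`, `N ≤ 2 Y / v`
(`D ≥ f U`, `Y / v ≥ V ≥ 16 f U^3`), and the sum of `D / v` over the blocks is at most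
`2 + log Y`. -/
def S_TT2 : Prop := ∃ Y₀ : ℕ, ∀ X Y V f U : ℕ, Y₀ ≤ Y → X ≤ Y → V ^ 3 ≤ Y → Y < (V + 1) ^ 3 →
  1 ≤ f → 1 ≤ U → f ^ 40 ≤ Y → U ^ 40 ≤ Y → ∀ (P : Finset ℕ) (c : ℕ → ℕ) (r : ℕ → ℤ),
  Fam P U f c r →
  ∑ u ∈ P, |dsc f (c u) u (r u) X Y (Pool.Agent.Lib_helper72.AP.large
    Pool.Agent.Lib_helper72.AP.muR V * (Pool.Agent.Lib_helper72.AP.large Λ V *
      (ζ : ArithmeticFunction ℝ)))| ≤ (Y : ℝ) * Real.log Y ^ 3 / (2 * (f * Real.sqrt U))

def M_TT2 : Prop := S_T2 → S_TT2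

/-- BVL: Bombieri-Vinogradov relative to a class modulo `f`.
PROOF. Vaughan's identity with both parameters `V`: the part `n ≤ V` and the two Type I parts are
(per `u`) at most `2 V^2 + (V + V^2) u log (Y + 1)` by TY1 (see `disc_vonMangoldt_sub_le`); the sum
over at most `U + 1` moduli is at most `Y^0.8`. -/
def S_BVL : Prop := ∃ Y₀ : ℕ, ∀ X Y f U : ℕ, Y₀ ≤ Y → X ≤ Y →
  1 ≤ f → 1 ≤ U → f ^ 40 ≤ Y → U ^ 40 ≤ Y → ∀ (P : Finset ℕ) (c : ℕ → ℕ) (r : ℕ → ℤ),
  Fam P U f c r →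
  ∑ u ∈ P, |dsc f (c u) u (r u) X Y Λ| ≤ (Y : ℝ) * Real.log Y ^ 3 / (f * Real.sqrt U)

def M_BVL : Prop := S_TT2 → S_TY1 → S_BVL

/-- The twisted sum over primes, with logarithmic weights. -/
def dsp (f c u : ℕ) (r : ℤ) (X Y : ℕ) : ℝ :=
  ∑ p ∈ (Ioc X Y).filter (fun p => p.Prime ∧ p ≡ c [MOD f]), Real.log p * ps u r p

/-- BVP: the same for primes.
PROOF. The prime powers contribute (per `u`) at most `psi Y - theta Y ≤ 2 sqrt Y log Y`
(Mathlib `Chebyshev`, or crude: at most `sqrt Y log Y / log 2` prime powers). -/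
def S_BVP : Prop := ∃ Y₀ : ℕ, ∀ X Y f U : ℕ, Y₀ ≤ Y → X ≤ Y →
  1 ≤ f → 1 ≤ U → f ^ 40 ≤ Y → U ^ 40 ≤ Y → ∀ (P : Finset ℕ) (c : ℕ → ℕ) (r : ℕ → ℤ),
  Fam P U f c r →
  ∑ u ∈ P, |dsp f (c u) u (r u) X Y| ≤ (Y : ℝ) * Real.log Y ^ 4 / (f * Real.sqrt U)

def M_BVP : Prop := S_BVL → S_BVP

/-- BVE: large conductors, all classes, summed over the additional modulus `e`.
`E e u` is a bound for all residues; the total is a power of `exp L` smaller than the trivial one.
PROOF. `E e u` = the maximum over the residues `c` modulo `W e`, `r` modulo `u` (all quantities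
depend only on these residues) if `u` is admissible, else `0`. For fixed `e`: dyadic `U = 2^j`,
`exp (η L) / 2 ≤ U ≤ exp (L / 100)`, BVP with `f = W e` and the maximising residues; the sum over
`j` is at most `5 Y log^4 Y exp (- η L / 2) / (W e)`; the sum of `1 / e` is at most `1 + L`. -/
def S_BVE : Prop := ∀ η : ℝ, 0 < η → η ≤ 1 / 100 → ∃ L₀ : ℝ, ∀ L : ℝ, L₀ ≤ L → ∀ X Y W : ℕ,
  X ≤ Y → Real.exp (L / 2) ≤ Y → (Y : ℝ) ≤ L ^ 2 * Real.exp L → 1 ≤ W →
  (W : ℝ) ≤ Real.exp (2 * Real.sqrt L) → ∃ E : ℕ → ℕ → ℝ, (∀ e u, 0 ≤ E e u) ∧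
  (∀ e u c : ℕ, ∀ r : ℤ, 1 ≤ e → (e : ℝ) ≤ Real.exp (L / 100) → Squarefree u →
    Real.exp (η * L) ≤ u → (u : ℝ) ≤ Real.exp (L / 100) → u.Coprime (W * e) →
    c.Coprime (W * e) → UnitM r u → |dsp (W * e) c u r X Y| ≤ E e u) ∧
  ∑ e ∈ Icc 1 ⌊Real.exp (L / 100)⌋₊, ∑ u ∈ Icc 1 ⌊Real.exp (L / 100)⌋₊, E e u ≤
    Real.exp ((1 - η / 3) * L)

def M_BVE : Prop := S_BVP → S_BVE

/-- BVS: small conductors (at least `L^24`), relative to one class modulo `W`.
PROOF. As BVE with `f = W`: the sum over dyadic `U ≥ L^24 / 2` is at most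
`C L^2 exp L (2 L)^4 L^(-12) / W`. -/
def S_BVS : Prop := ∃ L₀ : ℝ, ∀ L : ℝ, L₀ ≤ L → ∀ X Y W : ℕ,
  X ≤ Y → Real.exp (L / 2) ≤ Y → (Y : ℝ) ≤ L ^ 2 * Real.exp L → 1 ≤ W →
  (W : ℝ) ≤ Real.exp (2 * Real.sqrt L) → ∃ E : ℕ → ℝ, (∀ u, 0 ≤ E u) ∧
  (∀ u c : ℕ, ∀ r : ℤ, Squarefree u → L ^ 24 ≤ u → (u : ℝ) ≤ Real.exp (L / 100) →
    u.Coprime W → c.Coprime W → UnitM r u → |dsp W c u r X Y| ≤ E u) ∧
  ∑ u ∈ Icc 1 ⌊Real.exp (L / 100)⌋₊, E u ≤ Real.exp L / (W * L ^ 5)

def M_BVS : Prop := S_BVP → S_BVS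

end

end IPR
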