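import Pool.Agent.IPR.StmtsB

set_option autoImplicit false

/-!
The inequality of Bombieri and Vinogradov relative to a class, for the von Mangoldt function
(Vaughan's identity; the Type II part and the Type I sums are hypotheses).
-/

namespace IPR

open Finset ArithmeticFunction
open scoped ArithmeticFunction.zeta ArithmeticFunction.Moebius
open Pool.Agent.Lib_helper72.AP

noncomputable section

namespace BVL

lemma abs_wt_le {l : ℕ} (hl : l.Prime) (r : ℤ) (n : ℕ) : |wt l r n| ≤ 1 := by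
  have h2 : (2 : ℝ) ≤ l := by exact_mod_cast hl.two_le
  have hpos : (0 : ℝ) < (l : ℝ) - 1 := by linarith
  have h3 : 0 ≤ (if l ∣ n then (0 : ℝ) else 1) / ((l : ℝ) - 1) := by
    apply div_nonneg _ hpos.le
    split_ifs <;> norm_num
  have h4 : (if l ∣ n then (0 : ℝ) else 1) / ((l : ℝ) - 1) ≤ 1 := by
    rw [div_le_one hpos]
    split_ifs <;> linarith
  rw [wt]
  by_cases h : (n : ZMod l) = (r : ZMod l)
  · rw [if_pos h, abs_le]
    constructor <;> linarith
  · rw [if_neg h, abs_le]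
    constructor <;> linarith

lemma abs_ps_le (u : ℕ) (r : ℤ) (n : ℕ) : |ps u r n| ≤ 1 := by
  rw [ps, Finset.abs_prod]
  exact Finset.prod_le_one (fun _ _ => abs_nonneg _)
    fun l hl => abs_wt_le (Nat.prime_of_mem_primeFactors hl) r n

/-- The weight of a class modulo `f`. -/
def cw (f c u : ℕ) (r : ℤ) (n : ℕ) : ℝ := if n ≡ c [MOD f] then ps u r n else 0

lemma abs_cw_le (f c u : ℕ) (r : ℤ) (n : ℕ) : |cw f c u r n| ≤ 1 := by
  rw [cw]
  split_ifs
  · exact abs_ps_le u r n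
  · simp

lemma dsc_eq (f c u : ℕ) (r : ℤ) (X Y : ℕ) (F : ArithmeticFunction ℝ) :
    dsc f c u r X Y F = ∑ n ∈ Ioc X Y, F n * cw f c u r n := by
  rw [dsc, Finset.sum_filter]
  apply Finset.sum_congr rfl
  intro n _
  rw [cw]
  split_ifs <;> simp

/-- The inner sums of Type I. -/
lemma inner (hTY : S_TY1) {u f c : ℕ} {r : ℤ} (hu : Squarefree u) (hu1 : 1 < u) (hf : 1 ≤ f)
    (hcop : u.Coprime f) (hc : c.Coprime f) (hr : UnitM r u) (m x y : ℕ) :
    |∑ k ∈ Ioc x y, cw f c u r (m * k)| ≤ u ∧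
      |∑ k ∈ Ioc x y, Real.log k * cw f c u r (m * k)| ≤ u * Real.log (y + 1) := by
  have h := hTY u f c m x y r hu hu1 hf hcop hc hr
  rw [Finset.sum_filter, Finset.sum_filter] at h
  have h1 : ∀ k ∈ Ioc x y, cw f c u r (m * k) =
      if m * k ≡ c [MOD f] then ps u r (m * k) else 0 := fun k _ => rfl
  have h2 : ∀ k ∈ Ioc x y, Real.log k * cw f c u r (m * k) =
      if m * k ≡ c [MOD f] then Real.log k * ps u r (m * k) else 0 := by
    intro k _
    rw [cw]
    split_ifs <;> simp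
  rw [Finset.sum_congr rfl h1, Finset.sum_congr rfl h2]
  exact h

/-- Sums of Type I. -/
lemma conv_le (w : ℕ → ℝ) (X Y E : ℕ) (F G : ArithmeticFunction ℝ)
    (hF : ∀ m, E < m → F m = 0) {B A : ℝ} (hB0 : 0 ≤ B) (hA0 : 0 ≤ A)
    (hB : ∀ m, m ≤ E → |F m| ≤ B)
    (hA : ∀ m, |∑ k ∈ Ioc (X / m) (Y / m), G k * w (m * k)| ≤ A) :
    |∑ n ∈ Ioc X Y, (F * G) n * w n| ≤ E * (B * A) := by
  classical
  rw [sum_conv_weight]
  have h1 : ∀ m ∈ Ioc 0 Y, |F m * ∑ k ∈ Ioc (X / m) (Y / m), G k * w (m * k)| ≤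
      if m ≤ E then B * A else 0 := by
    intro m _
    split_ifs with h
    · rw [abs_mul]
      exact mul_le_mul (hB m h) (hA m) (abs_nonneg _) hB0
    · rw [hF m (by omega)]
      simp
  refine (Finset.abs_sum_le_sum_abs _ _).trans ((Finset.sum_le_sum h1).trans ?_)
  rw [← Finset.sum_filter, Finset.sum_const, nsmul_eq_mul]
  apply mul_le_mul_of_nonneg_right _ (mul_nonneg hB0 hA0)
  have : ((Ioc 0 Y).filter (fun m => m ≤ E)).card ≤ E := by
    have h3 : (Ioc 0 Y).filter (fun m => m ≤ E) ⊆ Ioc 0 E := by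
      intro x hx
      rw [mem_filter, mem_Ioc] at hx
      rw [mem_Ioc]
      omega
    have := Finset.card_le_card h3
    rwa [Nat.card_Ioc, Nat.sub_zero] at this
  exact_mod_cast this

/-- The part `n ≤ V`. -/
lemma small_le (w : ℕ → ℝ) (hw : ∀ n, |w n| ≤ 1) (X Y V : ℕ) :
    |∑ n ∈ Ioc X Y, small Λ V n * w n| ≤ V * Real.log (Y + 1) := by
  classical
  have hY0 : (0 : ℝ) ≤ Y := Nat.cast_nonneg _
  have hlog : 0 ≤ Real.log ((Y : ℝ) + 1) := Real.log_nonneg (by linarith)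
  have h1 : ∀ n ∈ Ioc X Y, |small Λ V n * w n| ≤ if n ≤ V then Real.log (Y + 1) else 0 := by
    intro n hn
    rw [mem_Ioc] at hn
    rw [small_apply]
    split_ifs with h
    · rw [abs_mul, abs_of_nonneg vonMangoldt_nonneg]
      have h2 : Λ n ≤ Real.log (Y + 1) := by
        refine vonMangoldt_le_log.trans ?_
        have h3 : (0 : ℝ) < n := by exact_mod_cast (show 0 < n by omega)
        have h4 : (n : ℝ) ≤ Y := by exact_mod_cast hn.2
        exact Real.log_le_log h3 (by linarith)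
      calc Λ n * |w n| ≤ Real.log (Y + 1) * 1 :=
            mul_le_mul h2 (hw n) (abs_nonneg _) hlog
        _ = _ := mul_one _
    · simp
  refine (Finset.abs_sum_le_sum_abs _ _).trans ((Finset.sum_le_sum h1).trans ?_)
  rw [← Finset.sum_filter, Finset.sum_const, nsmul_eq_mul]
  apply mul_le_mul_of_nonneg_right _ hlog
  have : ((Ioc X Y).filter (fun m => m ≤ V)).card ≤ V := by
    have h3 : (Ioc X Y).filter (fun m => m ≤ V) ⊆ Ioc 0 V := by
      intro x hx
      rw [mem_filter, mem_Ioc] at hx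
      rw [mem_Ioc]
      omega
    have := Finset.card_le_card h3
    rwa [Nat.card_Ioc, Nat.sub_zero] at this
  exact_mod_cast this

/-- Vaughan's identity for one modulus. -/
lemma per (hTY : S_TY1) {u f c : ℕ} {r : ℤ} (hu : Squarefree u) (hu1 : 1 < u) (hf : 1 ≤ f)
    (hcop : u.Coprime f) (hc : c.Coprime f) (hr : UnitM r u) (X Y V : ℕ) (hV1 : 1 ≤ V)
    (hV : V * V ≤ Y) :
    |dsc f c u r X Y Λ| ≤
      |dsc f c u r X Y (large muR V * (large Λ V * (ζ : ArithmeticFunction ℝ)))| +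
      3 * ((V : ℝ) ^ 2 * u * Real.log (Y + 1)) := by
  have hY0 : (0 : ℝ) ≤ Y := Nat.cast_nonneg _
  have hlog : 0 ≤ Real.log ((Y : ℝ) + 1) := Real.log_nonneg (by linarith)
  have hu0 : (0 : ℝ) ≤ u := Nat.cast_nonneg _
  have hin := inner hTY hu hu1 hf hcop hc hr
  have h1 := small_le (cw f c u r) (abs_cw_le f c u r) X Y V
  have h2 := conv_le (cw f c u r) X Y V (small muR V) ArithmeticFunction.log
    (fun m hm => by rw [small_apply, if_neg (by omega)]) (B := 1) (A := u * Real.log (Y + 1))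
    zero_le_one (by positivity)
    (fun m hm => by rw [small_apply, if_pos hm]; exact abs_muR_le m)
    (fun m => by
      simp only [ArithmeticFunction.log_apply]
      refine (hin m (X / m) (Y / m)).2.trans ?_
      refine mul_le_mul_of_nonneg_left ?_ hu0
      apply Real.log_le_log (by positivity)
      have : ((Y / m : ℕ) : ℝ) ≤ Y := by exact_mod_cast Nat.div_le_self Y m
      linarith)
  have h3 := conv_le (cw f c u r) X Y (V * V) (small muR V * small Λ V)
    (ζ : ArithmeticFunction ℝ) (fun m hm => small_mul_small_eq_zero V V m hm)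
    (B := Real.log (Y + 1)) (A := u) hlog hu0
    (fun m hm => by
      refine (abs_small_mul_small_le V V m).trans ?_
      rcases Nat.eq_zero_or_pos m with h | h
      · rw [h]
        simp only [Nat.cast_zero, Real.log_zero]
        exact hlog
      · apply Real.log_le_log (by exact_mod_cast h)
        have : (m : ℝ) ≤ Y := by exact_mod_cast hm.trans hV
        linarith)
    (fun m => by
      have e : ∑ k ∈ Ioc (X / m) (Y / m), (ζ : ArithmeticFunction ℝ) k * cw f c u r (m * k) =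
          ∑ k ∈ Ioc (X / m) (Y / m), cw f c u r (m * k) := by
        apply Finset.sum_congr rfl
        intro k hk
        rw [mem_Ioc] at hk
        have hk0 : k ≠ 0 := (Nat.lt_of_le_of_lt (Nat.zero_le _) hk.1).ne'
        simp [hk0]
      rw [e]
      exact (hin m (X / m) (Y / m)).1)
  have hv : dsc f c u r X Y Λ =
      ∑ n ∈ Ioc X Y, small Λ V n * cw f c u r n +
      ∑ n ∈ Ioc X Y, (small muR V * ArithmeticFunction.log) n * cw f c u r n -
      ∑ n ∈ Ioc X Y, ((small muR V * small Λ V) * (ζ : ArithmeticFunction ℝ)) n *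
        cw f c u r n +
      dsc f c u r X Y (large muR V * (large Λ V * (ζ : ArithmeticFunction ℝ))) := by
    rw [dsc_eq, dsc_eq, ← Finset.sum_add_distrib, ← Finset.sum_sub_distrib,
      ← Finset.sum_add_distrib]
    refine Finset.sum_congr rfl fun n _ => ?_
    have h4 : (Λ : ArithmeticFunction ℝ) n = small Λ V n +
        (small muR V * ArithmeticFunction.log) n -
        ((small muR V * small Λ V) * (ζ : ArithmeticFunction ℝ)) n +
        (large muR V * (large Λ V * (ζ : ArithmeticFunction ℝ))) n := by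
      have h5 := DFunLike.congr_fun (vaughan V V) n
      rw [ArithmeticFunction.add_apply, sub_eq_add_neg, ArithmeticFunction.add_apply,
        ArithmeticFunction.add_apply] at h5
      rw [h5, sub_eq_add_neg]
      rfl
    rw [h4]
    ring
  have hVr : (1 : ℝ) ≤ V := by exact_mod_cast hV1
  have hur : (1 : ℝ) ≤ u := by exact_mod_cast hu1.le
  have g1 : (V : ℝ) * Real.log (Y + 1) ≤ (V : ℝ) ^ 2 * u * Real.log (Y + 1) := by
    refine mul_le_mul_of_nonneg_right ?_ hlog
    nlinarith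
  have g2 : (V : ℝ) * (1 * (u * Real.log (Y + 1))) ≤ (V : ℝ) ^ 2 * u * Real.log (Y + 1) := by
    have : (V : ℝ) * (1 * (u * Real.log (Y + 1))) = (V * u) * Real.log (Y + 1) := by ring
    rw [this]
    refine mul_le_mul_of_nonneg_right (mul_le_mul_of_nonneg_right ?_ hu0) hlog
    nlinarith
  have g3 : ((V * V : ℕ) : ℝ) * (Real.log (Y + 1) * u) = (V : ℝ) ^ 2 * u * Real.log (Y + 1) := by
    push_cast
    ring
  rw [g3] at h3
  rw [hv]
  rw [abs_le] at h1 h2 h3
  have h6 := abs_le.1 (le_refl |dsc f c u r X Y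
    (large muR V * (large Λ V * (ζ : ArithmeticFunction ℝ)))|)
  rw [abs_le]
  constructor <;> linarith [h1.1, h1.2, h2.1, h2.2, h3.1, h3.2, h6.1, h6.2]

/-- The arithmetic of the error term. -/
lemma arith (Y f U V : ℕ) (hY : 2 ^ 40 ≤ Y) (hf1 : 1 ≤ f) (hU1 : 1 ≤ U)
    (hf : f ^ 40 ≤ Y) (hU : U ^ 40 ≤ Y) (hV : V ^ 3 ≤ Y) :
    ((U : ℝ) + 1) * (3 * ((V : ℝ) ^ 2 * (2 * U) * Real.log (Y + 1))) ≤
      (Y : ℝ) * Real.log Y ^ 3 / (2 * (f * Real.sqrt U)) := by
  set t : ℝ := (Y : ℝ) ^ ((1 : ℝ) / 40) with ht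
  have hY1 : ((2 ^ 40 : ℕ) : ℝ) ≤ (Y : ℝ) := by exact_mod_cast hY
  push_cast at hY1
  have hY0 : (0 : ℝ) < Y := by linarith
  have ht0 : 0 < t := by positivity
  have htY : t ^ 40 = Y := by
    rw [ht, ← Real.rpow_natCast, ← Real.rpow_mul hY0.le]
    norm_num
  have ht2 : 2 ≤ t := by
    by_contra hcon
    push Not at hcon
    have h1 : t ^ 40 < 2 ^ 40 := by
      apply pow_lt_pow_left₀ hcon ht0.le
      norm_num
    rw [htY] at h1
    linarith
  have hft : (f : ℝ) ≤ t := by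
    have h1 : (f : ℝ) ^ 40 ≤ t ^ 40 := by
      rw [htY]
      exact_mod_cast hf
    exact le_of_pow_le_pow_left₀ (by norm_num) ht0.le h1
  have hUt : (U : ℝ) ≤ t := by
    have h1 : (U : ℝ) ^ 40 ≤ t ^ 40 := by
      rw [htY]
      exact_mod_cast hU
    exact le_of_pow_le_pow_left₀ (by norm_num) ht0.le h1
  have hV2 : (V : ℝ) ^ 2 ≤ t ^ 27 := by
    have h1 : ((V : ℝ) ^ 2) ^ 3 ≤ (t ^ 27) ^ 3 := by
      have h2 : (V : ℝ) ^ 3 ≤ t ^ 40 := by
        rw [htY]
        exact_mod_cast hV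
      calc ((V : ℝ) ^ 2) ^ 3 = ((V : ℝ) ^ 3) ^ 2 := by ring
        _ ≤ (t ^ 40) ^ 2 := pow_le_pow_left₀ (by positivity) h2 2
        _ = t ^ 80 := by ring
        _ ≤ t ^ 81 := pow_le_pow_right₀ (by linarith) (by norm_num)
        _ = (t ^ 27) ^ 3 := by ring
    exact le_of_pow_le_pow_left₀ (by norm_num) (by positivity) h1
  have hf1' : (1 : ℝ) ≤ f := by exact_mod_cast hf1
  have hU1' : (1 : ℝ) ≤ U := by exact_mod_cast hU1
  have hsU : Real.sqrt U ≤ t := by
    have h1 : Real.sqrt U ≤ U := by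
      rw [Real.sqrt_le_left (by linarith)]
      nlinarith
    linarith
  have hsU0 : 0 < Real.sqrt U := Real.sqrt_pos.mpr (by linarith)
  have hlog1 : 1 ≤ Real.log Y := by
    rw [Real.le_log_iff_exp_le hY0]
    have h4 := Real.exp_one_lt_d9
    linarith
  have hlog2 : Real.log ((Y : ℝ) + 1) ≤ 2 * Real.log Y := by
    have h1 : (Y : ℝ) + 1 ≤ Y ^ 2 := by nlinarith
    have h2 := Real.log_le_log (by positivity) h1
    rw [Real.log_pow] at h2
    exact_mod_cast h2
  have hlog0 : 0 ≤ Real.log ((Y : ℝ) + 1) := Real.log_nonneg (by linarith)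
  set ℓ := Real.log Y with hℓ
  have hden : 0 < 2 * ((f : ℝ) * Real.sqrt U) := by positivity
  rw [le_div_iff₀ hden]
  have e1 : (U : ℝ) + 1 ≤ 2 * t := by linarith
  calc ((U : ℝ) + 1) * (3 * ((V : ℝ) ^ 2 * (2 * U) * Real.log (Y + 1))) *
        (2 * (f * Real.sqrt U))
      ≤ (2 * t) * (3 * (t ^ 27 * (2 * t) * (2 * ℓ))) * (2 * (t * t)) := by gcongr
    _ = 48 * t ^ 31 * ℓ := by ring
    _ ≤ t ^ 9 * t ^ 31 * ℓ := by
        have h5 : (48 : ℝ) ≤ t ^ 9 := by
          have h6 : (2 : ℝ) ^ 9 ≤ t ^ 9 := pow_le_pow_left₀ (by norm_num) ht2 9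
          linarith
        have h8 : (0 : ℝ) ≤ t ^ 31 := by positivity
        have h9 : 0 ≤ ℓ := by linarith
        exact mul_le_mul_of_nonneg_right (mul_le_mul_of_nonneg_right h5 h8) h9
    _ = Y * ℓ := by
        rw [← pow_add, htY]
    _ ≤ Y * ℓ ^ 3 := by
        refine mul_le_mul_of_nonneg_left ?_ hY0.le
        exact le_self_pow₀ hlog1 (by norm_num)

end BVL

open BVL in
theorem t_BVL : M_BVL := by
  intro hTT hTY
  obtain ⟨Y₁, hTT⟩ := hTT
  refine ⟨max Y₁ (2 ^ 40), ?_⟩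
  intro X Y f U hY hXY hf1 hU1 hf hU P c r hP
  have hY1 : Y₁ ≤ Y := le_trans (le_max_left _ _) hY
  have hY2 : 2 ^ 40 ≤ Y := le_trans (le_max_right _ _) hY
  obtain ⟨V, hV1, hV2⟩ : ∃ V : ℕ, V ^ 3 ≤ Y ∧ Y < (V + 1) ^ 3 := by
    have hex : ∃ u : ℕ, Y < (u + 1) ^ 3 := by
      refine ⟨Y, ?_⟩
      calc Y < Y + 1 := Nat.lt_succ_self Y
        _ ≤ (Y + 1) ^ 3 := Nat.le_self_pow (by norm_num) _
    classical
    refine ⟨Nat.find hex, ?_, Nat.find_spec hex⟩
    rcases Nat.eq_zero_or_pos (Nat.find hex) with h | h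
    · rw [h]; simp
    · have h2 := Nat.find_min hex (show Nat.find hex - 1 < Nat.find hex by omega)
      have h3 : Nat.find hex - 1 + 1 = Nat.find hex := by omega
      rw [h3] at h2
      omega
  have hVpos : 1 ≤ V := by
    by_contra h
    have h0 : V = 0 := by omega
    rw [h0] at hV2
    norm_num at hV2
    have : (1 : ℕ) ≤ 2 ^ 40 := Nat.one_le_two_pow
    omega
  have hVV : V * V ≤ Y := by
    calc V * V = V ^ 2 := by ring
      _ ≤ V ^ 3 := Nat.pow_le_pow_right (by omega) (by norm_num)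
      _ ≤ Y := hV1
  have hII := hTT X Y V f U hY1 hXY hV1 hV2 hf1 hU1 hf hU P c r hP
  have hY0 : (0 : ℝ) ≤ Y := Nat.cast_nonneg _
  have hlog : 0 ≤ Real.log ((Y : ℝ) + 1) := Real.log_nonneg (by linarith)
  have hI : ∀ u ∈ P, |dsc f (c u) u (r u) X Y Λ| ≤
      |dsc f (c u) u (r u) X Y (large muR V * (large Λ V * (ζ : ArithmeticFunction ℝ)))| +
      3 * ((V : ℝ) ^ 2 * (2 * U) * Real.log (Y + 1)) := by
    intro u hu
    obtain ⟨g1, g2, g3, g4, g5, g6, g7⟩ := hP u hu
    refine (per hTY g1 g2 hf1 g5 g6 g7 X Y V hVpos hVV).trans ?_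
    have h1 : (u : ℝ) ≤ 2 * U := by exact_mod_cast g4
    gcongr
  have hsum := Finset.sum_le_sum hI
  rw [Finset.sum_add_distrib, Finset.sum_const, nsmul_eq_mul] at hsum
  have hcard : (P.card : ℝ) ≤ U + 1 := by
    have h3 : P ⊆ Icc U (2 * U) := by
      intro u hu
      have := hP u hu
      rw [Finset.mem_Icc]
      exact ⟨this.2.2.1, this.2.2.2.1⟩
    have h4 := Finset.card_le_card h3
    rw [Nat.card_Icc] at h4
    have h5 : P.card ≤ U + 1 := by omega
    exact_mod_cast h5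
  have h6 := arith Y f U V hY2 hf1 hU1 hf hU hV1
  have h7 : (P.card : ℝ) * (3 * ((V : ℝ) ^ 2 * (2 * U) * Real.log (Y + 1))) ≤
      ((U : ℝ) + 1) * (3 * ((V : ℝ) ^ 2 * (2 * U) * Real.log (Y + 1))) :=
    mul_le_mul_of_nonneg_right hcard (by positivity)
  have h8 : (Y : ℝ) * Real.log Y ^ 3 / (f * Real.sqrt U) =
      (Y : ℝ) * Real.log Y ^ 3 / (2 * (f * Real.sqrt U)) +
      (Y : ℝ) * Real.log Y ^ 3 / (2 * (f * Real.sqrt U)) := by
    have hf0 : (0 : ℝ) < f := by exact_mod_cast hf1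
    have hU0 : (0 : ℝ) < Real.sqrt U := Real.sqrt_pos.2 (by exact_mod_cast hU1)
    field_simp
    ring
  rw [h8]
  linarith

end

end IPR
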