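import Pool.Agent.IPR.StmtsB

set_option autoImplicit false

/-!
The inequality of Bombieri and Vinogradov relative to a class, for primes (from the inequality for
the von Mangoldt function).
-/

namespace IPR

open Finset ArithmeticFunction
open scoped ArithmeticFunction.zeta ArithmeticFunction.Moebius

namespace BVP

lemma abs_wt_le (l : ℕ) (hl : l.Prime) (r : ℤ) (n : ℕ) :
    |Pool.Agent.Lib_helper72.AP.wt l r n| ≤ 1 := by
  unfold Pool.Agent.Lib_helper72.AP.wt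
  have h2 : (2 : ℝ) ≤ l := by exact_mod_cast hl.two_le
  have h3 : (0 : ℝ) < (l : ℝ) - 1 := by linarith
  have h4 : 0 ≤ 1 / ((l : ℝ) - 1) := by positivity
  have h5 : 1 / ((l : ℝ) - 1) ≤ 1 := by
    rw [div_le_one h3]
    linarith
  split_ifs <;> rw [abs_le] <;> constructor <;> (try simp only [zero_div]) <;> linarith

lemma abs_ps_le (u : ℕ) (r : ℤ) (n : ℕ) : |ps u r n| ≤ 1 := by
  unfold ps
  rw [Finset.abs_prod]
  exact Finset.prod_le_one (fun _ _ => abs_nonneg _)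
    (fun l hl => abs_wt_le l (Nat.prime_of_mem_primeFactors hl) r n)

lemma split (f c u : ℕ) (r : ℤ) (X Y : ℕ) :
    dsc f c u r X Y vonMangoldt = dsp f c u r X Y +
      ∑ n ∈ (Ioc X Y).filter (fun n => n ≡ c [MOD f] ∧ ¬ n.Prime), vonMangoldt n * ps u r n := by
  unfold dsc dsp
  rw [← Finset.sum_filter_add_sum_filter_not ((Ioc X Y).filter (fun n => n ≡ c [MOD f]))
    (fun n => n.Prime), Finset.filter_filter, Finset.filter_filter]
  congr 1
  have hs : (Ioc X Y).filter (fun n => n ≡ c [MOD f] ∧ n.Prime) =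
      (Ioc X Y).filter (fun n => n.Prime ∧ n ≡ c [MOD f]) := by
    ext n
    simp only [Finset.mem_filter]
    tauto
  rw [hs]
  refine Finset.sum_congr rfl ?_
  intro n hn
  rw [Finset.mem_filter] at hn
  rw [vonMangoldt_apply_prime hn.2.1]

lemma rest_le (f c u : ℕ) (r : ℤ) (X Y : ℕ) (hY : 1 ≤ Y) :
    |∑ n ∈ (Ioc X Y).filter (fun n => n ≡ c [MOD f] ∧ ¬ n.Prime), vonMangoldt n * ps u r n| ≤
      2 * Real.sqrt Y * Real.log Y := by
  calc |∑ n ∈ (Ioc X Y).filter (fun n => n ≡ c [MOD f] ∧ ¬ n.Prime), vonMangoldt n * ps u r n|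
      ≤ ∑ n ∈ (Ioc X Y).filter (fun n => n ≡ c [MOD f] ∧ ¬ n.Prime),
          |vonMangoldt n * ps u r n| := Finset.abs_sum_le_sum_abs _ _
    _ ≤ ∑ n ∈ (Ioc X Y).filter (fun n => n ≡ c [MOD f] ∧ ¬ n.Prime), vonMangoldt n := by
        refine Finset.sum_le_sum ?_
        intro n _
        rw [abs_mul, abs_of_nonneg vonMangoldt_nonneg]
        have := abs_ps_le u r n
        have h0 : 0 ≤ vonMangoldt n := vonMangoldt_nonneg
        nlinarith
    _ ≤ ∑ n ∈ (Ioc 0 ⌊(Y : ℝ)⌋₊).filter (fun n => ¬ n.Prime), vonMangoldt n := by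
        refine Finset.sum_le_sum_of_subset_of_nonneg ?_ (fun _ _ _ => vonMangoldt_nonneg)
        intro n hn
        rw [Finset.mem_filter, Finset.mem_Ioc] at hn
        rw [Finset.mem_filter, Finset.mem_Ioc, Nat.floor_natCast]
        exact ⟨⟨by omega, hn.1.2⟩, hn.2.2⟩
    _ = Chebyshev.psi Y - Chebyshev.theta Y := by
        rw [Chebyshev.psi_sub_theta_eq_sum_not_prime]
    _ ≤ 2 * Real.sqrt Y * Real.log Y := by
        apply Chebyshev.psi_sub_theta_le
        exact_mod_cast hY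

lemma dsp_le (f c u : ℕ) (r : ℤ) (X Y : ℕ) (hY : 1 ≤ Y) :
    |dsp f c u r X Y| ≤ |dsc f c u r X Y vonMangoldt| + 2 * Real.sqrt Y * Real.log Y := by
  have h1 := split f c u r X Y
  have h2 := rest_le f c u r X Y hY
  have h3 : dsp f c u r X Y = dsc f c u r X Y vonMangoldt -
      ∑ n ∈ (Ioc X Y).filter (fun n => n ≡ c [MOD f] ∧ ¬ n.Prime), vonMangoldt n * ps u r n := by
    linarith
  rw [h3]
  have h4 := abs_sub (dsc f c u r X Y vonMangoldt)
    (∑ n ∈ (Ioc X Y).filter (fun n => n ≡ c [MOD f] ∧ ¬ n.Prime), vonMangoldt n * ps u r n)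
  linarith

/-- The arithmetic of the error term. -/
lemma arith (Y f U : ℕ) (p : ℝ) (hY : 2 ^ 40 ≤ Y) (hf1 : 1 ≤ f) (hU1 : 1 ≤ U)
    (hf : f ^ 40 ≤ Y) (hU : U ^ 40 ≤ Y) (hp : p ≤ U + 1) :
    p * (2 * Real.sqrt Y * Real.log Y) ≤
      (Y : ℝ) * Real.log Y ^ 4 / (f * Real.sqrt U) - (Y : ℝ) * Real.log Y ^ 3 / (f * Real.sqrt U) := by
  set t : ℝ := (Y : ℝ) ^ ((1 : ℝ) / 40) with ht
  have hY0 : (0 : ℝ) < Y := by
    have : 0 < Y := by
      have h : (0 : ℕ) < 2 ^ 40 := by positivity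
      omega
    exact_mod_cast this
  have ht0 : 0 < t := by positivity
  have htY : t ^ 40 = Y := by
    rw [ht, ← Real.rpow_natCast, ← Real.rpow_mul hY0.le]
    norm_num
  have ht2 : 2 ≤ t := by
    by_contra hcon
    push Not at hcon
    have h1 : t ^ 40 < 2 ^ 40 := by
      apply pow_lt_pow_left₀ hcon ht0.le
      norm_num
    rw [htY] at h1
    have h2 : ((2 ^ 40 : ℕ) : ℝ) ≤ (Y : ℝ) := by exact_mod_cast hY
    push_cast at h2
    linarith
  have hft : (f : ℝ) ≤ t := by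
    have h1 : (f : ℝ) ^ 40 ≤ t ^ 40 := by
      rw [htY]
      exact_mod_cast hf
    exact le_of_pow_le_pow_left₀ (by norm_num) ht0.le h1
  have hUt : (U : ℝ) ≤ t := by
    have h1 : (U : ℝ) ^ 40 ≤ t ^ 40 := by
      rw [htY]
      exact_mod_cast hU
    exact le_of_pow_le_pow_left₀ (by norm_num) ht0.le h1
  have hf1' : (1 : ℝ) ≤ f := by exact_mod_cast hf1
  have hU1' : (1 : ℝ) ≤ U := by exact_mod_cast hU1
  have hsU : Real.sqrt U ≤ t := by
    have h1 : Real.sqrt U ≤ U := by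
      rw [Real.sqrt_le_left (by linarith)]
      nlinarith
    linarith
  have hsU0 : 0 < Real.sqrt U := Real.sqrt_pos.mpr (by linarith)
  have hsY : Real.sqrt Y = t ^ 20 := by
    rw [← htY, show t ^ 40 = (t ^ 20) ^ 2 by ring, Real.sqrt_sq (by positivity)]
  have hlog : 2 ≤ Real.log Y := by
    have h1 : Real.exp 2 ≤ Y := by
      have h2 : Real.exp 2 < 2 ^ 40 := by
        have h3 : Real.exp 2 = Real.exp 1 * Real.exp 1 := by
          rw [← Real.exp_add]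
          norm_num
        have h4 := Real.exp_one_lt_d9
        have h5 := Real.exp_pos 1
        rw [h3]
        nlinarith
      have h6 : ((2 ^ 40 : ℕ) : ℝ) ≤ (Y : ℝ) := by exact_mod_cast hY
      push_cast at h6
      linarith
    rw [← Real.log_exp 2]
    exact Real.log_le_log (Real.exp_pos 2) h1
  set ℓ := Real.log Y with hℓ
  have hden : 0 < (f : ℝ) * Real.sqrt U := by positivity
  have hden2 : (f : ℝ) * Real.sqrt U ≤ t ^ 2 := by
    rw [sq]
    exact mul_le_mul hft hsU hsU0.le ht0.le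
  rw [← sub_div, le_div_iff₀ hden]
  have hpt : p ≤ 2 * t := by linarith
  have hmain : p * (2 * Real.sqrt Y * ℓ) * (f * Real.sqrt U) ≤ (4 * t ^ 23) * ℓ := by
    have h1 : p * (2 * Real.sqrt Y * ℓ) ≤ 2 * t * (2 * Real.sqrt Y * ℓ) := by
      apply mul_le_mul_of_nonneg_right hpt
      have := Real.sqrt_nonneg (Y : ℝ)
      have h2 : 0 ≤ ℓ := by linarith
      positivity
    have h3 : 0 ≤ 2 * t * (2 * Real.sqrt Y * ℓ) := by
      have := Real.sqrt_nonneg (Y : ℝ)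
      have h2 : 0 ≤ ℓ := by linarith
      positivity
    calc p * (2 * Real.sqrt Y * ℓ) * (f * Real.sqrt U)
        ≤ (2 * t * (2 * Real.sqrt Y * ℓ)) * (f * Real.sqrt U) :=
          mul_le_mul_of_nonneg_right h1 hden.le
      _ ≤ (2 * t * (2 * Real.sqrt Y * ℓ)) * t ^ 2 := mul_le_mul_of_nonneg_left hden2 h3
      _ = (4 * t ^ 23) * ℓ := by
          rw [hsY]
          ring
  have h4 : 4 * t ^ 23 ≤ (Y : ℝ) := by
    have h5 : (4 : ℝ) ≤ t ^ 17 := by
      have h6 : (2 : ℝ) ^ 17 ≤ t ^ 17 := pow_le_pow_left₀ (by norm_num) ht2 17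
      have h7 : (4 : ℝ) ≤ 2 ^ 17 := by norm_num
      linarith
    have h8 : (0 : ℝ) ≤ t ^ 23 := by positivity
    calc 4 * t ^ 23 ≤ t ^ 17 * t ^ 23 := mul_le_mul_of_nonneg_right h5 h8
      _ = t ^ 40 := by ring
      _ = Y := htY
  have h9 : (4 * t ^ 23) * ℓ ≤ Y * ℓ := mul_le_mul_of_nonneg_right h4 (by linarith)
  have h10 : ℓ ≤ ℓ ^ 4 - ℓ ^ 3 := by
    have h11 : ℓ ^ 4 - ℓ ^ 3 = ℓ * (ℓ ^ 2 * (ℓ - 1)) := by ring
    have h12 : 1 ≤ ℓ ^ 2 * (ℓ - 1) := by nlinarith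
    rw [h11]
    nlinarith
  have h13 : (Y : ℝ) * ℓ ≤ Y * (ℓ ^ 4 - ℓ ^ 3) := mul_le_mul_of_nonneg_left h10 hY0.le
  have h14 : (Y : ℝ) * (ℓ ^ 4 - ℓ ^ 3) = Y * ℓ ^ 4 - Y * ℓ ^ 3 := by ring
  linarith

end BVP

open BVP in
theorem t_BVP : M_BVP := by
  intro hB
  obtain ⟨Y₀, h⟩ := hB
  refine ⟨max Y₀ (2 ^ 40), ?_⟩
  intro X Y f U hY hXY hf1 hU1 hf hU P c r hP
  have hY1 : Y₀ ≤ Y := le_trans (le_max_left _ _) hY
  have hY2 : 2 ^ 40 ≤ Y := le_trans (le_max_right _ _) hY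
  have hYpos : 1 ≤ Y := by
    have : (1 : ℕ) ≤ 2 ^ 40 := by norm_num
    omega
  have h1 := h X Y f U hY1 hXY hf1 hU1 hf hU P c r hP
  have h2 : ∑ u ∈ P, |dsp f (c u) u (r u) X Y| ≤
      ∑ u ∈ P, (|dsc f (c u) u (r u) X Y vonMangoldt| + 2 * Real.sqrt Y * Real.log Y) :=
    Finset.sum_le_sum (fun u _ => dsp_le f (c u) u (r u) X Y hYpos)
  rw [Finset.sum_add_distrib, Finset.sum_const, nsmul_eq_mul] at h2
  have hcard : (P.card : ℝ) ≤ U + 1 := by
    have h3 : P ⊆ Icc U (2 * U) := by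
      intro u hu
      have := hP u hu
      rw [Finset.mem_Icc]
      exact ⟨this.2.2.1, this.2.2.2.1⟩
    have h4 := Finset.card_le_card h3
    rw [Nat.card_Icc] at h4
    have h5 : P.card ≤ U + 1 := by omega
    exact_mod_cast h5
  have h6 := arith Y f U P.card hY2 hf1 hU1 hf hU hcard
  linarith

end IPR
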