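import Pool.Agent.IPR.StmtsB

set_option autoImplicit false

/-!
# Project IPR, module DLS: the dual large sieve for pure functions on a progression
-/

namespace IPR

open Finset

noncomputable section

namespace DLS

/-- sums of a periodic function -/
lemma sum_per (H : ℕ → ℝ) (m : ℕ) (hH : ∀ n, H (n + m) = H n) (q r : ℕ) :
    ∑ j ∈ range (m * q + r), H j = q * ∑ j ∈ range m, H j + ∑ j ∈ range r, H j := by
  induction q with
  | zero => simp
  | succ q ih =>
    have h1 : m * (q + 1) + r = m + (m * q + r) := by ring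
    rw [h1, Finset.sum_range_add]
    have h2 : ∑ x ∈ range (m * q + r), H (m + x) = ∑ x ∈ range (m * q + r), H x := by
      apply Finset.sum_congr rfl
      intro x _
      rw [add_comm, hH]
    rw [h2, ih]
    push_cast
    ring

lemma sum_shift (H : ℕ → ℝ) (m : ℕ) (hH : ∀ n, H (n + m) = H n) (s : ℕ) :
    ∑ j ∈ range m, H (j + s) = ∑ j ∈ range m, H j := by
  have h1 := Finset.sum_range_add H s m
  have h2 := Finset.sum_range_add H m s
  rw [add_comm s m] at h1
  rw [h2] at h1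
  have h3 : ∑ x ∈ range s, H (m + x) = ∑ x ∈ range s, H x := by
    apply Finset.sum_congr rfl
    intro x _
    rw [add_comm, hH]
  have h4 : ∑ x ∈ range m, H (s + x) = ∑ x ∈ range m, H (x + s) := by
    apply Finset.sum_congr rfl
    intro x _
    rw [add_comm]
  rw [h3, h4] at h1
  linarith

lemma per_mul (H : ℕ → ℝ) (m : ℕ) (hH : ∀ n, H (n + m) = H n) (n q : ℕ) :
    H (n + q * m) = H n := by
  induction q with
  | zero => simp
  | succ q ih =>
    have h1 : n + (q + 1) * m = (n + q * m) + m := by ring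
    rw [h1, hH, ih]

/-- permutation of the residues by a unit and a shift -/
lemma sum_perm (l a c : ℕ) (hl : 0 < l) (ha : Nat.Coprime a l) (K : ℕ → ℝ) :
    ∑ i ∈ range l, K ((c + i * a) % l) = ∑ i ∈ range l, K i := by
  apply Finset.sum_nbij (fun i => (c + i * a) % l)
  · intro i _
    exact Finset.mem_range.mpr (Nat.mod_lt _ hl)
  · have hinj : Set.InjOn (fun i => (c + i * a) % l) (range l : Finset ℕ) := by
      intro i hi j hj hij
      rw [Finset.mem_coe, Finset.mem_range] at hi hj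
      have h1 : c + i * a ≡ c + j * a [MOD l] := hij
      have h2 : i * a ≡ j * a [MOD l] := Nat.ModEq.add_left_cancel' c h1
      have h3 : i ≡ j [MOD l] := Nat.ModEq.cancel_right_of_coprime (ha.symm) h2
      have h4 : i % l = j % l := h3
      rwa [Nat.mod_eq_of_lt hi, Nat.mod_eq_of_lt hj] at h4
    exact hinj
  · have hinj : Set.InjOn (fun i => (c + i * a) % l) (range l : Finset ℕ) := by
      intro i hi j hj hij
      rw [Finset.mem_coe, Finset.mem_range] at hi hj
      have h1 : c + i * a ≡ c + j * a [MOD l] := hij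
      have h2 : i * a ≡ j * a [MOD l] := Nat.ModEq.add_left_cancel' c h1
      have h3 : i ≡ j [MOD l] := Nat.ModEq.cancel_right_of_coprime (ha.symm) h2
      have h4 : i % l = j % l := h3
      rwa [Nat.mod_eq_of_lt hi, Nat.mod_eq_of_lt hj] at h4
    apply Finset.surjOn_of_injOn_of_card_le _ _ hinj le_rfl
    intro i _
    exact Finset.mem_coe.mpr (Finset.mem_range.mpr (Nat.mod_lt _ hl))
  · intro i _
    rfl

/-- the fibre sums vanish also with a factor prime to `l` -/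
lemma fib (u : ℕ) (G : ℕ → ℝ) (hG : PureF u G) (l a : ℕ) (hl : l.Prime) (hlu : l ∣ u)
    (ha : Nat.Coprime a l) (n : ℕ) : ∑ i ∈ range l, G (n + i * a * (u / l)) = 0 := by
  have h1 : ∀ i ∈ range l, G (n + i * a * (u / l)) =
      (fun j => G (n + j * (u / l))) ((0 + i * a) % l) := by
    intro i _
    show G (n + i * a * (u / l)) = G (n + ((0 + i * a) % l) * (u / l))
    rw [zero_add]
    have h2 : i * a = (i * a) / l * l + (i * a) % l := (Nat.div_add_mod' _ _).symm
    have h3 : l * (u / l) = u := Nat.mul_div_cancel' hlu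
    have h4 : n + i * a * (u / l) = (n + ((i * a) % l) * (u / l)) + (i * a) / l * u := by
      calc n + i * a * (u / l) = n + ((i * a) / l * l + (i * a) % l) * (u / l) := by rw [← h2]
        _ = (n + ((i * a) % l) * (u / l)) + (i * a) / l * (l * (u / l)) := by ring
        _ = _ := by rw [h3]
    rw [h4, per_mul G u hG.1]
  rw [Finset.sum_congr rfl h1]
  exact (sum_perm l a 0 hl.pos ha (fun j => G (n + j * (u / l)))).trans (hG.2 l hl hlu n)

/-- a pure function along a progression -/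
lemma pure_prog (u : ℕ) (F : ℕ → ℝ) (hF : PureF u F) (f k : ℕ) (huf : u.Coprime f) :
    PureF u (fun j => F (k + f * j)) := by
  refine ⟨?_, ?_⟩
  · intro n
    show F (k + f * (n + u)) = F (k + f * n)
    have h1 : k + f * (n + u) = (k + f * n) + f * u := by ring
    rw [h1, per_mul F u hF.1]
  · intro l hl hlu n
    have h1 : Nat.Coprime f l := (Nat.Coprime.coprime_dvd_left hlu huf).symm
    have h2 := fib u F hF l f hl hlu h1 (k + f * n)
    rw [← h2]
    apply Finset.sum_congr rfl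
    intro i _
    show F (k + f * (n + i * (u / l))) = _
    congr 1
    ring

lemma sq_prog (u : ℕ) (F : ℕ → ℝ) (hF : ∀ n, F (n + u) = F n) (f k : ℕ) (hu : 0 < u)
    (huf : u.Coprime f) :
    ∑ j ∈ range u, (F (k + f * j)) ^ 2 = ∑ r ∈ range u, F r ^ 2 := by
  have h1 := sum_perm u f k hu huf.symm (fun r => F r ^ 2)
  rw [← h1]
  apply Finset.sum_congr rfl
  intro j _
  have h2 : F (k + f * j) = F ((k + j * f) % u) := by
    have h3 : k + f * j = (k + j * f) % u + (k + j * f) / u * u := by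
      rw [Nat.mod_add_div']
      ring
    rw [h3, per_mul F u hF]
  rw [h2]

/-- correlations over a full period vanish -/
lemma corr_aux (u v : ℕ) (G K : ℕ → ℝ) (hG : PureF u G) (hK : ∀ n, K (n + v) = K n) (l : ℕ)
    (hl : l.Prime) (hlu : l ∣ u) (hlv : ¬ l ∣ v) : ∑ j ∈ range (u * v), G j * K j = 0 := by
  have hper : ∀ n, (fun j => G j * K j) (n + u * v) = (fun j => G j * K j) n := by
    intro n
    show G (n + u * v) * K (n + u * v) = G n * K n
    rw [mul_comm u v, per_mul G u hG.1, mul_comm v u, per_mul K v hK]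
  have h1 : ∀ i ∈ range l, ∑ j ∈ range (u * v), G (j + i * v * (u / l)) * K j =
      ∑ j ∈ range (u * v), G j * K j := by
    intro i _
    rw [← sum_shift (fun j => G j * K j) (u * v) hper (i * v * (u / l))]
    apply Finset.sum_congr rfl
    intro j _
    show G (j + i * v * (u / l)) * K j = G (j + i * v * (u / l)) * K (j + i * v * (u / l))
    have h2 : j + i * v * (u / l) = j + (i * (u / l)) * v := by ring
    have h3 : K (j + i * v * (u / l)) = K j := by rw [h2, per_mul K v hK]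
    rw [h3]
  have h2 : ∑ i ∈ range l, ∑ j ∈ range (u * v), G (j + i * v * (u / l)) * K j = 0 := by
    rw [Finset.sum_comm]
    apply Finset.sum_eq_zero
    intro j _
    rw [← Finset.sum_mul, fib u G hG l v hl hlu
      ((Nat.Prime.coprime_iff_not_dvd hl).mpr hlv).symm j, zero_mul]
  rw [Finset.sum_congr rfl h1, Finset.sum_const, Finset.card_range, nsmul_eq_mul] at h2
  rcases mul_eq_zero.mp h2 with h3 | h3
  · have h4 : l = 0 := by exact_mod_cast h3
    exact absurd h4 hl.ne_zero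
  · exact h3

lemma ex_prime (u v : ℕ) (hu : Squarefree u) (hv : Squarefree v) (h : u ≠ v) :
    (∃ l, l.Prime ∧ l ∣ u ∧ ¬ l ∣ v) ∨ ∃ l, l.Prime ∧ l ∣ v ∧ ¬ l ∣ u := by
  by_contra hn
  rw [not_or] at hn
  obtain ⟨h1, h2⟩ := hn
  push Not at h1 h2
  apply h
  rw [Nat.Squarefree.ext_iff hu hv]
  intro p hp
  exact ⟨h1 p hp, h2 p hp⟩

lemma corr (u v : ℕ) (G K : ℕ → ℝ) (hu : Squarefree u) (hv : Squarefree v) (h : u ≠ v)
    (hG : PureF u G) (hK : PureF v K) : ∑ j ∈ range (u * v), G j * K j = 0 := by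
  rcases ex_prime u v hu hv h with ⟨l, hl, h1, h2⟩ | ⟨l, hl, h1, h2⟩
  · exact corr_aux u v G K hG hK.1 l hl h1 h2
  · have h3 := corr_aux v u K G hK hG.1 l hl h1 h2
    rw [mul_comm u v, ← h3]
    apply Finset.sum_congr rfl
    intro j _
    ring

/-- an interval of length `n` contains every class at most `n / u + 1` times -/
lemma sq_le (u n : ℕ) (G : ℕ → ℝ) (hu : 0 < u) (hG : ∀ m, G (m + u) = G m) :
    ∑ j ∈ range n, G j ^ 2 ≤ (((n / u : ℕ) : ℝ) + 1) * ∑ j ∈ range u, G j ^ 2 := by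
  have h1 := sum_per (fun j => G j ^ 2) u (fun m => by show G (m + u) ^ 2 = G m ^ 2; rw [hG])
    (n / u) (n % u)
  have h2 : u * (n / u) + n % u = n := Nat.div_add_mod n u
  rw [h2] at h1
  rw [h1, add_mul, one_mul]
  apply add_le_add le_rfl
  apply Finset.sum_le_sum_of_subset_of_nonneg
  · intro j hj
    rw [Finset.mem_range] at hj ⊢
    exact hj.trans (Nat.mod_lt _ hu)
  · intro j _ _
    exact sq_nonneg _

lemma cross (u v n U : ℕ) (G K : ℕ → ℝ) (hu : Squarefree u) (hv : Squarefree v) (h : u ≠ v)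
    (hG : PureF u G) (hK : PureF v K) (hu0 : 0 < u) (hv0 : 0 < v) (hu2 : u ≤ 2 * U)
    (hv2 : v ≤ 2 * U) :
    ∑ j ∈ range n, G j * K j ≤ (2 * U + 1) * (Real.sqrt (∑ j ∈ range u, G j ^ 2) *
      Real.sqrt (∑ j ∈ range v, K j ^ 2)) := by
  have hper : ∀ m, (fun j => G j * K j) (m + u * v) = (fun j => G j * K j) m := by
    intro m
    show G (m + u * v) * K (m + u * v) = G m * K m
    rw [mul_comm u v, per_mul G u hG.1, mul_comm v u, per_mul K v hK.1]
  have h1 := sum_per (fun j => G j * K j) (u * v) hper (n / (u * v)) (n % (u * v))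
  have h2 : u * v * (n / (u * v)) + n % (u * v) = n := Nat.div_add_mod n (u * v)
  rw [h2] at h1
  rw [h1, corr u v G K hu hv h hG hK, mul_zero, zero_add]
  set m := n % (u * v) with hm
  have hmlt : m < u * v := Nat.mod_lt _ (Nat.mul_pos hu0 hv0)
  have hS0 : 0 ≤ ∑ j ∈ range u, G j ^ 2 := Finset.sum_nonneg fun j _ => sq_nonneg _
  have hT0 : 0 ≤ ∑ j ∈ range v, K j ^ 2 := Finset.sum_nonneg fun j _ => sq_nonneg _
  have hA : ∑ j ∈ range m, G j ^ 2 ≤ (2 * U + 1) * ∑ j ∈ range u, G j ^ 2 := by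
    refine (sq_le u m G hu0 hG.1).trans (mul_le_mul_of_nonneg_right ?_ hS0)
    have h3 : m / u ≤ 2 * U := by
      have h4 : m / u ≤ v := by
        apply Nat.div_le_of_le_mul
        exact hmlt.le
      exact h4.trans hv2
    have h5 : ((m / u : ℕ) : ℝ) ≤ ((2 * U : ℕ) : ℝ) := by exact_mod_cast h3
    push_cast at h5 ⊢
    linarith
  have hB : ∑ j ∈ range m, K j ^ 2 ≤ (2 * U + 1) * ∑ j ∈ range v, K j ^ 2 := by
    refine (sq_le v m K hv0 hK.1).trans (mul_le_mul_of_nonneg_right ?_ hT0)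
    have h3 : m / v ≤ 2 * U := by
      have h4 : m / v ≤ u := by
        apply Nat.div_le_of_le_mul
        rw [mul_comm]
        exact hmlt.le
      exact h4.trans hu2
    have h5 : ((m / v : ℕ) : ℝ) ≤ ((2 * U : ℕ) : ℝ) := by exact_mod_cast h3
    push_cast at h5 ⊢
    linarith
  have hU0 : (0 : ℝ) ≤ 2 * U + 1 := by positivity
  refine (Real.sum_mul_le_sqrt_mul_sqrt _ _ _).trans ?_
  calc Real.sqrt (∑ j ∈ range m, G j ^ 2) * Real.sqrt (∑ j ∈ range m, K j ^ 2)
      ≤ Real.sqrt ((2 * U + 1) * ∑ j ∈ range u, G j ^ 2) *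
        Real.sqrt ((2 * U + 1) * ∑ j ∈ range v, K j ^ 2) :=
        mul_le_mul (Real.sqrt_le_sqrt hA) (Real.sqrt_le_sqrt hB) (Real.sqrt_nonneg _)
          (Real.sqrt_nonneg _)
    _ = (2 * U + 1) * (Real.sqrt (∑ j ∈ range u, G j ^ 2) *
        Real.sqrt (∑ j ∈ range v, K j ^ 2)) := by
        rw [Real.sqrt_mul hU0, Real.sqrt_mul hU0]
        have h3 : Real.sqrt (2 * (U : ℝ) + 1) * Real.sqrt (2 * (U : ℝ) + 1) = 2 * U + 1 :=
          Real.mul_self_sqrt hU0
        linear_combination (Real.sqrt (∑ j ∈ range u, G j ^ 2) *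
          Real.sqrt (∑ j ∈ range v, K j ^ 2)) * h3

/-- the large sieve on `range n` -/
lemma main (P : Finset ℕ) (U n : ℕ) (G : ℕ → ℕ → ℝ) (hU : 1 ≤ U)
    (hP : ∀ u ∈ P, Squarefree u ∧ U ≤ u ∧ u ≤ 2 * U) (hG : ∀ u ∈ P, PureF u (G u)) :
    ∑ j ∈ range n, (∑ u ∈ P, G u j) ^ 2 ≤ ((n : ℝ) / U + 1 + (2 * U + 1) * P.card) *
      ∑ u ∈ P, ∑ r ∈ range u, G u r ^ 2 := by
  classical
  set S : ℕ → ℝ := fun u => ∑ r ∈ range u, G u r ^ 2 with hS
  have hS0 : ∀ u, 0 ≤ S u := fun u => Finset.sum_nonneg fun j _ => sq_nonneg _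
  have hU0 : (0 : ℝ) < U := by exact_mod_cast hU
  have h1 : ∑ j ∈ range n, (∑ u ∈ P, G u j) ^ 2 =
      ∑ u ∈ P, ∑ v ∈ P, ∑ j ∈ range n, G u j * G v j := by
    have h2 : ∀ j ∈ range n, (∑ u ∈ P, G u j) ^ 2 = ∑ u ∈ P, ∑ v ∈ P, G u j * G v j := by
      intro j _
      rw [pow_two, Finset.sum_mul_sum]
    rw [Finset.sum_congr rfl h2, Finset.sum_comm]
    apply Finset.sum_congr rfl
    intro u _
    rw [Finset.sum_comm]
  have h2 : ∀ u ∈ P, ∀ v ∈ P, ∑ j ∈ range n, G u j * G v j ≤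
      (if u = v then ((n : ℝ) / U + 1) * S u else 0) +
        (2 * U + 1) * (Real.sqrt (S u) * Real.sqrt (S v)) := by
    intro u hu v hv
    obtain ⟨a1, a2, a3⟩ := hP u hu
    obtain ⟨b1, b2, b3⟩ := hP v hv
    have hu0 : 0 < u := by omega
    have hv0 : 0 < v := by omega
    by_cases h : u = v
    · subst h
      rw [if_pos rfl]
      have h3 : ∑ j ∈ range n, G u j * G u j = ∑ j ∈ range n, G u j ^ 2 := by
        apply Finset.sum_congr rfl
        intro j _
        ring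
      rw [h3]
      have h4 := sq_le u n (G u) hu0 (hG u hu).1
      have h5 : ((n / u : ℕ) : ℝ) ≤ (n : ℝ) / U := by
        refine Nat.cast_div_le.trans ?_
        exact div_le_div_of_nonneg_left (by positivity) hU0 (by exact_mod_cast a2)
      have h6 : (((n / u : ℕ) : ℝ) + 1) * S u ≤ ((n : ℝ) / U + 1) * S u :=
        mul_le_mul_of_nonneg_right (by linarith) (hS0 u)
      have h7 : 0 ≤ (2 * (U : ℝ) + 1) * (Real.sqrt (S u) * Real.sqrt (S u)) := by positivity
      linarith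
    · rw [if_neg h, zero_add]
      exact cross u v n U (G u) (G v) a1 b1 h (hG u hu) (hG v hv) hu0 hv0 a3 b3
  have h3 : ∑ u ∈ P, ∑ v ∈ P, ((if u = v then ((n : ℝ) / U + 1) * S u else 0) +
      (2 * U + 1) * (Real.sqrt (S u) * Real.sqrt (S v))) =
      ((n : ℝ) / U + 1) * ∑ u ∈ P, S u + (2 * U + 1) * (∑ u ∈ P, Real.sqrt (S u)) ^ 2 := by
    have h4 : ∀ u ∈ P, ∑ v ∈ P, ((if u = v then ((n : ℝ) / U + 1) * S u else 0) +
      (2 * U + 1) * (Real.sqrt (S u) * Real.sqrt (S v))) = ((n : ℝ) / U + 1) * S u +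
        (2 * U + 1) * (Real.sqrt (S u) * ∑ v ∈ P, Real.sqrt (S v)) := by
      intro u hu
      rw [Finset.sum_add_distrib, Finset.sum_ite_eq, if_pos hu, ← Finset.mul_sum,
        ← Finset.mul_sum]
    rw [Finset.sum_congr rfl h4, Finset.sum_add_distrib, ← Finset.mul_sum, ← Finset.mul_sum,
      ← Finset.sum_mul, pow_two]
  have h5 : (∑ u ∈ P, Real.sqrt (S u)) ^ 2 ≤ P.card * ∑ u ∈ P, S u := by
    have h6 := sq_sum_le_card_mul_sum_sq (s := P) (f := fun u => Real.sqrt (S u))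
    refine h6.trans (le_of_eq ?_)
    congr 1
    apply Finset.sum_congr rfl
    intro u _
    exact Real.sq_sqrt (hS0 u)
  rw [h1]
  calc ∑ u ∈ P, ∑ v ∈ P, ∑ j ∈ range n, G u j * G v j
      ≤ ∑ u ∈ P, ∑ v ∈ P, ((if u = v then ((n : ℝ) / U + 1) * S u else 0) +
        (2 * U + 1) * (Real.sqrt (S u) * Real.sqrt (S v))) :=
        Finset.sum_le_sum fun u hu => Finset.sum_le_sum fun v hv => h2 u hu v hv
    _ = ((n : ℝ) / U + 1) * ∑ u ∈ P, S u + (2 * U + 1) * (∑ u ∈ P, Real.sqrt (S u)) ^ 2 := h3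
    _ ≤ ((n : ℝ) / U + 1) * ∑ u ∈ P, S u + (2 * U + 1) * (P.card * ∑ u ∈ P, S u) := by
        apply add_le_add le_rfl
        exact mul_le_mul_of_nonneg_left h5 (by positivity)
    _ = ((n : ℝ) / U + 1 + (2 * U + 1) * P.card) * ∑ u ∈ P, S u := by ring

/-- the members of the class `ρ` in an interval form a progression -/
lemma prog (f ρ x N : ℕ) (hf : 1 ≤ f) : ∃ k₀ n : ℕ, (n : ℝ) ≤ (N : ℝ) / f + 1 ∧
    ∀ H : ℕ → ℝ, ∑ k ∈ (Ico x (x + N)).filter (fun k => k ≡ ρ [MOD f]), H k =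
      ∑ j ∈ range n, H (k₀ + f * j) := by
  set k₀ : ℕ := x + (ρ + (f - 1) * x) % f with hk
  have hf0 : 0 < f := hf
  have hlt : (ρ + (f - 1) * x) % f < f := Nat.mod_lt _ hf0
  have hk1 : k₀ < x + f := by omega
  have hk2 : x ≤ k₀ := by omega
  have hk3 : k₀ ≡ ρ [MOD f] := by
    have h1 : x + (ρ + (f - 1) * x) = ρ + f * x := by
      obtain ⟨g, rfl⟩ : ∃ g, f = g + 1 := ⟨f - 1, by omega⟩
      rw [Nat.add_sub_cancel]
      ring
    have h2 : (ρ + (f - 1) * x) % f ≡ ρ + (f - 1) * x [MOD f] := Nat.mod_modEq _ _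
    have h3 : k₀ ≡ x + (ρ + (f - 1) * x) [MOD f] := Nat.ModEq.add_left x h2
    rw [h1] at h3
    refine h3.trans ?_
    show (ρ + f * x) % f = ρ % f
    exact Nat.add_mul_mod_self_left _ _ _
  set n : ℕ := (x + N - k₀ + f - 1) / f with hn
  have hjn : ∀ j, j < n ↔ k₀ + f * j < x + N := by
    intro j
    have h1 : j < n ↔ (j + 1) * f ≤ x + N - k₀ + f - 1 := by
      rw [← Nat.succ_le_iff, hn, Nat.le_div_iff_mul_le hf0]
    rw [h1]
    have h2 : (j + 1) * f = f * j + f := by ring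
    rw [h2]
    omega
  refine ⟨k₀, n, ?_, ?_⟩
  · have hf1 : (0 : ℝ) < f := by exact_mod_cast hf0
    have h1 : (n : ℝ) ≤ ((x + N - k₀ + f - 1 : ℕ) : ℝ) / f := Nat.cast_div_le
    have h2 : ((x + N - k₀ + f - 1 : ℕ) : ℝ) ≤ (N : ℝ) + f := by
      have h3 : x + N - k₀ + f - 1 ≤ N + f := by omega
      exact_mod_cast h3
    have h4 : ((x + N - k₀ + f - 1 : ℕ) : ℝ) / f ≤ ((N : ℝ) + f) / f :=
      div_le_div_of_nonneg_right h2 hf1.le
    have h5 : ((N : ℝ) + f) / f = (N : ℝ) / f + 1 := by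
      rw [add_div, div_self hf1.ne']
    linarith
  · intro H
    symm
    apply Finset.sum_nbij (fun j => k₀ + f * j)
    · intro j hj
      rw [Finset.mem_range] at hj
      rw [Finset.mem_filter, Finset.mem_Ico]
      refine ⟨⟨by omega, (hjn j).mp hj⟩, ?_⟩
      refine Nat.ModEq.trans ?_ hk3
      show (k₀ + f * j) % f = k₀ % f
      exact Nat.add_mul_mod_self_left _ _ _
    · intro i _ j _ hij
      have h1 : k₀ + f * i = k₀ + f * j := hij
      exact Nat.eq_of_mul_eq_mul_left hf0 (by omega)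
    · intro k hk'
      rw [Finset.mem_coe, Finset.mem_filter, Finset.mem_Ico] at hk'
      obtain ⟨⟨h1, h2⟩, h3⟩ := hk'
      have h4 : k ≡ k₀ [MOD f] := h3.trans hk3.symm
      have h5 : k₀ ≤ k := by
        by_contra hlt'
        push Not at hlt'
        have h6 : f ∣ k₀ - k := (Nat.modEq_iff_dvd' hlt'.le).mp h4
        have h7 : f ≤ k₀ - k := Nat.le_of_dvd (by omega) h6
        omega
      have h6 : f ∣ k - k₀ := (Nat.modEq_iff_dvd' h5).mp h4.symm
      obtain ⟨j, hj⟩ := h6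
      have h7 : k = k₀ + f * j := by omega
      refine ⟨j, ?_, h7.symm⟩
      rw [Finset.mem_coe, Finset.mem_range, hjn j, ← h7]
      exact h2
    · intro j _
      rfl

end DLS

theorem t_DLS : S_DLS := by
  intro P U f ρ x N F hU hf hP hF
  obtain ⟨k₀, n, hn, hsum⟩ := DLS.prog f ρ x N hf
  rw [hsum (fun k => (∑ u ∈ P, F u k) ^ 2)]
  have hU0 : (0 : ℝ) < U := by exact_mod_cast hU
  have h1 := DLS.main P U n (fun u j => F u (k₀ + f * j)) hU
    (fun u hu => ⟨(hP u hu).1, (hP u hu).2.1, (hP u hu).2.2.1⟩)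
    (fun u hu => DLS.pure_prog u (F u) (hF u hu) f k₀ (hP u hu).2.2.2)
  have h2 : ∑ u ∈ P, ∑ r ∈ range u, (F u (k₀ + f * r)) ^ 2 =
      ∑ u ∈ P, ∑ r ∈ range u, F u r ^ 2 := by
    apply Finset.sum_congr rfl
    intro u hu
    obtain ⟨-, a2, -, a4⟩ := hP u hu
    exact DLS.sq_prog u (F u) (hF u hu).1 f k₀ (by omega) a4
  have h3 : ∑ j ∈ range n, (∑ u ∈ P, F u (k₀ + f * j)) ^ 2 ≤
      ((n : ℝ) / U + 1 + (2 * U + 1) * P.card) * ∑ u ∈ P, ∑ r ∈ range u, F u r ^ 2 := by
    rw [← h2]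
    exact h1
  refine h3.trans ?_
  apply mul_le_mul_of_nonneg_right
  · unfold dlt
    have h4 : (n : ℝ) / U ≤ ((N : ℝ) / f + 1) / U := div_le_div_of_nonneg_right hn hU0.le
    linarith
  · exact Finset.sum_nonneg fun u _ => Finset.sum_nonneg fun r _ => sq_nonneg _

end

end IPR
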