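import Pool.Agent.IPR.StmtsB

set_option autoImplicit false

/-!
Block B, module T2: bilinear forms on a rectangle, on average over squarefree moduli, with the
product in a fixed class modulo `f`.
-/

namespace IPR

open Finset

noncomputable section

namespace T2

open Pool.Agent.Lib_helper72.AP (wt)

lemma exists_mul {n m : ℕ} (hn : 1 ≤ n) (h : m.Coprime n) (a : ZMod n) :
    ∃ t < n, ((m * t : ℕ) : ZMod n) = a := by
  have : NeZero n := ⟨by omega⟩
  refine ⟨(a * (m : ZMod n)⁻¹).val, ZMod.val_lt _, ?_⟩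
  rw [Nat.cast_mul, ZMod.natCast_zmod_val, mul_comm a, ← mul_assoc,
    ZMod.coe_mul_inv_eq_one m h, one_mul]

lemma wt_zero {l : ℕ} {r : ℤ} {n : ℕ} (hl : l ∣ n) (hr : ((r : ℤ) : ZMod l) ≠ 0) :
    wt l r n = 0 := by
  unfold wt
  rw [if_neg, if_pos hl]
  · simp
  · intro h
    apply hr
    rw [← h]
    exact (ZMod.natCast_eq_zero_iff n l).2 hl

lemma wt_mul {l m k t : ℕ} {r : ℤ} (hl : l.Prime) (hm : ¬ l ∣ m)
    (ht : ((m * t : ℕ) : ZMod l) = (r : ZMod l)) : wt l r (m * k) = wt l (t : ℤ) k := by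
  have : Fact l.Prime := ⟨hl⟩
  have hm0 : (m : ZMod l) ≠ 0 := fun h => hm ((ZMod.natCast_eq_zero_iff m l).1 h)
  have e1 : (((m * k : ℕ) : ZMod l) = (r : ZMod l)) ↔ ((k : ZMod l) = ((t : ℤ) : ZMod l)) := by
    rw [← ht, Nat.cast_mul, Nat.cast_mul, Int.cast_natCast]
    constructor
    · intro h
      exact mul_left_cancel₀ hm0 h
    · intro h
      rw [h]
  have e2 : l ∣ m * k ↔ l ∣ k := by
    rw [hl.dvd_mul]
    constructor
    · rintro (h | h)
      · exact absurd h hm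
      · exact h
    · intro h
      exact Or.inr h
  unfold wt
  simp only [e1, e2]

lemma ps_zero {u m k : ℕ} {r : ℤ} (hr : UnitM r u) {l : ℕ} (hl : l ∈ u.primeFactors)
    (hm : l ∣ m) : ps u r (m * k) = 0 :=
  Finset.prod_eq_zero hl (wt_zero (hm.mul_right k) (hr l hl))

lemma ps_mul {u m k t : ℕ} {r : ℤ} (hm : m.Coprime u)
    (ht : ((m * t : ℕ) : ZMod u) = (r : ZMod u)) : ps u r (m * k) = ps u (t : ℤ) k := by
  unfold ps
  refine Finset.prod_congr rfl fun l hl => ?_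
  have hlp : l.Prime := Nat.prime_of_mem_primeFactors hl
  have hlu : l ∣ u := Nat.dvd_of_mem_primeFactors hl
  have h2 := congrArg (ZMod.castHom hlu (ZMod l)) ht
  rw [map_natCast, map_intCast] at h2
  refine wt_mul hlp ?_ h2
  intro h
  exact Nat.Prime.not_coprime_iff_dvd.2 ⟨l, hlp, h, hlu⟩ hm

lemma coprime_of_mul {m t c f : ℕ} (h : m * t ≡ c [MOD f]) (hc : c.Coprime f) :
    t.Coprime f := by
  by_contra hn
  obtain ⟨l, hl, h1, h2⟩ := Nat.Prime.not_coprime_iff_dvd.1 hn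
  apply Nat.Prime.not_coprime_iff_dvd.2 ⟨l, hl, ?_, h2⟩ hc
  exact ((h.of_dvd h2).dvd_iff dvd_rfl).1 (h1.mul_left m)

lemma coprime_of_mul' {m t u : ℕ} {r : ℤ} (h : ((m * t : ℕ) : ZMod u) = (r : ZMod u))
    (hu : u ≠ 0) (hr : UnitM r u) : t.Coprime u := by
  by_contra hn
  obtain ⟨l, hl, h1, h2⟩ := Nat.Prime.not_coprime_iff_dvd.1 hn
  have h3 := congrArg (ZMod.castHom h2 (ZMod l)) h
  rw [map_natCast, map_intCast] at h3
  apply hr l (Nat.mem_primeFactors.2 ⟨hl, h2, hu⟩)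
  rw [← h3]
  exact (ZMod.natCast_eq_zero_iff _ _).2 (h1.mul_left m)

/-- The number of `m` with given classes. -/
lemma card_le {f u κ t c : ℕ} {r : ℤ} (hf : 1 ≤ f) (hu : 1 ≤ u) (hfu : u.Coprime f)
    (hκ : κ.Coprime f) (ht : t.Coprime u) (v D : ℕ) :
    (((Ico v (v + D)).filter (fun m => m * κ ≡ c [MOD f] ∧
      ((m * t : ℕ) : ZMod u) = (r : ZMod u))).card : ℝ) ≤ (D : ℝ) / ((f * u : ℕ) : ℝ) + 1 := by
  classical
  have : NeZero (f * u) := ⟨by
    have := Nat.mul_pos (show 0 < f by omega) (show 0 < u by omega)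
    omega⟩
  rcases Finset.eq_empty_or_nonempty ((Ico v (v + D)).filter (fun m => m * κ ≡ c [MOD f] ∧
      ((m * t : ℕ) : ZMod u) = (r : ZMod u))) with h0 | ⟨m₀, hm₀⟩
  · rw [h0, card_empty, Nat.cast_zero]
    positivity
  · rw [mem_filter] at hm₀
    have hsub : (Ico v (v + D)).filter (fun m => m * κ ≡ c [MOD f] ∧
        ((m * t : ℕ) : ZMod u) = (r : ZMod u)) ⊆
        (Ico v (v + D)).filter (fun m : ℕ => (m : ZMod (f * u)) = (m₀ : ZMod (f * u))) := by
      intro m hm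
      rw [mem_filter] at hm ⊢
      refine ⟨hm.1, ?_⟩
      have h1 : m ≡ m₀ [MOD f] :=
        Nat.ModEq.cancel_right_of_coprime hκ.symm (hm.2.1.trans hm₀.2.1.symm)
      have h2 : m * t ≡ m₀ * t [MOD u] :=
        (ZMod.natCast_eq_natCast_iff _ _ _).1 (hm.2.2.trans hm₀.2.2.symm)
      have h3 : m ≡ m₀ [MOD u] := Nat.ModEq.cancel_right_of_coprime ht.symm h2
      exact (ZMod.natCast_eq_natCast_iff _ _ _).2
        ((Nat.modEq_and_modEq_iff_modEq_mul hfu.symm).1 ⟨h1, h3⟩)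
    calc (((Ico v (v + D)).filter (fun m => m * κ ≡ c [MOD f] ∧
        ((m * t : ℕ) : ZMod u) = (r : ZMod u))).card : ℝ)
        ≤ (((Ico v (v + D)).filter
          (fun m : ℕ => (m : ZMod (f * u)) = (m₀ : ZMod (f * u)))).card : ℝ) := by
          exact_mod_cast Finset.card_le_card hsub
      _ ≤ (D : ℝ) / ((f * u : ℕ) : ℝ) + 1 :=
        Pool.Agent.Lib_helper72.AP.card_class_le (a := f * u) (m₀ : ZMod (f * u)) v D

/-- The inner sum over the class `κ` modulo `f`. -/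
def VV (f : ℕ) (β : ℕ → ℝ) (y N u κ t : ℕ) : ℝ :=
  ∑ k ∈ (Ico y (y + N)).filter (fun k => k ≡ κ [MOD f]), β k * ps u t k

/-- The inner sum for `m`. -/
def SS (f : ℕ) (β : ℕ → ℝ) (y N u c : ℕ) (r : ℤ) (m : ℕ) : ℝ :=
  ∑ k ∈ (Ico y (y + N)).filter (fun k => m * k ≡ c [MOD f]), β k * ps u r (m * k)

lemma SS_eq {f u c m κ t : ℕ} {r : ℤ} (β : ℕ → ℝ) (y N : ℕ) (hmf : m.Coprime f)
    (hmu : m.Coprime u) (hκ : m * κ ≡ c [MOD f]) (ht : ((m * t : ℕ) : ZMod u) = (r : ZMod u)) :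
    SS f β y N u c r m = VV f β y N u κ t := by
  unfold SS VV
  have h1 : (Ico y (y + N)).filter (fun k => m * k ≡ c [MOD f]) =
      (Ico y (y + N)).filter (fun k => k ≡ κ [MOD f]) := by
    apply Finset.filter_congr
    intro k _
    constructor
    · intro h
      exact Nat.ModEq.cancel_left_of_coprime hmf.symm (h.trans hκ.symm)
    · intro h
      exact (h.mul_left m).trans hκ
  rw [h1]
  refine Finset.sum_congr rfl fun k _ => ?_
  rw [ps_mul hmu ht]

lemma SS_zero {f u c m : ℕ} {r : ℤ} (β : ℕ → ℝ) (y N : ℕ) (hu : u ≠ 0) (hc : c.Coprime f)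
    (hr : UnitM r u) (h : ¬ (m.Coprime f ∧ m.Coprime u)) : SS f β y N u c r m = 0 := by
  unfold SS
  by_cases hmf : m.Coprime f
  · have hmu : ¬ m.Coprime u := fun h' => h ⟨hmf, h'⟩
    obtain ⟨l, hl, h1, h2⟩ := Nat.Prime.not_coprime_iff_dvd.1 hmu
    refine Finset.sum_eq_zero fun k _ => ?_
    rw [ps_zero hr (Nat.mem_primeFactors.2 ⟨hl, h2, hu⟩) h1, mul_zero]
  · have h1 : (Ico y (y + N)).filter (fun k => m * k ≡ c [MOD f]) = ∅ := by
      apply Finset.filter_eq_empty_iff.2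
      intro k _ hk
      apply hmf
      rw [mul_comm] at hk
      exact coprime_of_mul hk hc
    rw [h1, Finset.sum_empty]

/-- The third step. -/
lemma step3 {f u c U : ℕ} {r : ℤ} (β : ℕ → ℝ) (y N v D : ℕ) (hf : 1 ≤ f) (hU : 1 ≤ U)
    (hUu : U ≤ u) (hfu : u.Coprime f) (hc : c.Coprime f) (hr : UnitM r u) :
    ∑ m ∈ Ico v (v + D), SS f β y N u c r m ^ 2 ≤ ((D : ℝ) / (f * U) + 1) *
      ∑ κ ∈ (range f).filter (fun κ => κ.Coprime f),
        ∑ t ∈ (range u).filter (fun t => t.Coprime u), VV f β y N u κ t ^ 2 := by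
  classical
  have hu : u ≠ 0 := by omega
  have h1 : ∀ m ∈ Ico v (v + D), SS f β y N u c r m ^ 2 ≤
      ∑ κ ∈ (range f).filter (fun κ => κ.Coprime f),
        ∑ t ∈ (range u).filter (fun t => t.Coprime u),
          if m * κ ≡ c [MOD f] ∧ ((m * t : ℕ) : ZMod u) = (r : ZMod u)
            then VV f β y N u κ t ^ 2 else 0 := by
    intro m _
    have hnn : ∀ κ t : ℕ, (0 : ℝ) ≤
        if m * κ ≡ c [MOD f] ∧ ((m * t : ℕ) : ZMod u) = (r : ZMod u)
            then VV f β y N u κ t ^ 2 else 0 := by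
      intro κ t
      split_ifs
      · exact sq_nonneg _
      · exact le_rfl
    by_cases hm : m.Coprime f ∧ m.Coprime u
    · obtain ⟨κ, hκ, hκ2⟩ := exists_mul hf hm.1 (c : ZMod f)
      obtain ⟨t, ht, ht2⟩ := exists_mul (by omega : 1 ≤ u) hm.2 (r : ZMod u)
      have hκ3 : m * κ ≡ c [MOD f] := (ZMod.natCast_eq_natCast_iff _ _ _).1 hκ2
      have hκm : κ ∈ (range f).filter (fun κ => κ.Coprime f) :=
        mem_filter.2 ⟨mem_range.2 hκ, coprime_of_mul hκ3 hc⟩
      have htm : t ∈ (range u).filter (fun t => t.Coprime u) :=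
        mem_filter.2 ⟨mem_range.2 ht, coprime_of_mul' ht2 hu hr⟩
      rw [SS_eq β y N hm.1 hm.2 hκ3 ht2]
      refine le_trans ?_ (Finset.single_le_sum (f := fun κ =>
        ∑ t ∈ (range u).filter (fun t => t.Coprime u),
          if m * κ ≡ c [MOD f] ∧ ((m * t : ℕ) : ZMod u) = (r : ZMod u)
            then VV f β y N u κ t ^ 2 else 0)
        (fun κ _ => Finset.sum_nonneg fun t _ => hnn κ t) hκm)
      refine le_trans ?_ (Finset.single_le_sum (f := fun t =>
          if m * κ ≡ c [MOD f] ∧ ((m * t : ℕ) : ZMod u) = (r : ZMod u)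
            then VV f β y N u κ t ^ 2 else 0) (fun t _ => hnn κ t) htm)
      rw [if_pos ⟨hκ3, ht2⟩]
    · rw [SS_zero β y N hu hc hr hm]
      rw [zero_pow two_ne_zero]
      exact Finset.sum_nonneg fun κ _ => Finset.sum_nonneg fun t _ => hnn κ t
  refine (Finset.sum_le_sum h1).trans ?_
  rw [Finset.sum_comm, Finset.mul_sum]
  apply Finset.sum_le_sum
  intro κ hκ
  rw [Finset.sum_comm, Finset.mul_sum]
  apply Finset.sum_le_sum
  intro t ht
  rw [← Finset.sum_filter, Finset.sum_const, nsmul_eq_mul]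
  apply mul_le_mul_of_nonneg_right _ (sq_nonneg _)
  refine (card_le hf (by omega) hfu (mem_filter.1 hκ).2 (mem_filter.1 ht).2 v D).trans ?_
  have h2 : (D : ℝ) / ((f * u : ℕ) : ℝ) ≤ (D : ℝ) / (f * U) := by
    have h3 : (0 : ℝ) < f := by exact_mod_cast hf
    have h4 : (0 : ℝ) < U := by exact_mod_cast hU
    have h5 : (U : ℝ) ≤ u := by exact_mod_cast hUu
    apply div_le_div_of_nonneg_left (Nat.cast_nonneg _) (by positivity)
    push_cast
    exact mul_le_mul_of_nonneg_left h5 h3.le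
  linarith

/-- Sums over the classes modulo `f`. -/
lemma sum_class {f : ℕ} (hf : 1 ≤ f) (s : Finset ℕ) (g : ℕ → ℝ) (hg : ∀ k, 0 ≤ g k) :
    ∑ κ ∈ (range f).filter (fun κ => κ.Coprime f), ∑ k ∈ s.filter (fun k => k ≡ κ [MOD f]), g k ≤
      ∑ k ∈ s, g k := by
  classical
  have h1 : ∀ κ ∈ (range f).filter (fun κ => κ.Coprime f),
      ∑ k ∈ s.filter (fun k => k ≡ κ [MOD f]), g k = ∑ k ∈ s.filter (fun k => k % f = κ), g k := by
    intro κ hκ
    have h2 : κ < f := mem_range.1 (mem_filter.1 hκ).1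
    congr 1
    apply Finset.filter_congr
    intro k _
    unfold Nat.ModEq
    rw [Nat.mod_eq_of_lt h2]
  rw [Finset.sum_congr rfl h1]
  have h3 : ∑ κ ∈ range f, ∑ k ∈ s.filter (fun k => k % f = κ), g k = ∑ k ∈ s, g k :=
    Finset.sum_fiberwise_of_maps_to (fun k _ => mem_range.2 (Nat.mod_lt _ (by omega))) _
  rw [← h3]
  exact Finset.sum_le_sum_of_subset_of_nonneg (Finset.filter_subset _ _)
    fun κ _ _ => Finset.sum_nonneg fun k _ => hg k

end T2

/-- T2. -/
theorem t_T2 : M_T2 := by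
  intro hLSV P U f c r α β v D y N hU hf hP
  classical
  set A : ℝ := ∑ m ∈ Ico v (v + D), α m ^ 2 with hA
  set B : ℝ := ∑ k ∈ Ico y (y + N), β k ^ 2 with hB
  set q : ℝ := (D : ℝ) / (f * U) + 1 with hq
  have hA0 : 0 ≤ A := Finset.sum_nonneg fun m _ => sq_nonneg _
  have hq0 : 0 ≤ q := by positivity
  have hdlt : 0 ≤ dlt N f U P.card := by
    unfold dlt
    positivity
  -- the inner sums
  have hbil : ∀ u ∈ P, |∑ m ∈ Ico v (v + D),
      ∑ k ∈ (Ico y (y + N)).filter (fun k => m * k ≡ c u [MOD f]),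
      α m * β k * ps u (r u) (m * k)| ^ 2 ≤ A * (q *
      ∑ κ ∈ (range f).filter (fun κ => κ.Coprime f),
        ∑ t ∈ (range u).filter (fun t => t.Coprime u), T2.VV f β y N u κ t ^ 2) := by
    intro u hu
    obtain ⟨h1, h2, h3, h4, h5, h6⟩ := hP u hu
    have e1 : ∑ m ∈ Ico v (v + D),
        ∑ k ∈ (Ico y (y + N)).filter (fun k => m * k ≡ c u [MOD f]),
        α m * β k * ps u (r u) (m * k) =
        ∑ m ∈ Ico v (v + D), α m * T2.SS f β y N u (c u) (r u) m := by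
      refine Finset.sum_congr rfl fun m _ => ?_
      unfold T2.SS
      rw [Finset.mul_sum]
      refine Finset.sum_congr rfl fun k _ => ?_
      ring
    rw [e1, sq_abs]
    refine (Finset.sum_mul_sq_le_sq_mul_sq _ _ _).trans ?_
    exact mul_le_mul_of_nonneg_left (T2.step3 β y N v D hf hU h2 h4 h5 h6) hA0
  -- the large sieve
  have hls : ∑ u ∈ P, ∑ κ ∈ (range f).filter (fun κ => κ.Coprime f),
      ∑ t ∈ (range u).filter (fun t => t.Coprime u), T2.VV f β y N u κ t ^ 2 ≤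
      dlt N f U P.card * B := by
    rw [Finset.sum_comm]
    have h1 : ∀ κ ∈ (range f).filter (fun κ => κ.Coprime f),
        ∑ u ∈ P, ∑ t ∈ (range u).filter (fun t => t.Coprime u), T2.VV f β y N u κ t ^ 2 ≤
        dlt N f U P.card *
          ∑ k ∈ (Ico y (y + N)).filter (fun k => k ≡ κ [MOD f]), β k ^ 2 := by
      intro κ _
      exact hLSV P U f κ y N β hU hf (fun u hu =>
        ⟨(hP u hu).1, (hP u hu).2.1, (hP u hu).2.2.1, (hP u hu).2.2.2.1⟩)
    refine (Finset.sum_le_sum h1).trans ?_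
    rw [← Finset.mul_sum]
    exact mul_le_mul_of_nonneg_left
      (T2.sum_class hf (Ico y (y + N)) (fun k => β k ^ 2) fun k => sq_nonneg _) hdlt
  have h2 := sq_sum_le_card_mul_sum_sq (s := P) (f := fun u => |∑ m ∈ Ico v (v + D),
      ∑ k ∈ (Ico y (y + N)).filter (fun k => m * k ≡ c u [MOD f]),
      α m * β k * ps u (r u) (m * k)|)
  refine h2.trans ?_
  rw [mul_assoc, mul_assoc]
  apply mul_le_mul_of_nonneg_left _ (Nat.cast_nonneg _)
  refine (Finset.sum_le_sum hbil).trans ?_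
  rw [← Finset.mul_sum, ← Finset.mul_sum]
  exact mul_le_mul_of_nonneg_left (mul_le_mul_of_nonneg_left hls hq0) hA0

end

end IPR
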