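import Pool.Agent.IPR.StmtsB

set_option autoImplicit false

/-!
The Type II part of Vaughan's identity, on average over squarefree moduli, relative to a fixed
class. Follows `Pool/Agent/Lib_helper72/AP/TypeIITotal.lean`.
-/

namespace IPR

open Finset ArithmeticFunction
open scoped ArithmeticFunction.zeta ArithmeticFunction.Moebius
open Pool.Agent.Lib_helper72.AP

noncomputable section

namespace TT2

lemma abs_wt_le {l : ℕ} (hl : l.Prime) (r : ℤ) (n : ℕ) : |wt l r n| ≤ 1 := by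
  have h2 : (2 : ℝ) ≤ l := by exact_mod_cast hl.two_le
  have hpos : (0 : ℝ) < (l : ℝ) - 1 := by linarith
  have h3 : 0 ≤ (if l ∣ n then (0 : ℝ) else 1) / ((l : ℝ) - 1) := by
    apply div_nonneg _ hpos.le
    split_ifs <;> norm_num
  have h4 : (if l ∣ n then (0 : ℝ) else 1) / ((l : ℝ) - 1) ≤ 1 := by
    rw [div_le_one hpos]
    split_ifs <;> linarith
  rw [wt]
  by_cases h : (n : ZMod l) = (r : ZMod l)
  · rw [if_pos h, abs_le]
    constructor <;> linarith
  · rw [if_neg h, abs_le]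
    constructor <;> linarith

lemma abs_ps_le (u : ℕ) (r : ℤ) (n : ℕ) : |ps u r n| ≤ 1 := by
  rw [ps, Finset.abs_prod]
  exact Finset.prod_le_one (fun _ _ => abs_nonneg _)
    fun l hl => abs_wt_le (Nat.prime_of_mem_primeFactors hl) r n

/-- The weight of a class modulo `f`. -/
def cw (f c u : ℕ) (r : ℤ) (n : ℕ) : ℝ := if n ≡ c [MOD f] then ps u r n else 0

lemma abs_cw_le (f c u : ℕ) (r : ℤ) (n : ℕ) : |cw f c u r n| ≤ 1 := by
  rw [cw]
  split_ifs
  · exact abs_ps_le u r n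
  · simp

lemma dsc_eq (f c u : ℕ) (r : ℤ) (X Y : ℕ) (F : ArithmeticFunction ℝ) :
    dsc f c u r X Y F = ∑ n ∈ Ioc X Y, F n * cw f c u r n := by
  rw [dsc, Finset.sum_filter]
  apply Finset.sum_congr rfl
  intro n _
  rw [cw]
  split_ifs <;> simp

lemma split (w : ℕ → ℝ) {X Y U V B N : ℕ} (hU : 1 ≤ U)
    (hN : Y / U + 1 ≤ blk V B N) :
    ∑ n ∈ Ioc X Y, (large muR V * GG U) n * w n =
      ∑ j ∈ range N, ∑ m ∈ Ico (blk V B j) (blk V B j + blk V B j / B),
        al (Y / U) m * ∑ k ∈ Ioc (X / m) (Y / m), GG U k * w (m * k) := by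
  classical
  set W := Y / U with hW
  have hWY : W ≤ Y := Nat.div_le_self _ _
  set In : ℕ → ℝ := fun m => ∑ k ∈ Ioc (X / m) (Y / m), GG U k * w (m * k) with hIn
  rw [← sum_blocks V B N (fun m => al W m * In m), sum_conv_weight]
  have h1 : ∑ m ∈ Ioc 0 Y, large muR V m * In m = ∑ m ∈ Ioc V W, muR m * In m := by
    have hsub : Ioc V W ⊆ Ioc 0 Y := by
      intro m hm
      rw [mem_Ioc] at hm ⊢
      omega
    rw [← Finset.sum_subset hsub]
    · apply Finset.sum_congr rfl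
      intro m hm
      rw [mem_Ioc] at hm
      rw [large_apply, if_neg (by omega)]
    · intro m hm hm2
      rw [mem_Ioc] at hm hm2
      by_cases hmV : m ≤ V
      · rw [large_apply, if_pos hmV, zero_mul]
      · have hmW : W < m := by omega
        have h2 : In m = 0 := by
          apply Finset.sum_eq_zero
          intro k hk
          rw [mem_Ioc] at hk
          have h3 := div_le_of_lt hU hmW
          have h4 : GG U k = 0 := large_mul_zeta_eq_zero U k (hk.2.trans h3)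
          rw [h4, zero_mul]
        rw [h2, mul_zero]
  have h2 : ∑ m ∈ Ico (V + 1) (blk V B N), al W m * In m = ∑ m ∈ Ioc V W, muR m * In m := by
    have hsub : Ioc V W ⊆ Ico (V + 1) (blk V B N) := by
      intro m hm
      rw [mem_Ioc] at hm
      rw [mem_Ico]
      omega
    rw [← Finset.sum_subset hsub]
    · apply Finset.sum_congr rfl
      intro m hm
      rw [mem_Ioc] at hm
      rw [al, if_pos hm.2]
    · intro m hm hm2
      rw [mem_Ico] at hm
      rw [mem_Ioc] at hm2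
      rw [al, if_neg (by omega), zero_mul]
  rw [h1, h2]

/-- The boundary terms of one short range. -/
lemma boundary (w : ℕ → ℝ) (hw : ∀ n, |w n| ≤ 1) {Y U v B m : ℕ} (hB : 1 ≤ B)
    (hv : 1 ≤ v) (hvm : v ≤ m) (hm : m ≤ v + v / B) {T : ℕ} (hT2 : T ≤ Y) (hY : 1 ≤ Y) :
    ∑ k ∈ Ioc (T / m) (T / v), |GG U k * w (m * k)| ≤
      Real.log Y * ((T : ℝ) / B * (1 / m) + 1) := by
  classical
  have hlogY : 0 ≤ Real.log Y := Real.log_nonneg (by exact_mod_cast hY)
  have hterm : ∀ k ∈ Ioc (T / m) (T / v), |GG U k * w (m * k)| ≤ Real.log Y := by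
    intro k hk
    rw [mem_Ioc] at hk
    have hkY : k ≤ Y := hk.2.trans ((Nat.div_le_self _ _).trans hT2)
    have h6 := GG_abs_le (U := U) hkY hY
    rw [abs_mul]
    calc |GG U k| * |w (m * k)| ≤ Real.log Y * 1 :=
          mul_le_mul h6 (hw _) (abs_nonneg _) hlogY
      _ = Real.log Y := mul_one _
  refine (Finset.sum_le_sum hterm).trans ?_
  rw [Finset.sum_const, nsmul_eq_mul, mul_comm]
  exact mul_le_mul_of_nonneg_left (card_div_sub_le hB hv hvm hm) hlogY

/-- The bilinear form of a block. -/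
def bS (f c u : ℕ) (r : ℤ) (W X Y V v B : ℕ) : ℝ :=
  ∑ m ∈ Ico v (v + v / B),
    ∑ k ∈ (Ico (X / v + 1) (X / v + 1 + (Y / v - X / v))).filter (fun k => m * k ≡ c [MOD f]),
      al W m * GG V k * ps u r (m * k)

lemma bS_eq (f c u : ℕ) (r : ℤ) {W X Y V v B : ℕ} (hXY : X ≤ Y) :
    bS f c u r W X Y V v B = ∑ m ∈ Ico v (v + v / B),
      al W m * ∑ k ∈ Ioc (X / v) (Y / v), GG V k * cw f c u r (m * k) := by
  have hle : X / v ≤ Y / v := Nat.div_le_div_right hXY
  have e2 : Ico (X / v + 1) (X / v + 1 + (Y / v - X / v)) = Ioc (X / v) (Y / v) := by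
    rw [Ioc_eq_Ico_succ]
    congr 1
    omega
  rw [bS, e2]
  apply Finset.sum_congr rfl
  intro m _
  rw [Finset.mul_sum, Finset.sum_filter]
  apply Finset.sum_congr rfl
  intro k _
  rw [cw]
  split_ifs <;> ring

/-- The estimate for one modulus. -/
lemma one_modulus (f c u : ℕ) (r : ℤ) {X Y V B I : ℕ} (hXY : X ≤ Y) (hY1 : 1 ≤ Y) (hB : 1 ≤ B)
    (hV1 : 1 ≤ V) (hBV : B ≤ V) (hI : Y / V + 1 ≤ 2 ^ I) :
    |dsc f c u r X Y (large muR V * GG V)| ≤
      ∑ j ∈ range (2 * B * I), |bS f c u r (Y / V) X Y V (blk V B j) B| +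
      Real.log Y * (((X : ℝ) + Y) / B * (1 + Real.log (Y / V : ℕ)) + 2 * (Y / V : ℕ)) := by
  classical
  have hYr : (1 : ℝ) ≤ Y := by exact_mod_cast hY1
  have hlogY : 0 ≤ Real.log Y := Real.log_nonneg hYr
  have hBr : (0 : ℝ) < B := by exact_mod_cast (show 0 < B by omega)
  set W := Y / V with hW
  set N := 2 * B * I with hN
  have hNblk : W + 1 ≤ blk V B N := hI.trans (blk_pow hB hBV I)
  set v := blk V B with hv
  have hv1 : ∀ j, V + 1 ≤ v j := blk_ge V B
  set w : ℕ → ℝ := cw f c u r with hw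
  have hw1 : ∀ n, |w n| ≤ 1 := abs_cw_le f c u r
  have hpt : |dsc f c u r X Y (large muR V * GG V)| ≤
      ∑ j ∈ range N, (|bS f c u r W X Y V (v j) B| +
        ∑ m ∈ Ico (v j) (v j + v j / B), |al W m| *
          (∑ k ∈ Ioc (X / m) (X / v j), |GG V k * w (m * k)| +
            ∑ k ∈ Ioc (Y / m) (Y / v j), |GG V k * w (m * k)|)) := by
    rw [dsc_eq, split (cw f c u r) hV1 hNblk]
    refine (Finset.abs_sum_le_sum_abs _ _).trans (Finset.sum_le_sum fun j _ => ?_)
    have hvj : 0 < v j := by have := hv1 j; omega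
    have hXYv : X / v j ≤ Y / v j := Nat.div_le_div_right hXY
    have e1 : ∑ m ∈ Ico (v j) (v j + v j / B),
        al W m * ∑ k ∈ Ioc (X / m) (Y / m), GG V k * w (m * k) =
        bS f c u r W X Y V (v j) B +
        ∑ m ∈ Ico (v j) (v j + v j / B), al W m *
          (∑ k ∈ Ioc (X / m) (Y / m), GG V k * w (m * k) -
            ∑ k ∈ Ioc (X / v j) (Y / v j), GG V k * w (m * k)) := by
      rw [bS_eq f c u r hXY, ← Finset.sum_add_distrib]
      apply Finset.sum_congr rfl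
      intro m _
      ring
    rw [e1]
    refine (abs_add_le _ _).trans (add_le_add le_rfl ?_)
    refine (Finset.abs_sum_le_sum_abs _ _).trans (Finset.sum_le_sum fun m hm => ?_)
    rw [abs_mul]
    apply mul_le_mul_of_nonneg_left _ (abs_nonneg _)
    rw [mem_Ico] at hm
    exact abs_sum_Ioc_sub_le (fun k => GG V k * w (m * k))
      (Nat.div_le_div_left hm.1 hvj) (Nat.div_le_div_left hm.1 hvj)
      (Nat.div_le_div_right hXY) hXYv
  refine hpt.trans ?_
  rw [Finset.sum_add_distrib]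
  apply add_le_add le_rfl
  have hbd : ∀ j ∈ range N, ∀ m ∈ Ico (v j) (v j + v j / B),
      |al W m| * (∑ k ∈ Ioc (X / m) (X / v j), |GG V k * w (m * k)| +
            ∑ k ∈ Ioc (Y / m) (Y / v j), |GG V k * w (m * k)|) ≤
        if m ≤ W then Real.log Y * (((X : ℝ) + Y) / B * (1 / m) + 2) else 0 := by
    intro j _ m hm
    rw [mem_Ico] at hm
    have hvj := hv1 j
    split_ifs with hmW
    · have e1 := boundary (U := V) w hw1 hB (by omega : 1 ≤ v j) hm.1 hm.2.le hXY hY1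
      have e2 := boundary (U := V) w hw1 hB (by omega : 1 ≤ v j) hm.1 hm.2.le le_rfl hY1
      have e3 : |al W m| ≤ 1 := abs_al_le W m
      have e5 : Real.log Y * (((X : ℝ) + Y) / B * (1 / m) + 2) =
          Real.log Y * ((X : ℝ) / B * (1 / m) + 1) +
          Real.log Y * ((Y : ℝ) / B * (1 / m) + 1) := by ring
      have e6 : 0 ≤ ∑ k ∈ Ioc (X / m) (X / v j), |GG V k * w (m * k)| +
          ∑ k ∈ Ioc (Y / m) (Y / v j), |GG V k * w (m * k)| := by positivity
      calc _ ≤ 1 * (∑ k ∈ Ioc (X / m) (X / v j), |GG V k * w (m * k)| +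
          ∑ k ∈ Ioc (Y / m) (Y / v j), |GG V k * w (m * k)|) :=
            mul_le_mul_of_nonneg_right e3 e6
        _ ≤ _ := by
          rw [one_mul, e5]
          exact add_le_add e1 e2
    · rw [al, if_neg hmW]
      simp
  calc ∑ j ∈ range N, ∑ m ∈ Ico (v j) (v j + v j / B), |al W m| *
          (∑ k ∈ Ioc (X / m) (X / v j), |GG V k * w (m * k)| +
            ∑ k ∈ Ioc (Y / m) (Y / v j), |GG V k * w (m * k)|)
      ≤ ∑ j ∈ range N, ∑ m ∈ Ico (v j) (v j + v j / B),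
          (if m ≤ W then Real.log Y * (((X : ℝ) + Y) / B * (1 / m) + 2) else 0) :=
        Finset.sum_le_sum fun j hj => Finset.sum_le_sum fun m hm => hbd j hj m hm
    _ = ∑ m ∈ Ico (V + 1) (blk V B N),
          (if m ≤ W then Real.log Y * (((X : ℝ) + Y) / B * (1 / m) + 2) else 0) := by
        rw [sum_blocks V B N]
    _ ≤ _ := by
        rw [← Finset.sum_filter]
        have hsub : (Ico (V + 1) (blk V B N)).filter (fun m => m ≤ W) ⊆ Icc 1 W := by
          intro m hm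
          rw [mem_filter, mem_Ico] at hm
          rw [mem_Icc]
          omega
        have e1 : ∑ m ∈ (Ico (V + 1) (blk V B N)).filter (fun m => m ≤ W),
            Real.log Y * (((X : ℝ) + Y) / B * (1 / m) + 2) ≤
            ∑ m ∈ Icc 1 W, Real.log Y * (((X : ℝ) + Y) / B * (1 / m) + 2) := by
          apply Finset.sum_le_sum_of_subset_of_nonneg hsub
          intro m _ _
          positivity
        refine e1.trans ?_
        rw [← Finset.mul_sum]
        apply mul_le_mul_of_nonneg_left _ hlogY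
        rw [Finset.sum_add_distrib, ← Finset.mul_sum, Finset.sum_const, Nat.card_Icc,
          nsmul_eq_mul, Nat.add_sub_cancel]
        have e2 := sum_one_div_le_log W
        have e3 : 0 ≤ ((X : ℝ) + Y) / B := by positivity
        have e4 := mul_le_mul_of_nonneg_left e2 e3
        linarith

/-- The main term of one block. -/
lemma block (hT2 : S_T2) (P : Finset ℕ) (U f : ℕ) (c : ℕ → ℕ) (r : ℕ → ℤ) (hU : 1 ≤ U)
    (hf : 1 ≤ f) (hP : Fam P U f c r) {X Y V v B : ℕ} (hXY : X ≤ Y) (hY1 : 1 ≤ Y) (hB : 1 ≤ B)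
    (hV1 : 1 ≤ V) (hv1 : 1 ≤ v) (hv : B * (f * U) ≤ v) (hvW : v ≤ Y / V)
    (hUV : 8 * (f * U ^ 3) ≤ V) :
    ∑ u ∈ P, |bS f (c u) u (r u) (Y / V) X Y V v B| ≤
      3 * Y * Real.log Y / (B * (f * Real.sqrt U)) := by
  classical
  have hYr : (1 : ℝ) ≤ Y := by exact_mod_cast hY1
  have hlogY : 0 ≤ Real.log Y := Real.log_nonneg hYr
  have hBr : (0 : ℝ) < B := by exact_mod_cast (show 0 < B by omega)
  have hvr : (0 : ℝ) < v := by exact_mod_cast hv1
  have hfr : (1 : ℝ) ≤ f := by exact_mod_cast hf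
  have hUr : (1 : ℝ) ≤ U := by exact_mod_cast hU
  have hfr0 : (0 : ℝ) < f := by linarith
  have hUr0 : (0 : ℝ) < U := by linarith
  set L := Real.log Y with hL
  set D : ℕ := v / B with hD
  set N : ℕ := Y / v - X / v with hN
  have hcard : P.card ≤ 2 * U := by
    have hsub : P ⊆ Icc U (2 * U) := by
      intro u hu
      obtain ⟨-, -, h1, h2, -⟩ := hP u hu
      exact mem_Icc.2 ⟨h1, h2⟩
    have h1 := Finset.card_le_card hsub
    rw [Nat.card_Icc] at h1
    omega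
  have hcardr : (P.card : ℝ) ≤ 2 * U := by exact_mod_cast hcard
  have hcard0 : (0 : ℝ) ≤ P.card := Nat.cast_nonneg _
  have hmain := hT2 P U f c r (al (Y / V)) (GG V) v D (X / v + 1) N hU hf fun u hu => by
    obtain ⟨h1, -, h3, h4, h5, h6, h7⟩ := hP u hu
    exact ⟨h1, h3, h4, h5, h6, h7⟩
  have hDr : (D : ℝ) ≤ v / B := Nat.cast_div_le
  have hNr : (N : ℝ) ≤ Y / v := by
    have e1 : (N : ℝ) ≤ ((Y / v : ℕ) : ℝ) := by exact_mod_cast Nat.sub_le _ _
    exact e1.trans Nat.cast_div_le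
  -- the factors
  have f1 : ∑ m ∈ Ico v (v + D), (al (Y / V) m) ^ 2 ≤ (v : ℝ) / B := by
    have e1 : ∑ m ∈ Ico v (v + D), (al (Y / V) m) ^ 2 ≤ ∑ m ∈ Ico v (v + D), (1 : ℝ) := by
      apply Finset.sum_le_sum
      intro m _
      have := abs_al_le (Y / V) m
      rw [← sq_abs]
      have h3 := abs_nonneg (al (Y / V) m)
      nlinarith
    have e2 : ∑ m ∈ Ico v (v + D), (1 : ℝ) = D := by
      rw [Finset.sum_const, Nat.card_Ico, nsmul_eq_mul, mul_one, Nat.add_sub_cancel_left]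
    rw [e2] at e1
    exact e1.trans hDr
  have f2 : (D : ℝ) / (f * U) + 1 ≤ 2 * v / (B * (f * U)) := by
    have e2 : (D : ℝ) / (f * U) ≤ v / B / (f * U) :=
      div_le_div_of_nonneg_right hDr (by positivity)
    have e3 : (v : ℝ) / B / (f * U) = v / (B * (f * U)) := by rw [div_div]
    have e4 : (1 : ℝ) ≤ v / (B * (f * U)) := by
      rw [le_div_iff₀ (by positivity), one_mul]
      exact_mod_cast hv
    have e5 : (2 : ℝ) * v / (B * (f * U)) = v / (B * (f * U)) + v / (B * (f * U)) := by ring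
    linarith
  have f3 : dlt N f U P.card ≤ 2 * Y / (v * (f * U)) := by
    rw [dlt]
    have e1 : ((N : ℝ) / f + 1) / U = N / (f * U) + 1 / U := by
      field_simp
    have e2 : (N : ℝ) / (f * U) ≤ Y / v / (f * U) :=
      div_le_div_of_nonneg_right hNr (by positivity)
    have e3 : (Y : ℝ) / v / (f * U) = Y / (v * (f * U)) := by rw [div_div]
    have e4 : (1 : ℝ) / U ≤ 1 := by
      rw [div_le_one hUr0]
      exact hUr
    have e5 : (2 * (U : ℝ) + 1) * P.card ≤ 6 * U ^ 2 := by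
      calc (2 * (U : ℝ) + 1) * P.card ≤ (2 * (U : ℝ) + 1) * (2 * U) := by gcongr
        _ ≤ 6 * U ^ 2 := by nlinarith
    have e6 : (8 : ℝ) * U ^ 2 ≤ Y / (v * (f * U)) := by
      rw [le_div_iff₀ (by positivity)]
      have e7 : (v : ℝ) * V ≤ Y := by
        have : v * V ≤ Y := (Nat.le_div_iff_mul_le (by omega)).1 hvW
        exact_mod_cast this
      have e8 : (8 : ℝ) * (f * U ^ 3) ≤ V := by exact_mod_cast hUV
      calc (8 : ℝ) * (U : ℝ) ^ 2 * ((v : ℝ) * ((f : ℝ) * (U : ℝ))) =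
          (v : ℝ) * (8 * ((f : ℝ) * (U : ℝ) ^ 3)) := by ring
        _ ≤ (v : ℝ) * (V : ℝ) := mul_le_mul_of_nonneg_left e8 hvr.le
        _ ≤ (Y : ℝ) := e7
    have e7 : (2 : ℝ) * Y / (v * (f * U)) = Y / (v * (f * U)) + Y / (v * (f * U)) := by ring
    have e8 : (1 : ℝ) ≤ U ^ 2 := by nlinarith
    rw [e1, e7]
    linarith
  have f4 : ∑ k ∈ Ico (X / v + 1) (X / v + 1 + N), (GG V k) ^ 2 ≤ Y / v * L ^ 2 := by
    have e1 : ∑ k ∈ Ico (X / v + 1) (X / v + 1 + N), (GG V k) ^ 2 ≤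
        ∑ k ∈ Ico (X / v + 1) (X / v + 1 + N), L ^ 2 := by
      apply Finset.sum_le_sum
      intro k hk
      rw [mem_Ico] at hk
      have hle : X / v ≤ Y / v := Nat.div_le_div_right hXY
      have hkY : k ≤ Y / v := by omega
      have := GG_abs_le (U := V) (hkY.trans (Nat.div_le_self _ _)) hY1
      rw [← sq_abs]
      exact pow_le_pow_left₀ (abs_nonneg _) this 2
    have e2 : ∑ k ∈ Ico (X / v + 1) (X / v + 1 + N), L ^ 2 = N * L ^ 2 := by
      rw [Finset.sum_const, Nat.card_Ico, nsmul_eq_mul, Nat.add_sub_cancel_left]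
    rw [e2] at e1
    exact e1.trans (mul_le_mul_of_nonneg_right hNr (sq_nonneg _))
  have g1 : 0 ≤ ∑ m ∈ Ico v (v + D), (al (Y / V) m) ^ 2 :=
    Finset.sum_nonneg fun _ _ => sq_nonneg _
  have g3 : 0 ≤ dlt N f U P.card := by
    rw [dlt]
    positivity
  have g4 : 0 ≤ ∑ k ∈ Ico (X / v + 1) (X / v + 1 + N), (GG V k) ^ 2 :=
    Finset.sum_nonneg fun _ _ => sq_nonneg _
  have hsq : (∑ u ∈ P, |bS f (c u) u (r u) (Y / V) X Y V v B|) ^ 2 ≤
      (3 * Y * L / (B * (f * Real.sqrt U))) ^ 2 := by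
    refine (le_of_eq rfl).trans (hmain.trans ?_)
    have e1 : (P.card : ℝ) * (∑ m ∈ Ico v (v + D), (al (Y / V) m) ^ 2) *
        ((D : ℝ) / (f * U) + 1) ≤ (2 * U) * (v / B) * (2 * v / (B * (f * U))) := by
      gcongr
    have e2 : dlt N f U P.card * ∑ k ∈ Ico (X / v + 1) (X / v + 1 + N), (GG V k) ^ 2 ≤
        (2 * Y / (v * (f * U))) * (Y / v * L ^ 2) :=
      mul_le_mul f3 f4 g4 (by positivity)
    have e3 : ((2 * U) * (v / B) * (2 * v / (B * (f * U)))) *
        ((2 * Y / (v * (f * U))) * (Y / v * L ^ 2)) =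
        8 * (Y * L / (B * f)) ^ 2 / (U : ℝ) := by
      field_simp
      ring
    have e4 : (3 * Y * L / (B * (f * Real.sqrt U))) ^ 2 = 9 * (Y * L / (B * f)) ^ 2 / (U : ℝ) := by
      have hs : Real.sqrt U ^ 2 = U := Real.sq_sqrt hUr0.le
      have hs0 : Real.sqrt U ≠ 0 := by positivity
      rw [div_pow, div_pow, mul_pow (B : ℝ), mul_pow (f : ℝ), hs]
      field_simp
      ring
    rw [e4]
    refine (mul_le_mul e1 e2 (mul_nonneg g3 g4) (by positivity)).trans ?_
    rw [e3]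
    apply div_le_div_of_nonneg_right _ hUr0.le
    have := sq_nonneg ((Y : ℝ) * L / (B * f))
    linarith
  have hnn : 0 ≤ 3 * Y * L / (B * (f * Real.sqrt U)) := by positivity
  exact abs_le_of_sq_le_sq' hsq hnn |>.2

/-- The size of the parameters. -/
lemma size {Y V f U : ℕ} (hY : 3 ^ 40 ≤ Y) (hV : Y < (V + 1) ^ 3) (hf : f ^ 40 ≤ Y)
    (hU : U ^ 40 ≤ Y) : 16 * (f ^ 2 * U ^ 3) ≤ V := by
  set z := f ^ 2 * U ^ 3 with hz
  have h1 : (z ^ 8) ^ 5 ≤ Y ^ 5 := by
    calc (z ^ 8) ^ 5 = (f ^ 40) ^ 2 * (U ^ 40) ^ 3 := by rw [hz]; ring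
      _ ≤ Y ^ 2 * Y ^ 3 := Nat.mul_le_mul (Nat.pow_le_pow_left hf 2) (Nat.pow_le_pow_left hU 3)
      _ = Y ^ 5 := by ring
  have h2 : z ^ 8 ≤ Y := (Nat.pow_le_pow_iff_left (by norm_num)).1 h1
  by_contra hcon
  have h3 : V + 1 ≤ 16 * z := by omega
  have h4 : Y < (16 * z) ^ 3 := lt_of_lt_of_le hV (Nat.pow_le_pow_left h3 3)
  have h5 : (16 * z) ^ 3 = 4096 * z ^ 3 := by ring
  rw [h5] at h4
  by_cases hz6 : 6 ≤ z
  · have h6 : 6 ^ 5 ≤ z ^ 5 := Nat.pow_le_pow_left hz6 5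
    have h7 : z ^ 8 = z ^ 5 * z ^ 3 := by ring
    have h8 : 4096 * z ^ 3 ≤ z ^ 5 * z ^ 3 := Nat.mul_le_mul_right _ (by omega)
    omega
  · have h6 : z ^ 3 ≤ 5 ^ 3 := Nat.pow_le_pow_left (by omega) 3
    have h7 : (3 : ℕ) ^ 40 = 12157665459056928801 := by norm_num
    omega

end TT2

open TT2 in
theorem t_TT2 : M_TT2 := by
  classical
  intro hT2
  refine ⟨3 ^ 40, ?_⟩
  intro X Y V f U hY₀ hXY hV3 hV4 hf hU hf40 hU40 P c r hP
  have hY1 : 1 ≤ Y := le_trans (by norm_num) hY₀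
  have hYr : (1 : ℝ) ≤ Y := by exact_mod_cast hY1
  have hsize := size hY₀ hV4 hf40 hU40
  have hfr : (1 : ℝ) ≤ f := by exact_mod_cast hf
  have hUr : (1 : ℝ) ≤ U := by exact_mod_cast hU
  have hfr0 : (0 : ℝ) < f := by linarith
  have hUr0 : (0 : ℝ) < U := by linarith
  have hz1 : 1 ≤ f ^ 2 * U ^ 3 := Nat.mul_pos (by positivity) (by positivity)
  have hV1 : 1 ≤ V := by omega
  set B := 16 * (f * U ^ 2) with hB
  have hB1 : 1 ≤ B := by
    have : 0 < f * U ^ 2 := by positivity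
    omega
  have hBfU : B * (f * U) = 16 * (f ^ 2 * U ^ 3) := by rw [hB]; ring
  have hBV : B ≤ V := by
    have h1 : B * 1 ≤ B * (f * U) := Nat.mul_le_mul_left B (Nat.mul_pos hf hU)
    omega
  have hUV : 8 * (f * U ^ 3) ≤ V := by
    have h1 : f * U ^ 3 ≤ f ^ 2 * U ^ 3 :=
      Nat.mul_le_mul_right _ (Nat.le_self_pow (by norm_num) f)
    omega
  set L := Real.log (Y : ℝ) with hL
  have hL40 : 40 ≤ L := by
    have h1 : Real.exp 40 ≤ Y := by
      have h2 : Real.exp 40 = Real.exp 1 ^ 40 := by rw [← Real.exp_nat_mul]; norm_num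
      have h3 : Real.exp 1 ≤ 3 := by
        have := Real.exp_one_lt_d9
        linarith
      have h4 : ((3 ^ 40 : ℕ) : ℝ) ≤ Y := by exact_mod_cast hY₀
      rw [h2]
      calc Real.exp 1 ^ 40 ≤ (3 : ℝ) ^ 40 := pow_le_pow_left₀ (Real.exp_pos 1).le h3 40
        _ = ((3 ^ 40 : ℕ) : ℝ) := by push_cast; ring
        _ ≤ Y := h4
    have h2 := Real.log_le_log (Real.exp_pos 40) h1
    rwa [Real.log_exp] at h2
  have hL0 : 0 < L := by linarith
  -- the number of scales
  have hVY : V ≤ Y := (Nat.le_self_pow (by norm_num) V).trans hV3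
  have hW1 : 1 ≤ Y / V := (Nat.one_le_div_iff (by omega)).2 hVY
  set I : ℕ := Nat.clog 2 (Y / V + 1) with hI
  have hI1 : Y / V + 1 ≤ 2 ^ I := Nat.le_pow_clog (by norm_num) _
  have hIr : (I : ℝ) ≤ 3 * L := by
    have h1 : 2 ^ (I - 1) < Y / V + 1 := Nat.pow_pred_clog_lt_self (by norm_num) (by omega)
    have h2 : 2 ^ (I - 1) ≤ Y := by
      have : Y / V ≤ Y := Nat.div_le_self _ _
      omega
    have h3 : ((2 : ℝ)) ^ (I - 1) ≤ Y := by exact_mod_cast h2
    have h4 := Real.log_le_log (by positivity) h3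
    rw [Real.log_pow] at h4
    have h5 := Real.log_two_gt_d9
    have h6 : (I : ℝ) ≤ ((I - 1 : ℕ) : ℝ) + 1 := by
      have : I ≤ (I - 1) + 1 := by omega
      exact_mod_cast this
    have h7 : (0 : ℝ) ≤ ((I - 1 : ℕ) : ℝ) := Nat.cast_nonneg _
    nlinarith
  -- the cardinality
  have hcard : P.card ≤ 2 * U := by
    have hsub : P ⊆ Icc U (2 * U) := by
      intro u hu
      obtain ⟨-, -, h1, h2, -⟩ := hP u hu
      exact mem_Icc.2 ⟨h1, h2⟩
    have h1 := Finset.card_le_card hsub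
    rw [Nat.card_Icc] at h1
    omega
  have hcardr : (P.card : ℝ) ≤ 2 * U := by exact_mod_cast hcard
  set S : ℝ := f * Real.sqrt U with hS
  have hsU : Real.sqrt U ≤ U := by
    rw [Real.sqrt_le_left hUr0.le]
    nlinarith
  have hsU0 : 0 < Real.sqrt U := Real.sqrt_pos.2 hUr0
  have hS0 : 0 < S := by positivity
  set K : ℝ := 3 * Y * L / (B * S) with hK
  have hK0 : 0 ≤ K := by positivity
  set bd : ℝ := L * (((X : ℝ) + Y) / B * (1 + Real.log ((Y / V : ℕ) : ℝ)) +
    2 * ((Y / V : ℕ) : ℝ)) with hbd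
  -- the sum over the moduli
  have hsum : ∑ u ∈ P, |dsc f (c u) u (r u) X Y (large muR V * GG V)| ≤
      ∑ u ∈ P, (∑ j ∈ range (2 * B * I), |bS f (c u) u (r u) (Y / V) X Y V (blk V B j) B| + bd) :=
    Finset.sum_le_sum fun u _ => one_modulus f (c u) u (r u) hXY hY1 hB1 hV1 hBV hI1
  rw [Finset.sum_add_distrib, Finset.sum_comm, Finset.sum_const, nsmul_eq_mul] at hsum
  have hblk : ∀ j ∈ range (2 * B * I),
      ∑ u ∈ P, |bS f (c u) u (r u) (Y / V) X Y V (blk V B j) B| ≤ K := by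
    intro j _
    have hge := blk_ge V B j
    by_cases hvW : blk V B j ≤ Y / V
    · exact block hT2 P U f c r hU hf hP hXY hY1 hB1 hV1 (by omega) (by rw [hBfU]; omega) hvW hUV
    · have e1 : ∀ u ∈ P, |bS f (c u) u (r u) (Y / V) X Y V (blk V B j) B| = 0 := by
        intro u _
        rw [abs_eq_zero, bS]
        apply Finset.sum_eq_zero
        intro m hm
        rw [mem_Ico] at hm
        apply Finset.sum_eq_zero
        intro k _
        rw [al, if_neg (by omega), zero_mul, zero_mul]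
      rw [Finset.sum_congr rfl e1, Finset.sum_const_zero]
      exact hK0
  have hmain : ∑ j ∈ range (2 * B * I),
      ∑ u ∈ P, |bS f (c u) u (r u) (Y / V) X Y V (blk V B j) B| ≤ (2 * B * I : ℕ) * K := by
    refine (Finset.sum_le_sum hblk).trans ?_
    rw [Finset.sum_const, card_range, nsmul_eq_mul]
  -- the final estimate
  have hBr : (0 : ℝ) < B := by exact_mod_cast (show 0 < B by omega)
  have hBr2 : (B : ℝ) = 16 * (f * U ^ 2) := by rw [hB]; push_cast; ring
  have p1 : ((2 * B * I : ℕ) : ℝ) * K ≤ 18 * L ^ 2 * (Y / S) := by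
    have e1 : ((2 * B * I : ℕ) : ℝ) * K = 6 * I * L * (Y / S) := by
      rw [hK]
      push_cast
      field_simp
      ring
    rw [e1]
    have e2 : 6 * (I : ℝ) * L ≤ 18 * L ^ 2 := by nlinarith
    exact mul_le_mul_of_nonneg_right e2 (by positivity)
  have hWr : ((Y / V : ℕ) : ℝ) ≤ (Y : ℝ) / V := Nat.cast_div_le
  have hW1r : (1 : ℝ) ≤ ((Y / V : ℕ) : ℝ) := by exact_mod_cast hW1
  have hlogW : Real.log ((Y / V : ℕ) : ℝ) ≤ L := by
    apply Real.log_le_log (by linarith)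
    exact_mod_cast Nat.div_le_self _ _
  have hlogW0 : 0 ≤ Real.log ((Y / V : ℕ) : ℝ) := Real.log_nonneg hW1r
  have hXr : (X : ℝ) ≤ Y := by exact_mod_cast hXY
  have hVr : (16 : ℝ) * (f ^ 2 * U ^ 3) ≤ V := by exact_mod_cast hsize
  have hVr0 : (0 : ℝ) < V := by exact_mod_cast (show 0 < V by omega)
  have hSfU : S ≤ f * U := mul_le_mul_of_nonneg_left hsU hfr0.le
  have p2 : (P.card : ℝ) * bd ≤ 2 * L ^ 2 * (Y / S) := by
    have e1 : ((X : ℝ) + Y) / B * (1 + Real.log ((Y / V : ℕ) : ℝ)) ≤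
        2 * Y / B * (2 * L) := by
      gcongr
      · linarith
      · linarith
    have e2 : 2 * ((Y / V : ℕ) : ℝ) ≤ 2 * (Y / (16 * (f ^ 2 * U ^ 3))) := by
      have e3 : (Y : ℝ) / V ≤ Y / (16 * (f ^ 2 * U ^ 3)) :=
        div_le_div_of_nonneg_left (by positivity) (by positivity) hVr
      linarith
    have e3 : bd ≤ L * (2 * Y / B * (2 * L) + 2 * (Y / (16 * (f ^ 2 * U ^ 3)))) :=
      mul_le_mul_of_nonneg_left (add_le_add e1 e2) hL0.le
    have e4 : 0 ≤ bd := by positivity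
    have e5 : (P.card : ℝ) * bd ≤
        (2 * U) * (L * (2 * Y / B * (2 * L) + 2 * (Y / (16 * (f ^ 2 * U ^ 3))))) :=
      mul_le_mul hcardr e3 e4 (by positivity)
    refine e5.trans ?_
    have e6 : (2 * (U : ℝ)) * (L * (2 * Y / B * (2 * L) + 2 * (Y / (16 * (f ^ 2 * U ^ 3))))) =
        L ^ 2 * (Y / (2 * (f * U))) + L * (Y / (4 * (f ^ 2 * U ^ 2))) := by
      rw [hBr2]
      field_simp
      ring
    rw [e6]
    have e7 : (Y : ℝ) / (2 * (f * U)) ≤ Y / S := by
      apply div_le_div_of_nonneg_left (by positivity) hS0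
      have : 0 ≤ (f : ℝ) * U := by positivity
      linarith
    have e8 : (Y : ℝ) / (4 * (f ^ 2 * U ^ 2)) ≤ Y / S := by
      apply div_le_div_of_nonneg_left (by positivity) hS0
      have h1 : (1 : ℝ) ≤ f * U := by nlinarith
      have h2 : (f : ℝ) ^ 2 * U ^ 2 = (f * U) * (f * U) := by ring
      rw [h2]
      nlinarith
    have e9 : L * (Y / (4 * ((f : ℝ) ^ 2 * U ^ 2))) ≤ L ^ 2 * (Y / S) := by
      have h1 : L ≤ L ^ 2 := by nlinarith
      exact mul_le_mul h1 e8 (by positivity) (by positivity)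
    have e10 : L ^ 2 * (Y / (2 * ((f : ℝ) * U))) ≤ L ^ 2 * (Y / S) :=
      mul_le_mul_of_nonneg_left e7 (by positivity)
    linarith
  have hfin : (Y : ℝ) * L ^ 3 / (2 * S) = L ^ 3 / 2 * (Y / S) := by
    field_simp
  change ∑ u ∈ P, |dsc f (c u) u (r u) X Y (large muR V * GG V)| ≤ Y * L ^ 3 / (2 * S)
  rw [hfin]
  have h20 : 20 * L ^ 2 ≤ L ^ 3 / 2 := by
    have : 40 * L ^ 2 ≤ L * L ^ 2 := mul_le_mul_of_nonneg_right hL40 (by positivity)
    have e : L ^ 3 = L * L ^ 2 := by ring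
    rw [e]
    linarith
  have h21 : 20 * L ^ 2 * (Y / S) ≤ L ^ 3 / 2 * (Y / S) :=
    mul_le_mul_of_nonneg_right h20 (by positivity)
  linarith

end

end IPR
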