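import Pool.Agent.IPR.StmtsB

set_option autoImplicit false

/-!
Block B, module TY1: sums over a class modulo `f`, with constant and logarithmic weight.
-/

namespace IPR

open Finset

noncomputable section

namespace TY1

open Pool.Agent.Lib_helper72.AP (wt dlog dlog_nonneg sum_dlog)

/-! ### Periodic functions -/

/-- sums of a periodic function -/
lemma sum_per (H : ℕ → ℝ) (m : ℕ) (hH : ∀ n, H (n + m) = H n) (q r : ℕ) :
    ∑ j ∈ range (m * q + r), H j = q * ∑ j ∈ range m, H j + ∑ j ∈ range r, H j := by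
  induction q with
  | zero => simp
  | succ q ih =>
    have h1 : m * (q + 1) + r = m + (m * q + r) := by ring
    rw [h1, Finset.sum_range_add]
    have h2 : ∑ x ∈ range (m * q + r), H (m + x) = ∑ x ∈ range (m * q + r), H x := by
      apply Finset.sum_congr rfl
      intro x _
      rw [add_comm, hH]
    rw [h2, ih]
    push_cast
    ring

lemma per_mul (H : ℕ → ℝ) (m : ℕ) (hH : ∀ n, H (n + m) = H n) (n q : ℕ) :
    H (n + q * m) = H n := by
  induction q with
  | zero => simp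
  | succ q ih =>
    have h1 : n + (q + 1) * m = (n + q * m) + m := by ring
    rw [h1, hH, ih]

lemma sum_block (f : ℕ → ℝ) (m l : ℕ) :
    ∑ t ∈ range (l * m), f t = ∑ i ∈ range m, ∑ j ∈ range l, f (i + j * m) := by
  induction l with
  | zero => simp
  | succ l ih =>
    rw [Nat.succ_mul, Finset.sum_range_add, ih, ← Finset.sum_add_distrib]
    apply Finset.sum_congr rfl
    intro i _
    rw [Finset.sum_range_succ, add_comm (l * m) i]

/-- the sum over a full period of a pure function vanishes -/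
lemma sum_period {u : ℕ} (hu : 1 < u) {G : ℕ → ℝ} (hG : PureF u G) : ∑ j ∈ range u, G j = 0 := by
  obtain ⟨l, hl, hlu⟩ := Nat.exists_prime_and_dvd (show u ≠ 1 by omega)
  have h3 : range u = range (l * (u / l)) := by rw [Nat.mul_div_cancel' hlu]
  rw [h3, sum_block]
  exact Finset.sum_eq_zero fun i _ => hG.2 l hl hlu i

/-- every initial sum of a pure function is at most the period -/
lemma abs_sum_range_le {u : ℕ} (hu : 1 < u) {G : ℕ → ℝ} (hG : PureF u G) (h1 : ∀ j, |G j| ≤ 1)
    (n : ℕ) : |∑ j ∈ range n, G j| ≤ u := by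
  have e : u * (n / u) + n % u = n := Nat.div_add_mod n u
  have h := sum_per G u hG.1 (n / u) (n % u)
  rw [e, sum_period hu hG, mul_zero, zero_add] at h
  rw [h]
  have h2 : n % u ≤ u := (Nat.mod_lt n (by omega)).le
  calc |∑ j ∈ range (n % u), G j| ≤ ∑ j ∈ range (n % u), |G j| := Finset.abs_sum_le_sum_abs _ _
    _ ≤ ∑ j ∈ range (n % u), (1 : ℝ) := Finset.sum_le_sum fun j _ => h1 j
    _ = ((n % u : ℕ) : ℝ) := by simp
    _ ≤ u := by exact_mod_cast h2

/-! ### The weights -/

lemma abs_wt_le (l : ℕ) (hl : l.Prime) (r : ℤ) (n : ℕ) : |wt l r n| ≤ 1 := by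
  unfold wt
  have h2 : (2 : ℝ) ≤ l := by exact_mod_cast hl.two_le
  have h3 : (0 : ℝ) < (l : ℝ) - 1 := by linarith
  have h4 : 0 ≤ 1 / ((l : ℝ) - 1) := by positivity
  have h5 : 1 / ((l : ℝ) - 1) ≤ 1 := by
    rw [div_le_one h3]
    linarith
  split_ifs <;> rw [abs_le] <;> constructor <;> (try simp only [zero_div]) <;> linarith

lemma abs_ps_le (u : ℕ) (r : ℤ) (n : ℕ) : |ps u r n| ≤ 1 := by
  unfold ps
  rw [Finset.abs_prod]
  exact Finset.prod_le_one (fun _ _ => abs_nonneg _)
    (fun l hl => abs_wt_le l (Nat.prime_of_mem_primeFactors hl) r n)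

lemma wt_zero {l : ℕ} {r : ℤ} {n : ℕ} (hl : l ∣ n) (hr : ((r : ℤ) : ZMod l) ≠ 0) :
    wt l r n = 0 := by
  unfold wt
  rw [if_neg, if_pos hl]
  · simp
  · intro h
    apply hr
    rw [← h]
    exact (ZMod.natCast_eq_zero_iff n l).2 hl

lemma ps_zero {u m k : ℕ} {r : ℤ} (hr : UnitM r u) {l : ℕ} (hl : l ∈ u.primeFactors)
    (hm : l ∣ m) : ps u r (m * k) = 0 :=
  Finset.prod_eq_zero hl (wt_zero (hm.mul_right k) (hr l hl))

lemma wt_add {l d : ℕ} (h : l ∣ d) (r : ℤ) (n : ℕ) : wt l r (n + d) = wt l r n := by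
  have h1 : ((d : ℕ) : ZMod l) = 0 := (ZMod.natCast_eq_zero_iff d l).2 h
  have h2 : ((n + d : ℕ) : ZMod l) = (n : ZMod l) := by
    push_cast
    rw [h1, add_zero]
  have h3 : l ∣ n + d ↔ l ∣ n := (Nat.dvd_add_iff_left h).symm
  unfold wt
  simp only [h2, h3]

/-- The sum over an affine progression of length `l` is the sum over the field. -/
lemma sum_affine {l : ℕ} [Fact l.Prime] {m : ℕ} (hm : m.Coprime l) (n : ℕ) (g : ZMod l → ℝ) :
    ∑ j ∈ range l, g ((n + j * m : ℕ) : ZMod l) = ∑ x : ZMod l, g x := by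
  have h1 : ∀ h : ZMod l → ℝ, ∑ j ∈ range l, h (j : ZMod l) = ∑ x : ZMod l, h x := by
    intro h
    refine Finset.sum_bij' (fun (j : ℕ) _ => (j : ZMod l)) (fun (x : ZMod l) _ => x.val)
      (fun j _ => Finset.mem_univ _) (fun x _ => Finset.mem_range.2 (ZMod.val_lt x))
      (fun j hj => ZMod.val_cast_of_lt (Finset.mem_range.1 hj))
      (fun x _ => ZMod.natCast_zmod_val x) (fun j _ => rfl)
  have hm0 : ((m : ℕ) : ZMod l) ≠ 0 := by
    rw [Ne, ZMod.natCast_eq_zero_iff]
    intro h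
    have h2 := Nat.Coprime.eq_one_of_dvd hm.symm h
    exact (Fact.out : l.Prime).one_lt.ne' h2
  have h3 : ∑ j ∈ range l, g ((n + j * m : ℕ) : ZMod l) =
      ∑ j ∈ range l, (fun x : ZMod l => g ((n : ZMod l) + x * (m : ZMod l))) (j : ZMod l) := by
    apply Finset.sum_congr rfl
    intro j _
    push_cast
    rfl
  rw [h3, h1 (fun x : ZMod l => g ((n : ZMod l) + x * (m : ZMod l)))]
  apply Function.Bijective.sum_comp (g := g) (e := fun x : ZMod l => (n : ZMod l) + x * (m : ZMod l))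
  rw [← Finite.injective_iff_bijective]
  intro x y hxy
  exact mul_right_cancel₀ hm0 (add_left_cancel hxy)

/-- the mean of the weight over an affine progression vanishes -/
lemma sum_wt {l : ℕ} (hl : l.Prime) {a : ℕ} (ha : a.Coprime l) (r : ℤ) (n : ℕ) :
    ∑ j ∈ range l, wt l r (n + j * a) = 0 := by
  have : Fact l.Prime := ⟨hl⟩
  have hl1 : (1 : ℝ) < l := by exact_mod_cast hl.one_lt
  have h1 : ∀ j, wt l r (n + j * a) =
      (fun x : ZMod l => (if x = (r : ZMod l) then (1 : ℝ) else 0) -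
        (if x = 0 then 0 else 1) / ((l : ℝ) - 1)) ((n + j * a : ℕ) : ZMod l) := by
    intro j
    unfold wt
    by_cases h2 : l ∣ n + j * a
    · have h3 : ((n + j * a : ℕ) : ZMod l) = 0 := (ZMod.natCast_eq_zero_iff _ _).2 h2
      simp only [if_pos h2, if_pos h3]
    · have h3 : ¬ ((n + j * a : ℕ) : ZMod l) = 0 := fun h =>
        h2 ((ZMod.natCast_eq_zero_iff _ _).1 h)
      simp only [if_neg h2, if_neg h3]
  refine (Finset.sum_congr rfl (fun j _ => h1 j)).trans ?_
  refine (sum_affine ha n (fun x : ZMod l => (if x = (r : ZMod l) then (1 : ℝ) else 0) -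
    (if x = 0 then 0 else 1) / ((l : ℝ) - 1))).trans ?_
  rw [Finset.sum_sub_distrib, ← Finset.sum_div,
    Finset.sum_ite_eq' Finset.univ (r : ZMod l) (fun _ => (1 : ℝ)), if_pos (Finset.mem_univ _)]
  have h2 : ∑ x : ZMod l, (if x = 0 then (0 : ℝ) else 1) = (l : ℝ) - 1 := by
    have h3 : ∀ x : ZMod l, (if x = 0 then (0 : ℝ) else 1) =
        1 - (if x = 0 then (1 : ℝ) else 0) := by
      intro x
      by_cases hx : x = 0 <;> simp [hx]
    simp only [h3, Finset.sum_sub_distrib]
    rw [Finset.sum_const, Finset.sum_ite_eq' Finset.univ (0 : ZMod l) (fun _ => (1 : ℝ)),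
      if_pos (Finset.mem_univ _), Finset.card_univ, ZMod.card]
    simp
  rw [h2, div_self (by linarith), sub_self]

lemma dvd_div {u l a : ℕ} (hl : l ∈ u.primeFactors) (ha : a ∈ u.primeFactors) (h : l ≠ a) :
    l ∣ u / a := by
  have hl' := Nat.mem_primeFactors.1 hl
  have ha' := Nat.mem_primeFactors.1 ha
  have h1 : l ∣ a * (u / a) := by rw [Nat.mul_div_cancel' ha'.2.1]; exact hl'.2.1
  exact (((Nat.coprime_primes hl'.1 ha'.1).2 h).dvd_of_dvd_mul_left) h1

lemma coprime_div {u l : ℕ} (hu : Squarefree u) (hlu : l ∣ u) : (u / l).Coprime l := by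
  have hue : u = l * (u / l) := (Nat.mul_div_cancel' hlu).symm
  rw [hue] at hu
  exact (Nat.squarefree_mul_iff.1 hu).1.symm

/-- the fibre sums vanish -/
lemma fibre {u l : ℕ} (hu : Squarefree u) (hl : l.Prime) (hlu : l ∣ u) {m : ℕ}
    (hm : m.Coprime l) (r : ℤ) (n : ℕ) :
    ∑ j ∈ range l, ps u r (n + j * (m * (u / l))) = 0 := by
  have hmem : l ∈ u.primeFactors := Nat.mem_primeFactors.2 ⟨hl, hlu, hu.ne_zero⟩
  have h1 : ∀ j, ps u r (n + j * (m * (u / l))) =
      (∏ l' ∈ u.primeFactors.erase l, wt l' r n) * wt l r (n + j * (m * (u / l))) := by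
    intro j
    unfold ps
    rw [← Finset.prod_erase_mul _ _ hmem]
    congr 1
    apply Finset.prod_congr rfl
    intro l' hl'
    rw [Finset.mem_erase] at hl'
    exact wt_add (((dvd_div hl'.2 hmem hl'.1).mul_left m).mul_left j) r n
  rw [Finset.sum_congr rfl (fun j _ => h1 j), ← Finset.mul_sum,
    sum_wt hl (Nat.Coprime.mul_left hm (coprime_div hu hlu)), mul_zero]

/-- along a progression whose step is prime to `u` the product is pure -/
lemma pure_ps {u : ℕ} (hu : Squarefree u) {m : ℕ} (hm : m.Coprime u) (r : ℤ) (b : ℕ) :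
    PureF u (fun j => ps u r (b + m * j)) := by
  refine ⟨fun n => ?_, fun l hl hlu n => ?_⟩
  · show ps u r (b + m * (n + u)) = ps u r (b + m * n)
    have e : b + m * (n + u) = (b + m * n) + m * u := by ring
    rw [e]
    unfold ps
    refine Finset.prod_congr rfl fun l hl => ?_
    exact wt_add ((Nat.dvd_of_mem_primeFactors hl).mul_left m) r _
  · have h := fibre hu hl hlu (Nat.Coprime.coprime_dvd_right hlu hm) r (b + m * n)
    rw [← h]
    refine Finset.sum_congr rfl fun j _ => ?_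
    show ps u r (b + m * (n + j * (u / l))) = _
    congr 1
    ring

/-! ### The class modulo `f` -/

lemma exists_mul {n m : ℕ} (hn : 1 ≤ n) (h : m.Coprime n) (a : ZMod n) :
    ∃ t < n, ((m * t : ℕ) : ZMod n) = a := by
  have : NeZero n := ⟨by omega⟩
  refine ⟨(a * (m : ZMod n)⁻¹).val, ZMod.val_lt _, ?_⟩
  rw [Nat.cast_mul, ZMod.natCast_zmod_val, mul_comm a, ← mul_assoc,
    ZMod.coe_mul_inv_eq_one m h, one_mul]

/-- the members of the class `ρ` in an interval form a progression -/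
lemma prog (f ρ x y : ℕ) (hf : 1 ≤ f) : ∃ k₀ n : ℕ,
    ∀ H : ℕ → ℝ, ∑ k ∈ (Ico x y).filter (fun k => k ≡ ρ [MOD f]), H k =
      ∑ j ∈ range n, H (k₀ + f * j) := by
  set k₀ : ℕ := x + (ρ + (f - 1) * x) % f with hk
  have hf0 : 0 < f := hf
  have hlt : (ρ + (f - 1) * x) % f < f := Nat.mod_lt _ hf0
  have hk1 : k₀ < x + f := by omega
  have hk2 : x ≤ k₀ := by omega
  have hk3 : k₀ ≡ ρ [MOD f] := by
    have h1 : x + (ρ + (f - 1) * x) = ρ + f * x := by
      obtain ⟨g, rfl⟩ : ∃ g, f = g + 1 := ⟨f - 1, by omega⟩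
      rw [Nat.add_sub_cancel]
      ring
    have h2 : (ρ + (f - 1) * x) % f ≡ ρ + (f - 1) * x [MOD f] := Nat.mod_modEq _ _
    have h3 : k₀ ≡ x + (ρ + (f - 1) * x) [MOD f] := Nat.ModEq.add_left x h2
    rw [h1] at h3
    refine h3.trans ?_
    show (ρ + f * x) % f = ρ % f
    exact Nat.add_mul_mod_self_left _ _ _
  set n : ℕ := (y - k₀ + f - 1) / f with hn
  have hjn : ∀ j, j < n ↔ k₀ + f * j < y := by
    intro j
    have h1 : j < n ↔ (j + 1) * f ≤ y - k₀ + f - 1 := by
      rw [← Nat.succ_le_iff, hn, Nat.le_div_iff_mul_le hf0]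
    rw [h1]
    have h2 : (j + 1) * f = f * j + f := by ring
    rw [h2]
    omega
  refine ⟨k₀, n, ?_⟩
  intro H
  symm
  apply Finset.sum_nbij (fun j => k₀ + f * j)
  · intro j hj
    rw [Finset.mem_range] at hj
    rw [Finset.mem_filter, Finset.mem_Ico]
    refine ⟨⟨by omega, (hjn j).mp hj⟩, ?_⟩
    refine Nat.ModEq.trans ?_ hk3
    show (k₀ + f * j) % f = k₀ % f
    exact Nat.add_mul_mod_self_left _ _ _
  · intro i _ j _ hij
    have h1 : k₀ + f * i = k₀ + f * j := hij
    exact Nat.eq_of_mul_eq_mul_left hf0 (by omega)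
  · intro k hk'
    rw [Finset.mem_coe, Finset.mem_filter, Finset.mem_Ico] at hk'
    obtain ⟨⟨h1, h2⟩, h3⟩ := hk'
    have h4 : k ≡ k₀ [MOD f] := h3.trans hk3.symm
    have h5 : k₀ ≤ k := by
      by_contra hlt'
      push Not at hlt'
      have h6 : f ∣ k₀ - k := (Nat.modEq_iff_dvd' hlt'.le).mp h4
      have h7 : f ≤ k₀ - k := Nat.le_of_dvd (by omega) h6
      omega
    have h6 : f ∣ k - k₀ := (Nat.modEq_iff_dvd' h5).mp h4.symm
    obtain ⟨j, hj⟩ := h6
    have h7 : k = k₀ + f * j := by omega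
    refine ⟨j, ?_, h7.symm⟩
    rw [Finset.mem_coe, Finset.mem_range, hjn j, ← h7]
    exact h2
  · intro j _
    rfl

/-- the weight of the sums -/
def W (u f c m : ℕ) (r : ℤ) (k : ℕ) : ℝ := if m * k ≡ c [MOD f] then ps u r (m * k) else 0

/-- the constant weight, on an interval -/
lemma abs_sum_W_le {u f c m : ℕ} {r : ℤ} (hu : Squarefree u) (hu1 : 1 < u) (hf : 1 ≤ f)
    (huf : u.Coprime f) (hc : c.Coprime f) (hr : UnitM r u) (x y : ℕ) :
    |∑ k ∈ Ico x y, W u f c m r k| ≤ u := by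
  have hu0 : (0 : ℝ) ≤ u := Nat.cast_nonneg u
  by_cases hmf : m.Coprime f
  · by_cases hmu : m.Coprime u
    · obtain ⟨κ, -, hκ⟩ := exists_mul hf hmf (c : ZMod f)
      have hκ' : m * κ ≡ c [MOD f] := (ZMod.natCast_eq_natCast_iff _ _ _).1 hκ
      have hiff : ∀ k, m * k ≡ c [MOD f] ↔ k ≡ κ [MOD f] := by
        intro k
        constructor
        · intro h
          exact Nat.ModEq.cancel_left_of_coprime hmf.symm (h.trans hκ'.symm)
        · intro h
          exact (Nat.ModEq.mul_left m h).trans hκ'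
      obtain ⟨k₀, n, hn⟩ := prog f κ x y hf
      have h1 : ∑ k ∈ Ico x y, W u f c m r k = ∑ j ∈ range n, ps u r (m * k₀ + (m * f) * j) := by
        have h2 : ∑ k ∈ Ico x y, W u f c m r k =
            ∑ k ∈ (Ico x y).filter (fun k => k ≡ κ [MOD f]), ps u r (m * k) := by
          rw [Finset.sum_filter]
          refine Finset.sum_congr rfl fun k _ => ?_
          unfold W
          simp only [hiff k]
        rw [h2, hn (fun k => ps u r (m * k))]
        refine Finset.sum_congr rfl fun j _ => ?_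
        congr 1
        ring
      rw [h1]
      exact abs_sum_range_le hu1 (pure_ps hu (Nat.Coprime.mul_left hmu huf.symm) r (m * k₀))
        (fun j => abs_ps_le u r _) n
    · obtain ⟨l, hl, h1, h2⟩ := Nat.Prime.not_coprime_iff_dvd.1 hmu
      have hmem : l ∈ u.primeFactors := Nat.mem_primeFactors.2 ⟨hl, h2, hu.ne_zero⟩
      rw [Finset.sum_eq_zero, abs_zero]
      · exact hu0
      · intro k _
        unfold W
        rw [ps_zero hr hmem h1, ite_self]
  · obtain ⟨l, hl, h1, h2⟩ := Nat.Prime.not_coprime_iff_dvd.1 hmf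
    rw [Finset.sum_eq_zero, abs_zero]
    · exact hu0
    · intro k _
      unfold W
      rw [if_neg]
      intro h
      apply Nat.Prime.not_coprime_iff_dvd.2 ⟨l, hl, ?_, h2⟩ hc
      exact ((h.of_dvd h2).dvd_iff dvd_rfl).1 (h1.mul_right k)

/-- summation by parts -/
lemma abs_sum_mul_le (w : ℕ → ℝ) (M : ℝ) (hw : ∀ a b, |∑ k ∈ Ico a b, w k| ≤ M)
    (δ : ℕ → ℝ) (hδ : ∀ j, 0 ≤ δ j) (u v : ℕ) :
    |∑ k ∈ Ico u v, (∑ j ∈ range k, δ j) * w k| ≤ M * ∑ j ∈ range v, δ j := by
  classical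
  have h1 : ∑ k ∈ Ico u v, (∑ j ∈ range k, δ j) * w k =
      ∑ j ∈ range v, δ j * ∑ k ∈ Ico (max u (j + 1)) v, w k := by
    have h2 : ∀ k ∈ Ico u v, (∑ j ∈ range k, δ j) * w k =
        ∑ j ∈ range v, if j < k then δ j * w k else 0 := by
      intro k hk
      rw [mem_Ico] at hk
      rw [Finset.sum_mul, ← Finset.sum_filter]
      apply Finset.sum_congr _ (fun _ _ => rfl)
      ext j
      simp only [mem_range, mem_filter]
      omega
    rw [Finset.sum_congr rfl h2, Finset.sum_comm]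
    apply Finset.sum_congr rfl
    intro j _
    rw [Finset.mul_sum, ← Finset.sum_filter]
    apply Finset.sum_congr _ (fun _ _ => rfl)
    ext k
    simp only [mem_filter, mem_Ico]
    omega
  rw [h1, Finset.mul_sum]
  refine (Finset.abs_sum_le_sum_abs _ _).trans (Finset.sum_le_sum fun j _ => ?_)
  rw [abs_mul, abs_of_nonneg (hδ j), mul_comm]
  exact mul_le_mul_of_nonneg_right (hw _ _) (hδ j)

end TY1

open TY1 Pool.Agent.Lib_helper72.AP in
theorem t_TY1 : S_TY1 := by
  intro u f c m x y r hu hu1 hf huf hc hr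
  have hIoc : Ioc x y = Ico (x + 1) (y + 1) := by
    ext k
    simp only [mem_Ioc, mem_Ico]
    omega
  constructor
  · rw [hIoc, Finset.sum_filter]
    exact abs_sum_W_le hu hu1 hf huf hc hr (x + 1) (y + 1)
  · rw [hIoc, Finset.sum_filter]
    have h := abs_sum_mul_le (W u f c m r) u
      (fun a b => abs_sum_W_le hu hu1 hf huf hc hr a b) dlog dlog_nonneg (x + 1) (y + 1)
    rw [sum_dlog (Nat.le_add_left 1 y)] at h
    have e : ∑ k ∈ Ico (x + 1) (y + 1), (if m * k ≡ c [MOD f] then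
        Real.log k * ps u r (m * k) else 0) =
        ∑ k ∈ Ico (x + 1) (y + 1), (∑ j ∈ range k, dlog j) * W u f c m r k := by
      refine Finset.sum_congr rfl fun k hk => ?_
      rw [mem_Ico] at hk
      rw [sum_dlog (by omega)]
      unfold W
      split_ifs
      · rfl
      · rw [mul_zero]
    rw [e]
    refine h.trans_eq ?_
    push_cast
    rfl

end

end IPR
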