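import Pool.Agent.IPR.StmtsB

set_option autoImplicit false

/-!
Isolated primes in the classes of every modulus: large conductors (module BVE).
-/

namespace IPR

open Finset ArithmeticFunction
open scoped ArithmeticFunction.zeta ArithmeticFunction.Moebius

namespace BVE

theorem cast_congr {l u : ℕ} (hl : l ∣ u) (r : ℤ) : ((r % (u : ℤ) : ℤ) : ZMod l) = (r : ZMod l) := by
  rw [ZMod.intCast_eq_intCast_iff_dvd_sub]
  have h1 : (u : ℤ) ∣ r - r % u := Int.dvd_self_sub_emod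
  exact (Int.natCast_dvd_natCast.mpr hl).trans h1

theorem ps_congr (u : ℕ) (r : ℤ) (n : ℕ) : ps u (r % (u : ℤ)) n = ps u r n := by
  refine Finset.prod_congr rfl fun l hl => ?_
  simp only [Pool.Agent.Lib_helper72.AP.wt, cast_congr (Nat.dvd_of_mem_primeFactors hl) r]

theorem unit_congr (u : ℕ) (r : ℤ) (h : UnitM r u) : UnitM (r % (u : ℤ)) u := by
  intro l hl
  rw [cast_congr (Nat.dvd_of_mem_primeFactors hl) r]
  exact h l hl

theorem dsp_congr (f c u : ℕ) (r : ℤ) (X Y : ℕ) :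
    dsp f (c % f) u (r % (u : ℤ)) X Y = dsp f c u r X Y := by
  have h1 : (Ioc X Y).filter (fun p => p.Prime ∧ p ≡ c % f [MOD f]) =
      (Ioc X Y).filter (fun p => p.Prime ∧ p ≡ c [MOD f]) := by
    refine Finset.filter_congr fun p _ => ?_
    rw [Nat.ModEq, Nat.ModEq, Nat.mod_mod]
  rw [dsp, dsp, h1]
  exact Finset.sum_congr rfl fun p _ => by rw [ps_congr]

/-- The maximum over the residues is attained. -/
theorem exists_max (f u X Y : ℕ) (hf : 1 ≤ f) (hu : 1 ≤ u) :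
    ∃ (c0 : ℕ) (r0 : ℤ), c0.Coprime f ∧ UnitM r0 u ∧ ∀ (c : ℕ) (r : ℤ), c.Coprime f →
      UnitM r u → |dsp f c u r X Y| ≤ |dsp f c0 u r0 X Y| := by
  classical
  let T : Finset (ℕ × ℕ) := ((range f) ×ˢ (range u)).filter
    (fun t => t.1.Coprime f ∧ UnitM (t.2 : ℤ) u)
  have hmem : ∀ (c : ℕ) (r : ℤ), c.Coprime f → UnitM r u →
      (c % f, (r % (u : ℤ)).toNat) ∈ T ∧ (((r % (u : ℤ)).toNat : ℕ) : ℤ) = r % u := by
    intro c r hc hr
    have hu' : (u : ℤ) ≠ 0 := by omega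
    have h1 : (((r % (u : ℤ)).toNat : ℕ) : ℤ) = r % u := Int.toNat_of_nonneg (Int.emod_nonneg _ hu')
    refine ⟨?_, h1⟩
    rw [Finset.mem_filter, Finset.mem_product, Finset.mem_range, Finset.mem_range]
    refine ⟨⟨Nat.mod_lt _ (by omega), ?_⟩, ?_, ?_⟩
    · have h2 : r % (u : ℤ) < u := Int.emod_lt_of_pos _ (by omega)
      change (r % (u : ℤ)).toNat < u
      omega
    · change (c % f).Coprime f
      rw [Nat.Coprime, ← Nat.gcd_rec, Nat.gcd_comm]
      exact hc
    · change UnitM (((r % (u : ℤ)).toNat : ℕ) : ℤ) u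
      rw [h1]
      exact unit_congr u r hr
  have hne : T.Nonempty := by
    refine ⟨_, (hmem 1 1 (Nat.coprime_one_left f) ?_).1⟩
    intro l hl
    have : Fact l.Prime := ⟨Nat.prime_of_mem_primeFactors hl⟩
    rw [Int.cast_one]
    exact one_ne_zero
  obtain ⟨t, ht, hmax⟩ := Finset.exists_max_image T (fun t => |dsp f t.1 u (t.2 : ℤ) X Y|) hne
  rw [Finset.mem_filter] at ht
  refine ⟨t.1, (t.2 : ℤ), ht.2.1, ht.2.2, fun c r hc hr => ?_⟩
  obtain ⟨h1, h2⟩ := hmem c r hc hr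
  have h3 := hmax _ h1
  simp only [h2, dsp_congr] at h3
  exact h3

theorem one_f {Y₀ : ℕ} (hB : ∀ X Y f U : ℕ, Y₀ ≤ Y → X ≤ Y →
    1 ≤ f → 1 ≤ U → f ^ 40 ≤ Y → U ^ 40 ≤ Y → ∀ (P : Finset ℕ) (c : ℕ → ℕ) (r : ℕ → ℤ),
    Fam P U f c r →
    ∑ u ∈ P, |dsp f (c u) u (r u) X Y| ≤ (Y : ℝ) * Real.log Y ^ 4 / (f * Real.sqrt U))
    {X Y f N : ℕ} (hY₀ : Y₀ ≤ Y) (hXY : X ≤ Y) (hf : 1 ≤ f) (hf40 : f ^ 40 ≤ Y)
    (hN : N ^ 40 ≤ Y) {A : ℝ} (hA : 1 < A) (Q : Finset ℕ) (c : ℕ → ℕ) (r : ℕ → ℤ)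
    (hQ : ∀ u ∈ Q, Squarefree u ∧ A ≤ u ∧ u ≤ N ∧ u.Coprime f ∧ (c u).Coprime f ∧
      UnitM (r u) u) :
    ∑ u ∈ Q, |dsp f (c u) u (r u) X Y| ≤
      ((Nat.log 2 N : ℝ) + 1) * ((Y : ℝ) * Real.log Y ^ 4 / f * (2 / Real.sqrt A)) := by
  classical
  have hf0 : (0 : ℝ) < f := by exact_mod_cast hf
  have hA0 : 0 < Real.sqrt A := Real.sqrt_pos.mpr (by linarith)
  have hK : 0 ≤ (Y : ℝ) * Real.log Y ^ 4 / f := by positivity
  have hmaps : ∀ u ∈ Q, Nat.log 2 u ∈ range (Nat.log 2 N + 1) := by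
    intro u hu
    rw [Finset.mem_range]
    exact Nat.lt_succ_of_le (Nat.log_mono_right (hQ u hu).2.2.1)
  rw [← Finset.sum_fiberwise_of_maps_to hmaps]
  have hj : ∀ j ∈ range (Nat.log 2 N + 1),
      ∑ u ∈ Q.filter (fun u => Nat.log 2 u = j), |dsp f (c u) u (r u) X Y| ≤
        (Y : ℝ) * Real.log Y ^ 4 / f * (2 / Real.sqrt A) := by
    intro j _
    rcases (Q.filter (fun u => Nat.log 2 u = j)).eq_empty_or_nonempty with h0 | ⟨u0, hu0⟩
    · rw [h0, Finset.sum_empty]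
      positivity
    · have hgen : ∀ u ∈ Q.filter (fun u => Nat.log 2 u = j), 2 ^ j ≤ u ∧ u ≤ 2 * 2 ^ j ∧ 1 < u := by
        intro u hu
        rw [Finset.mem_filter] at hu
        have h1 : 1 < u := by
          have h2 : (1 : ℝ) < u := hA.trans_le (hQ u hu.1).2.1
          exact_mod_cast h2
        have h3 : u < 2 ^ (j + 1) := by
          rw [← hu.2]
          exact Nat.lt_pow_succ_log_self (by norm_num) u
        refine ⟨?_, ?_, h1⟩
        · rw [← hu.2]
          exact Nat.pow_log_le_self 2 (by omega)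
        · rw [pow_succ] at h3
          omega
      have hu0Q := (Finset.mem_filter.mp hu0).1
      have h1 := hB X Y f (2 ^ j) hY₀ hXY hf (Nat.one_le_two_pow) hf40
        ((Nat.pow_le_pow_left ((hgen u0 hu0).1.trans (hQ u0 hu0Q).2.2.1) 40).trans hN)
        (Q.filter (fun u => Nat.log 2 u = j)) c r (fun u hu => by
          obtain ⟨a1, a2, a3, a4, a5, a6⟩ := hQ u (Finset.mem_filter.mp hu).1
          obtain ⟨b1, b2, b3⟩ := hgen u hu
          exact ⟨a1, b3, b1, b2, a4, a5, a6⟩)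
      refine h1.trans ?_
      have h2 : Real.sqrt A ≤ 2 * Real.sqrt ((2 ^ j : ℕ) : ℝ) := by
        have h3 : A ≤ 4 * ((2 ^ j : ℕ) : ℝ) := by
          have h4 : (u0 : ℝ) ≤ 2 * ((2 ^ j : ℕ) : ℝ) := by exact_mod_cast (hgen u0 hu0).2.1
          have h5 := (hQ u0 hu0Q).2.1
          have h6 : (0 : ℝ) ≤ ((2 ^ j : ℕ) : ℝ) := Nat.cast_nonneg _
          linarith
        calc Real.sqrt A ≤ Real.sqrt (4 * ((2 ^ j : ℕ) : ℝ)) := Real.sqrt_le_sqrt h3
          _ = 2 * Real.sqrt ((2 ^ j : ℕ) : ℝ) := by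
            rw [Real.sqrt_mul (by norm_num)]
            congr 1
            rw [show (4 : ℝ) = 2 ^ 2 by norm_num, Real.sqrt_sq (by norm_num)]
      have h7 : 0 < Real.sqrt ((2 ^ j : ℕ) : ℝ) := by
        apply Real.sqrt_pos.mpr
        have : 0 < 2 ^ j := by positivity
        exact_mod_cast this
      rw [← div_div, div_eq_mul_one_div]
      apply mul_le_mul_of_nonneg_left _ hK
      rw [div_le_div_iff₀ h7 hA0]
      linarith
  refine (Finset.sum_le_card_nsmul _ _ _ hj).trans ?_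
  rw [Finset.card_range, nsmul_eq_mul]
  push_cast
  exact le_rfl

theorem growth (η : ℝ) (hη : 0 < η) :
    ∃ L₁ : ℝ, ∀ L : ℝ, L₁ ≤ L → 162 * L ^ 8 ≤ Real.exp (η / 6 * L) := by
  have h1 := isLittleO_pow_exp_pos_mul_atTop 8 (show (0 : ℝ) < η / 6 by linarith)
  have h2 := h1.def (show (0 : ℝ) < 1 / 162 by norm_num)
  obtain ⟨a, ha⟩ := Filter.eventually_atTop.mp h2
  refine ⟨a, fun L hL => ?_⟩
  have h3 := ha L hL
  rw [Real.norm_eq_abs, Real.norm_eq_abs, abs_of_pos (Real.exp_pos _)] at h3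
  have h4 := (le_abs_self (L ^ 8)).trans h3
  linarith

end BVE

open BVE in
/-- BVE: large conductors. -/
theorem t_BVE : M_BVE := by
  classical
  intro hBVP η hη hη1
  obtain ⟨Y₀, hB⟩ := hBVP
  obtain ⟨L₁, hL₁⟩ := growth η hη
  refine ⟨max L₁ (max 640000 (2 * Y₀)), fun L hL X Y W hXY hY1 hY2 hW1 hW2 => ?_⟩
  have hLa := hL₁ L ((le_max_left _ _).trans hL)
  have hLb : 640000 ≤ L := ((le_max_left _ _).trans (le_max_right _ _)).trans hL
  have hLc : 2 * (Y₀ : ℝ) ≤ L := ((le_max_right _ _).trans (le_max_right _ _)).trans hL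
  have hY₀ : Y₀ ≤ Y := by
    have h1 := Real.add_one_le_exp (L / 2)
    have h2 : (Y₀ : ℝ) ≤ Y := by linarith
    exact_mod_cast h2
  have hY1' : (1 : ℝ) ≤ Y := (Real.one_le_exp (by linarith)).trans hY1
  have hsq : 80 * Real.sqrt L ≤ L / 10 := by
    have h1 : 800 ≤ Real.sqrt L := Real.le_sqrt_of_sq_le (by linarith)
    have h2 : Real.sqrt L * Real.sqrt L = L := Real.mul_self_sqrt (by linarith)
    nlinarith
  set N : ℕ := ⌊Real.exp (L / 100)⌋₊ with hNdef
  have hN1 : (N : ℝ) ≤ Real.exp (L / 100) := Nat.floor_le (Real.exp_pos _).le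
  have hNpos : 1 ≤ N := Nat.le_floor (by simpa using Real.one_le_exp (by linarith))
  have hN40 : N ^ 40 ≤ Y := by
    have h1 : (N : ℝ) ^ 40 ≤ Y := by
      refine (pow_le_pow_left₀ (Nat.cast_nonneg _) hN1 40).trans (le_trans ?_ hY1)
      rw [← Real.exp_nat_mul]
      apply Real.exp_le_exp.mpr
      push_cast
      linarith
    exact_mod_cast h1
  have hf40 : ∀ e : ℕ, (e : ℝ) ≤ Real.exp (L / 100) → (W * e) ^ 40 ≤ Y := by
    intro e he
    have h1 : ((W : ℝ) * e) ^ 40 ≤ Y := by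
      have h2 : (W : ℝ) * e ≤ Real.exp (2 * Real.sqrt L) * Real.exp (L / 100) :=
        mul_le_mul hW2 he (Nat.cast_nonneg _) (Real.exp_pos _).le
      refine (pow_le_pow_left₀ (by positivity) h2 40).trans (le_trans ?_ hY1)
      rw [← Real.exp_add, ← Real.exp_nat_mul]
      apply Real.exp_le_exp.mpr
      push_cast
      linarith
    exact_mod_cast h1
  have H : ∀ e u : ℕ, ∃ (c0 : ℕ) (r0 : ℤ), 1 ≤ e → 1 ≤ u → c0.Coprime (W * e) ∧ UnitM r0 u ∧
      ∀ (c : ℕ) (r : ℤ), c.Coprime (W * e) → UnitM r u →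
        |dsp (W * e) c u r X Y| ≤ |dsp (W * e) c0 u r0 X Y| := by
    intro e u
    by_cases h : 1 ≤ e ∧ 1 ≤ u
    · obtain ⟨c0, r0, h1⟩ := exists_max (W * e) u X Y (Nat.mul_pos hW1 h.1) h.2
      exact ⟨c0, r0, fun _ _ => h1⟩
    · exact ⟨0, 0, fun h1 h2 => absurd ⟨h1, h2⟩ h⟩
  choose c0 r0 H using H
  have hupos : ∀ u : ℕ, Real.exp (η * L) ≤ u → 1 ≤ u := by
    intro u hu
    have h1 : (1 : ℝ) ≤ u := (Real.one_le_exp (by positivity)).trans hu
    exact_mod_cast h1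
  let adm : ℕ → ℕ → Prop := fun e u => 1 ≤ e ∧ Squarefree u ∧ Real.exp (η * L) ≤ u ∧
    (u : ℝ) ≤ Real.exp (L / 100) ∧ u.Coprime (W * e)
  refine ⟨fun e u => if adm e u then |dsp (W * e) (c0 e u) u (r0 e u) X Y| else 0,
    fun e u => ?_, fun e u c r he _ hsf hu1 hu2 hcop hc hr => ?_, ?_⟩
  · change 0 ≤ if adm e u then |dsp (W * e) (c0 e u) u (r0 e u) X Y| else 0
    split_ifs
    · exact abs_nonneg _
    · exact le_rfl
  · have h1 : adm e u := ⟨he, hsf, hu1, hu2, hcop⟩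
    simp only [if_pos h1]
    exact (H e u he (hupos u hu1)).2.2 c r hc hr
  · set K : ℝ := (Y : ℝ) * Real.log Y ^ 4 * (2 / Real.exp (η * L / 2)) with hK
    have hK0 : 0 ≤ K := by positivity
    have hlogN : Real.log N ≤ L / 100 := by
      have h1 := Real.log_le_log (by exact_mod_cast hNpos) hN1
      rwa [Real.log_exp] at h1
    have hlog2 : ((Nat.log 2 N : ℕ) : ℝ) + 1 ≤ L := by
      have h1 : ((2 : ℝ) ^ Nat.log 2 N) ≤ N := by
        exact_mod_cast Nat.pow_log_le_self 2 (by omega)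
      have h2 := (Real.log_le_log (by positivity) h1).trans hlogN
      rw [Real.log_pow] at h2
      have h3 := Real.log_two_gt_d9
      have h4 : (0 : ℝ) ≤ (Nat.log 2 N : ℕ) := Nat.cast_nonneg _
      nlinarith
    have he : ∀ e ∈ Icc 1 N, ∑ u ∈ Icc 1 N,
        (if adm e u then |dsp (W * e) (c0 e u) u (r0 e u) X Y| else 0) ≤ L * K * (1 / e) := by
      intro e he
      rw [Finset.mem_Icc] at he
      have he1 : (e : ℝ) ≤ Real.exp (L / 100) := (Nat.cast_le.mpr he.2).trans hN1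
      have he0 : (0 : ℝ) < e := by exact_mod_cast he.1
      have hW0 : (1 : ℝ) ≤ W := by exact_mod_cast hW1
      rw [← Finset.sum_filter]
      have h1 := one_f hB hY₀ hXY (Nat.mul_pos hW1 he.1) (hf40 e he1) hN40
        (A := Real.exp (η * L)) (Real.one_lt_exp_iff.mpr (by positivity))
        ((Icc 1 N).filter (adm e)) (c0 e) (r0 e) (fun u hu => by
          rw [Finset.mem_filter, Finset.mem_Icc] at hu
          obtain ⟨⟨_, a2⟩, _, a4, a5, _, a7⟩ := hu
          exact ⟨a4, a5, a2, a7, (H e u he.1 (hupos u a5)).1, (H e u he.1 (hupos u a5)).2.1⟩)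
      refine h1.trans ?_
      rw [← Real.exp_half]
      have h2 : (Y : ℝ) * Real.log Y ^ 4 / ((W * e : ℕ) : ℝ) * (2 / Real.exp (η * L / 2)) ≤
          K * (1 / e) := by
        have h3 : (Y : ℝ) * Real.log Y ^ 4 / ((W * e : ℕ) : ℝ) ≤
            (Y : ℝ) * Real.log Y ^ 4 * (1 / e) := by
          rw [div_eq_mul_one_div]
          apply mul_le_mul_of_nonneg_left _ (by positivity)
          apply one_div_le_one_div_of_le he0
          push_cast
          nlinarith
        calc _ ≤ (Y : ℝ) * Real.log Y ^ 4 * (1 / e) * (2 / Real.exp (η * L / 2)) :=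
              mul_le_mul_of_nonneg_right h3 (by positivity)
          _ = K * (1 / e) := by rw [hK]; ring
      calc _ ≤ L * (K * (1 / e)) := by
            refine mul_le_mul hlog2 h2 (by positivity) (by linarith)
        _ = L * K * (1 / e) := by ring
    refine (Finset.sum_le_sum he).trans ?_
    rw [← Finset.mul_sum]
    have hS : ∑ e ∈ Icc 1 N, (1 : ℝ) / e ≤ L := by
      have h1 := Pool.Agent.Lib_helper72.AP.sum_one_div_le_log N
      linarith
    have hlogY : Real.log Y ≤ 3 * L := by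
      have h1 := Real.log_le_log (by linarith) hY2
      rw [Real.log_mul (by positivity) (Real.exp_pos _).ne', Real.log_exp, Real.log_pow] at h1
      have h2 := Real.log_le_self (show 0 ≤ L by linarith)
      push_cast at h1
      linarith
    have hlogY0 : 0 ≤ Real.log Y := Real.log_nonneg hY1'
    have hK1 : K ≤ 162 * L ^ 6 * Real.exp (L - η * L / 2) := by
      have h1 : Real.log Y ^ 4 ≤ (3 * L) ^ 4 := pow_le_pow_left₀ hlogY0 hlogY 4
      have h2 : (Y : ℝ) * Real.log Y ^ 4 ≤ L ^ 2 * Real.exp L * (3 * L) ^ 4 :=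
        mul_le_mul hY2 h1 (by positivity) (by positivity)
      calc K ≤ L ^ 2 * Real.exp L * (3 * L) ^ 4 * (2 / Real.exp (η * L / 2)) :=
            mul_le_mul_of_nonneg_right h2 (by positivity)
        _ = 162 * L ^ 6 * Real.exp (L - η * L / 2) := by
            rw [Real.exp_sub]
            ring
    calc L * K * ∑ e ∈ Icc 1 N, (1 : ℝ) / e ≤
          L * (162 * L ^ 6 * Real.exp (L - η * L / 2)) * L := by
          apply mul_le_mul (mul_le_mul_of_nonneg_left hK1 (by linarith)) hS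
          · exact Finset.sum_nonneg fun _ _ => by positivity
          · have : 0 ≤ L := by linarith
            positivity
      _ = 162 * L ^ 8 * Real.exp (L - η * L / 2) := by ring
      _ ≤ Real.exp (η / 6 * L) * Real.exp (L - η * L / 2) :=
          mul_le_mul_of_nonneg_right hLa (Real.exp_pos _).le
      _ = Real.exp ((1 - η / 3) * L) := by
          rw [← Real.exp_add]
          congr 1
          ring

end IPR
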