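import Pool.Agent.IPR.StmtsB

/-!
BVS: small conductors, relative to one class modulo `W`.
-/

set_option autoImplicit false

namespace IPR

open Finset

noncomputable section

namespace BVS

lemma abs_wt_le {l : ℕ} (hl : l.Prime) (r : ℤ) (n : ℕ) :
    |Pool.Agent.Lib_helper72.AP.wt l r n| ≤ 2 := by
  unfold Pool.Agent.Lib_helper72.AP.wt
  have h1 : (1 : ℝ) ≤ (l : ℝ) - 1 := by
    have : (2 : ℝ) ≤ l := by exact_mod_cast hl.two_le
    linarith
  have h2 : |(if (n : ZMod l) = (r : ZMod l) then (1 : ℝ) else 0)| ≤ 1 := by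
    split_ifs <;> simp
  have h3 : |(if l ∣ n then (0 : ℝ) else 1) / ((l : ℝ) - 1)| ≤ 1 := by
    rw [abs_div, abs_of_pos (by linarith : (0 : ℝ) < (l : ℝ) - 1), div_le_one (by linarith)]
    split_ifs
    · simp only [abs_zero]; linarith
    · simp only [abs_one]; linarith
  rw [abs_le] at h2 h3 ⊢
  constructor <;> linarith [h2.1, h2.2, h3.1, h3.2]

lemma abs_ps_le (u : ℕ) (r : ℤ) (n : ℕ) : |ps u r n| ≤ 2 ^ u.primeFactors.card := by
  unfold ps
  rw [Finset.abs_prod]
  calc ∏ l ∈ u.primeFactors, |Pool.Agent.Lib_helper72.AP.wt l r n|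
      ≤ ∏ _l ∈ u.primeFactors, (2 : ℝ) :=
        Finset.prod_le_prod (fun _ _ => abs_nonneg _)
          fun l hl => abs_wt_le (Nat.prime_of_mem_primeFactors hl) r n
    _ = 2 ^ u.primeFactors.card := by rw [Finset.prod_const]

lemma abs_dsp_le (W c u : ℕ) (r : ℤ) (X Y : ℕ) :
    |dsp W c u r X Y| ≤ ∑ p ∈ Ioc X Y, Real.log p * 2 ^ u.primeFactors.card := by
  unfold dsp
  refine (Finset.abs_sum_le_sum_abs _ _).trans ?_
  refine (Finset.sum_le_sum_of_subset_of_nonneg (Finset.filter_subset _ _)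
    fun _ _ _ => abs_nonneg _).trans ?_
  refine Finset.sum_le_sum fun p _ => ?_
  rw [abs_mul, abs_of_nonneg (Real.log_natCast_nonneg p)]
  exact mul_le_mul_of_nonneg_left (abs_ps_le u r p) (Real.log_natCast_nonneg p)

lemma unitM_one (u : ℕ) : UnitM 1 u := by
  intro l hl
  have : Fact l.Prime := ⟨Nat.prime_of_mem_primeFactors hl⟩
  simp

/-- residues for which the sum is at least half of the supremum -/
lemma exists_near (W u X Y : ℕ) : ∃ (c : ℕ) (r : ℤ), c.Coprime W ∧ UnitM r u ∧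
    ∀ (c' : ℕ) (r' : ℤ), c'.Coprime W → UnitM r' u →
      |dsp W c' u r' X Y| ≤ 2 * |dsp W c u r X Y| := by
  let S : Set ℝ := {x | ∃ (c : ℕ) (r : ℤ), c.Coprime W ∧ UnitM r u ∧ x = |dsp W c u r X Y|}
  have hne : S.Nonempty := ⟨_, 1, 1, Nat.coprime_one_left W, unitM_one u, rfl⟩
  have hbd : BddAbove S := by
    refine ⟨∑ p ∈ Ioc X Y, Real.log p * 2 ^ u.primeFactors.card, ?_⟩
    rintro x ⟨c, r, -, -, rfl⟩
    exact abs_dsp_le W c u r X Y
  by_cases h : sSup S ≤ 0
  · refine ⟨1, 1, Nat.coprime_one_left W, unitM_one u, fun c' r' hc hr => ?_⟩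
    have h1 := le_csSup hbd ⟨c', r', hc, hr, rfl⟩
    have h2 := abs_nonneg (dsp W 1 u 1 X Y)
    linarith
  · push Not at h
    obtain ⟨x, ⟨c, r, hc, hr, rfl⟩, hx⟩ := exists_lt_of_lt_csSup hne (half_lt_self h)
    refine ⟨c, r, hc, hr, fun c' r' hc' hr' => ?_⟩
    have h1 := le_csSup hbd ⟨c', r', hc', hr', rfl⟩
    linarith

lemma geom_le (K : ℕ) : ∑ i ∈ range K, (1 / Real.sqrt ((2 : ℝ) ^ i)) ≤ 4 := by
  have h1 : ∀ i : ℕ, 1 / Real.sqrt ((2 : ℝ) ^ i) = (1 / Real.sqrt 2) ^ i := by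
    intro i
    have h2 : Real.sqrt ((2 : ℝ) ^ i) = Real.sqrt 2 ^ i := by
      rw [Real.sqrt_eq_iff_mul_self_eq (by positivity) (by positivity), ← mul_pow,
        Real.mul_self_sqrt (by norm_num)]
    rw [h2, one_div, one_div, inv_pow]
  simp only [h1]
  have h3 : (4 : ℝ) / 3 < Real.sqrt 2 := by
    rw [Real.lt_sqrt (by norm_num)]
    norm_num
  have h4 : 1 / Real.sqrt 2 < 3 / 4 := by
    rw [div_lt_div_iff₀ (by positivity) (by norm_num)]
    linarith
  have h5 : ∑ i ∈ range K, (1 / Real.sqrt 2) ^ i ≤ ∑ i ∈ range K, ((3 : ℝ) / 4) ^ i :=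
    Finset.sum_le_sum fun i _ => pow_le_pow_left₀ (by positivity) h4.le i
  refine h5.trans ?_
  have h6 := geom_sum_eq (show (3 : ℝ) / 4 ≠ 1 by norm_num) K
  rw [h6]
  have h7 : (0 : ℝ) ≤ (3 / 4) ^ K := by positivity
  rw [div_le_iff_of_neg (by norm_num)]
  linarith

end BVS

open BVS in
theorem t_BVS : M_BVS := by
  classical
  rintro ⟨Y₀, hB⟩
  refine ⟨max 25600 (2 * Real.log (Y₀ + 1)), fun L hL X Y W hXY hY1 hY2 hW1 hW2 => ?_⟩
  have hL1 : (25600 : ℝ) ≤ L := (le_max_left _ _).trans hL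
  have hL2 : 2 * Real.log (Y₀ + 1) ≤ L := (le_max_right _ _).trans hL
  have hL0 : (0 : ℝ) < L := by linarith
  -- `Y` is large
  have hY0 : Y₀ ≤ Y := by
    have h1 : ((Y₀ : ℝ) + 1) ≤ Real.exp (L / 2) := by
      rw [← Real.log_le_iff_le_exp (by positivity)]
      linarith
    have h2 : (Y₀ : ℝ) ≤ Y := by linarith
    exact_mod_cast h2
  have hYpos : (0 : ℝ) < Y := (Real.exp_pos _).trans_le hY1
  have hY1' : (1 : ℝ) ≤ Y := (Real.one_le_exp (by linarith)).trans hY1
  have hlogY0 : 0 ≤ Real.log Y := Real.log_nonneg hY1'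
  have hlogY : Real.log Y ≤ 2 * L := by
    have h1 : Real.log Y ≤ Real.log (L ^ 2 * Real.exp L) := Real.log_le_log hYpos hY2
    rw [Real.log_mul (by positivity) (by positivity), Real.log_exp, Real.log_pow] at h1
    have h2 : Real.log L ≤ L / 2 := by
      have h3 : Real.log L = 2 * Real.log (Real.sqrt L) := by
        rw [Real.log_sqrt hL0.le]; ring
      have h4 := Real.log_le_sub_one_of_pos (Real.sqrt_pos.2 hL0)
      have h5 : (4 : ℝ) ≤ Real.sqrt L := by
        rw [Real.le_sqrt (by norm_num) hL0.le]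
        linarith
      have h6 := Real.mul_self_sqrt hL0.le
      nlinarith
    push_cast at h1
    linarith
  have hW40 : W ^ 40 ≤ Y := by
    have h1 : (W : ℝ) ^ 40 ≤ Real.exp (2 * Real.sqrt L) ^ 40 :=
      pow_le_pow_left₀ (Nat.cast_nonneg _) hW2 40
    rw [← Real.exp_nat_mul] at h1
    have h2 : ((40 : ℕ) : ℝ) * (2 * Real.sqrt L) ≤ L / 2 := by
      have h5 : (160 : ℝ) ≤ Real.sqrt L := by
        rw [Real.le_sqrt (by norm_num) hL0.le]
        linarith
      have h6 := Real.mul_self_sqrt hL0.le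
      push_cast
      nlinarith
    have h3 : (W : ℝ) ^ 40 ≤ Y := (h1.trans (Real.exp_le_exp.2 h2)).trans hY1
    exact_mod_cast h3
  choose cc rr hcc hrr hnear using fun u : ℕ => exists_near W u X Y
  let good : ℕ → Prop := fun u => Squarefree u ∧ L ^ 24 ≤ u ∧ (u : ℝ) ≤ Real.exp (L / 100) ∧
    u.Coprime W
  refine ⟨fun u => if good u then 2 * |dsp W (cc u) u (rr u) X Y| else 0, ?_, ?_, ?_⟩
  · intro u
    dsimp only
    split_ifs <;> positivity
  · intro u c r h1 h2 h3 h4 h5 h6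
    dsimp only
    rw [if_pos (show good u from ⟨h1, h2, h3, h4⟩)]
    exact hnear u c r h5 h6
  · -- the sum
    let A : ℕ := ⌈L ^ 24⌉₊
    have hL24 : (1 : ℝ) ≤ L ^ 24 := one_le_pow₀ (by linarith)
    have hA1 : 1 ≤ A := Nat.one_le_ceil_iff.2 (by linarith)
    have hAL : L ^ 24 ≤ A := Nat.le_ceil _
    let M : ℕ := ⌊Real.exp (L / 100)⌋₊
    let G : Finset ℕ := (Icc 1 M).filter good
    have hG : ∑ u ∈ Icc 1 M, (if good u then 2 * |dsp W (cc u) u (rr u) X Y| else 0) =
        ∑ u ∈ G, 2 * |dsp W (cc u) u (rr u) X Y| := by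
      rw [Finset.sum_filter]
    have hmap : ∀ u ∈ G, Nat.log 2 (u / A) ∈ range (M + 1) := by
      intro u hu
      have hu2 := (Finset.mem_Icc.1 (Finset.mem_filter.1 hu).1).2
      rw [Finset.mem_range]
      have h1 : Nat.log 2 (u / A) ≤ u / A := Nat.log_le_self _ _
      have h2 : u / A ≤ u := Nat.div_le_self _ _
      omega
    rw [hG, ← Finset.sum_fiberwise_of_maps_to hmap]
    have hblock : ∀ i ∈ range (M + 1),
        ∑ u ∈ G.filter (fun u => Nat.log 2 (u / A) = i), 2 * |dsp W (cc u) u (rr u) X Y| ≤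
          (2 * ((Y : ℝ) * Real.log Y ^ 4 / (W * L ^ 12))) * (1 / Real.sqrt ((2 : ℝ) ^ i)) := by
      intro i _
      have hnn : 0 ≤ (2 * ((Y : ℝ) * Real.log Y ^ 4 / (W * L ^ 12))) *
          (1 / Real.sqrt ((2 : ℝ) ^ i)) := by positivity
      rcases Finset.eq_empty_or_nonempty (G.filter (fun u => Nat.log 2 (u / A) = i)) with h0 | h0
      · rw [h0, Finset.sum_empty]
        exact hnn
      -- the members
      have hmem : ∀ u ∈ G.filter (fun u => Nat.log 2 (u / A) = i), good u ∧ 2 ^ i * A ≤ u ∧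
          u ≤ 2 * (2 ^ i * A) := by
        intro u hu
        obtain ⟨hu1, hu2⟩ := Finset.mem_filter.1 hu
        have hg := (Finset.mem_filter.1 hu1).2
        have hAu : A ≤ u := Nat.ceil_le.2 hg.2.1
        have hne : u / A ≠ 0 := (Nat.div_pos hAu hA1).ne'
        have h1 : 2 ^ i ≤ u / A := by
          rw [← hu2]
          exact Nat.pow_log_le_self 2 hne
        have h2 : u / A < 2 ^ (i + 1) := by
          rw [← hu2]
          exact Nat.lt_pow_succ_log_self (by norm_num) _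
        refine ⟨hg, ?_, ?_⟩
        · exact (Nat.mul_le_mul_right A h1).trans (Nat.div_mul_le_self u A)
        · have h3 : u < 2 ^ (i + 1) * A := (Nat.div_lt_iff_lt_mul hA1).1 h2
          rw [pow_succ] at h3
          have h4 : 2 ^ i * 2 * A = 2 * (2 ^ i * A) := by ring
          omega
      obtain ⟨u0, hu0⟩ := h0
      obtain ⟨hg0, hl0, -⟩ := hmem u0 hu0
      have hU40 : (2 ^ i * A) ^ 40 ≤ Y := by
        have h1 : ((2 ^ i * A : ℕ) : ℝ) ≤ Real.exp (L / 100) :=
          (by exact_mod_cast hl0 : ((2 ^ i * A : ℕ) : ℝ) ≤ u0).trans hg0.2.2.1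
        have h2 : ((2 ^ i * A : ℕ) : ℝ) ^ 40 ≤ Real.exp (L / 100) ^ 40 :=
          pow_le_pow_left₀ (Nat.cast_nonneg _) h1 40
        rw [← Real.exp_nat_mul] at h2
        have h3 : ((40 : ℕ) : ℝ) * (L / 100) ≤ L / 2 := by
          push_cast
          linarith
        have h4 : ((2 ^ i * A : ℕ) : ℝ) ^ 40 ≤ Y := (h2.trans (Real.exp_le_exp.2 h3)).trans hY1
        exact_mod_cast h4
      have hU1 : 1 ≤ 2 ^ i * A := Nat.mul_pos (by positivity) hA1
      have hfam : Fam (G.filter (fun u => Nat.log 2 (u / A) = i)) (2 ^ i * A) W cc rr := by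
        intro u hu
        obtain ⟨hg, hl, hr⟩ := hmem u hu
        have h24 : (1 : ℝ) < L ^ 24 := one_lt_pow₀ (by linarith) (by norm_num)
        have h1u : 1 < u := by
          have h2 : (1 : ℝ) < u := h24.trans_le hg.2.1
          exact_mod_cast h2
        exact ⟨hg.1, h1u, hl, hr, hg.2.2.2, hcc u, hrr u⟩
      have hmain := hB X Y W (2 ^ i * A) hY0 hXY hW1 hU1 hW40 hU40 _ cc rr hfam
      rw [← Finset.mul_sum, mul_assoc]
      refine mul_le_mul_of_nonneg_left ?_ (by norm_num)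
      refine hmain.trans ?_
      have hWpos : (0 : ℝ) < W := by exact_mod_cast hW1
      have h2i : (0 : ℝ) < Real.sqrt ((2 : ℝ) ^ i) := Real.sqrt_pos.2 (by positivity)
      have hsq : L ^ 12 * Real.sqrt ((2 : ℝ) ^ i) ≤ Real.sqrt ((2 ^ i * A : ℕ) : ℝ) := by
        have h1 : L ^ 12 = Real.sqrt (L ^ 24) := by
          rw [show L ^ 24 = (L ^ 12) ^ 2 by ring, Real.sqrt_sq (by positivity)]
        rw [h1, ← Real.sqrt_mul (by positivity)]
        refine Real.sqrt_le_sqrt ?_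
        push_cast
        rw [mul_comm]
        exact mul_le_mul_of_nonneg_left hAL (by positivity)
      rw [mul_one_div, div_div]
      refine div_le_div_of_nonneg_left (by positivity) (by positivity) ?_
      rw [mul_assoc]
      exact mul_le_mul_of_nonneg_left hsq hWpos.le
    refine (Finset.sum_le_sum hblock).trans ?_
    rw [← Finset.mul_sum]
    have hWpos : (0 : ℝ) < W := by exact_mod_cast hW1
    have h1 : (2 * ((Y : ℝ) * Real.log Y ^ 4 / (W * L ^ 12))) *
        ∑ i ∈ range (M + 1), (1 / Real.sqrt ((2 : ℝ) ^ i)) ≤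
        (2 * ((Y : ℝ) * Real.log Y ^ 4 / (W * L ^ 12))) * 4 :=
      mul_le_mul_of_nonneg_left (geom_le _) (by positivity)
    refine h1.trans ?_
    have h2 : (Y : ℝ) * Real.log Y ^ 4 ≤ (L ^ 2 * Real.exp L) * (2 * L) ^ 4 :=
      mul_le_mul hY2 (pow_le_pow_left₀ hlogY0 hlogY 4) (by positivity) (by positivity)
    calc 2 * ((Y : ℝ) * Real.log Y ^ 4 / (W * L ^ 12)) * 4
        ≤ 2 * ((L ^ 2 * Real.exp L) * (2 * L) ^ 4 / (W * L ^ 12)) * 4 := by gcongr
      _ = 128 / L * (Real.exp L / (W * L ^ 5)) := by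
        field_simp
        ring
      _ ≤ 1 * (Real.exp L / (W * L ^ 5)) := by
        refine mul_le_mul_of_nonneg_right ?_ (by positivity)
        rw [div_le_one hL0]
        linarith
      _ = Real.exp L / (W * L ^ 5) := one_mul _

end

end IPR
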