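import Pool.Agent.IPR.StmtsB

set_option autoImplicit false

/-!
LSV: the large sieve, variance form (from the dual large sieve DLS).
-/

namespace IPR.LSV

open Finset
open Pool.Agent.Lib_helper72.AP (wt)

lemma sum_block (f : ℕ → ℝ) (m l : ℕ) :
    ∑ t ∈ range (l * m), f t = ∑ i ∈ range m, ∑ j ∈ range l, f (i + j * m) := by
  induction l with
  | zero => simp
  | succ l ih =>
    rw [Nat.succ_mul, Finset.sum_range_add, ih, ← Finset.sum_add_distrib]
    apply Finset.sum_congr rfl
    intro i _
    rw [Finset.sum_range_succ, add_comm (l * m) i]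

lemma pure_mul {u l : ℕ} (hl : l ∣ u) {F W : ℕ → ℝ}
    (hF : ∀ n, ∑ j ∈ range l, F (n + j * (u / l)) = 0) (hW : ∀ n, W (n + u / l) = W n) :
    ∑ t ∈ range u, F t * W t = 0 := by
  have h2 : ∀ n j, W (n + j * (u / l)) = W n := by
    intro n j
    induction j with
    | zero => simp
    | succ j ih => rw [Nat.succ_mul, ← add_assoc, hW, ih]
  have h3 : range u = range (l * (u / l)) := by rw [Nat.mul_div_cancel' hl]
  rw [h3, sum_block]
  apply Finset.sum_eq_zero
  intro i _
  have h4 : ∑ j ∈ range l, F (i + j * (u / l)) * W (i + j * (u / l)) =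
      (∑ j ∈ range l, F (i + j * (u / l))) * W i := by
    rw [Finset.sum_mul]
    apply Finset.sum_congr rfl
    intro j _
    rw [h2]
  rw [h4, hF, zero_mul]

/-- The indicator of `k = t` modulo `l`. -/
noncomputable def D (k l t : ℕ) : ℝ := if (k : ZMod l) = ((t : ℤ) : ZMod l) then 1 else 0

/-- The mean part of the weight. -/
noncomputable def cc (k l : ℕ) : ℝ := (if l ∣ k then 0 else 1) / ((l : ℝ) - 1)

lemma wt_eq (k l t : ℕ) : wt l (t : ℤ) k = D k l t - cc k l := rfl

lemma D_add {k l m t : ℕ} (h : l ∣ m) : D k l (t + m) = D k l t := by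
  have h1 : ((m : ℕ) : ZMod l) = 0 := (ZMod.natCast_eq_zero_iff m l).2 h
  unfold D
  have h2 : (((t + m : ℕ) : ℤ) : ZMod l) = ((t : ℤ) : ZMod l) := by
    push_cast
    rw [h1, add_zero]
  rw [h2]

lemma dvd_div {u l a : ℕ} (hl : l ∈ u.primeFactors) (ha : a ∈ u.primeFactors) (h : l ≠ a) :
    l ∣ u / a := by
  have hl' := Nat.mem_primeFactors.1 hl
  have ha' := Nat.mem_primeFactors.1 ha
  have h1 : l ∣ a * (u / a) := by rw [Nat.mul_div_cancel' ha'.2.1]; exact hl'.2.1
  exact (((Nat.coprime_primes hl'.1 ha'.1).2 h).dvd_of_dvd_mul_left) h1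

lemma prod_D {u : ℕ} (hu : Squarefree u) (k t : ℕ) :
    ∏ l ∈ u.primeFactors, D k l t = if k ≡ t [MOD u] then 1 else 0 := by
  unfold D
  rw [Finset.prod_ite_zero]
  have h1 : (∀ l ∈ u.primeFactors, (k : ZMod l) = ((t : ℤ) : ZMod l)) ↔ k ≡ t [MOD u] := by
    constructor
    · intro h
      rw [Nat.modEq_iff_dvd]
      have h2 : ∏ l ∈ u.primeFactors, l ∣ ((t : ℤ) - k).natAbs := by
        apply Finset.prod_primes_dvd
        · intro l hl
          exact (Nat.mem_primeFactors.1 hl).1.prime
        · intro l hl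
          have h3 := h l hl
          rw [Int.cast_natCast] at h3
          have h4 := (ZMod.natCast_eq_natCast_iff k t l).1 h3
          exact Int.natCast_dvd.1 ((Nat.modEq_iff_dvd).1 h4)
      rw [Nat.prod_primeFactors_of_squarefree hu] at h2
      exact Int.natCast_dvd.2 h2
    · intro h l hl
      rw [Int.cast_natCast, ZMod.natCast_eq_natCast_iff]
      exact h.of_dvd (Nat.mem_primeFactors.1 hl).2.1
  simp only [h1, Finset.prod_const_one]

lemma repro {u : ℕ} (hu : Squarefree u) {F : ℕ → ℝ} (hF : PureF u F) (k : ℕ) :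
    ∑ t ∈ range u, F t * ps u (t : ℤ) k = F k := by
  classical
  have hu0 : 0 < u := Nat.pos_of_ne_zero hu.ne_zero
  have key : ∀ A : Finset ℕ, A ⊆ u.primeFactors →
      ∑ t ∈ range u, F t * ((∏ l ∈ A, (D k l t - cc k l)) *
        ∏ l ∈ u.primeFactors \ A, D k l t) =
      ∑ t ∈ range u, F t * ∏ l ∈ u.primeFactors, D k l t := by
    intro A
    induction A using Finset.induction_on with
    | empty => intro _; simp
    | insert a A haA ih =>
      intro hA
      have ha : a ∈ u.primeFactors := hA (Finset.mem_insert_self a A)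
      have hA' : A ⊆ u.primeFactors := fun x hx => hA (Finset.mem_insert_of_mem hx)
      rw [← ih hA']
      have h1 : ∀ t, ∏ l ∈ u.primeFactors \ A, D k l t =
          D k a t * ∏ l ∈ u.primeFactors \ insert a A, D k l t := by
        intro t
        have h2 : u.primeFactors \ A = insert a (u.primeFactors \ insert a A) := by
          ext x
          simp only [Finset.mem_sdiff, Finset.mem_insert, not_or]
          constructor
          · rintro ⟨h3, h4⟩
            by_cases h5 : x = a
            · exact Or.inl h5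
            · exact Or.inr ⟨h3, h5, h4⟩
          · rintro (rfl | ⟨h3, _, h4⟩)
            · exact ⟨ha, haA⟩
            · exact ⟨h3, h4⟩
        rw [h2, Finset.prod_insert]
        simp
      have h0 : ∑ t ∈ range u, F t * ((∏ l ∈ A, (D k l t - cc k l)) *
          ∏ l ∈ u.primeFactors \ insert a A, D k l t) = 0 := by
        apply pure_mul (l := a) (Nat.mem_primeFactors.1 ha).2.1
        · exact hF.2 a (Nat.mem_primeFactors.1 ha).1 (Nat.mem_primeFactors.1 ha).2.1
        · intro n
          congr 1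
          · apply Finset.prod_congr rfl
            intro l hl
            rw [D_add (dvd_div (hA' hl) ha (fun h => haA (h ▸ hl)))]
          · apply Finset.prod_congr rfl
            intro l hl
            rw [Finset.mem_sdiff, Finset.mem_insert, not_or] at hl
            rw [D_add (dvd_div hl.1 ha hl.2.1)]
      rw [← sub_eq_zero, ← Finset.sum_sub_distrib]
      rw [← mul_zero (-cc k a), ← h0, Finset.mul_sum]
      apply Finset.sum_congr rfl
      intro t _
      rw [Finset.prod_insert haA, h1 t]
      ring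
  have h1 := key u.primeFactors (Finset.Subset.refl _)
  rw [Finset.sdiff_self] at h1
  have h2 : ∑ t ∈ range u, F t * ps u (t : ℤ) k =
      ∑ t ∈ range u, F t * ((∏ l ∈ u.primeFactors, (D k l t - cc k l)) *
        ∏ l ∈ (∅ : Finset ℕ), D k l t) := by
    apply Finset.sum_congr rfl
    intro t _
    rw [Finset.prod_empty, mul_one]
    rfl
  rw [h2, h1]
  rw [Finset.sum_eq_single (k % u)]
  · rw [prod_D hu, if_pos (Nat.mod_modEq k u).symm, mul_one]
    exact (show Function.Periodic F u from hF.1).map_mod_nat k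
  · intro t ht hne
    rw [prod_D hu, if_neg, mul_zero]
    intro h
    apply hne
    have h3 : k % u = t % u := h
    rw [Nat.mod_eq_of_lt (Finset.mem_range.1 ht)] at h3
    exact h3.symm
  · intro h
    exact absurd (Finset.mem_range.2 (Nat.mod_lt k hu0)) h

/-- The sum over an affine progression of length `l` is the sum over the field. -/
lemma sum_affine {l : ℕ} [Fact l.Prime] {m : ℕ} (hm : m.Coprime l) (n : ℕ) (g : ZMod l → ℝ) :
    ∑ j ∈ range l, g ((n + j * m : ℕ) : ZMod l) = ∑ x : ZMod l, g x := by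
  have h1 : ∀ h : ZMod l → ℝ, ∑ j ∈ range l, h (j : ZMod l) = ∑ x : ZMod l, h x := by
    intro h
    refine Finset.sum_bij' (fun (j : ℕ) _ => (j : ZMod l)) (fun (x : ZMod l) _ => x.val)
      (fun j _ => Finset.mem_univ _) (fun x _ => Finset.mem_range.2 (ZMod.val_lt x))
      (fun j hj => ZMod.val_cast_of_lt (Finset.mem_range.1 hj))
      (fun x _ => ZMod.natCast_zmod_val x) (fun j _ => rfl)
  have hm0 : ((m : ℕ) : ZMod l) ≠ 0 := by
    rw [Ne, ZMod.natCast_eq_zero_iff]
    intro h
    have h2 := Nat.Coprime.eq_one_of_dvd hm.symm h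
    exact (Fact.out : l.Prime).one_lt.ne' h2
  have h3 : ∑ j ∈ range l, g ((n + j * m : ℕ) : ZMod l) =
      ∑ j ∈ range l, (fun x : ZMod l => g ((n : ZMod l) + x * (m : ZMod l))) (j : ZMod l) := by
    apply Finset.sum_congr rfl
    intro j _
    push_cast
    rfl
  rw [h3, h1 (fun x : ZMod l => g ((n : ZMod l) + x * (m : ZMod l)))]
  apply Function.Bijective.sum_comp (g := g) (e := fun x : ZMod l => (n : ZMod l) + x * (m : ZMod l))
  rw [← Finite.injective_iff_bijective]
  intro x y hxy
  exact mul_right_cancel₀ hm0 (add_left_cancel hxy)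

/-- The local identity: the weights of the nonzero classes have sum zero. -/
lemma sum_local {l : ℕ} [Fact l.Prime] (k : ℕ) :
    ∑ x : ZMod l, (if x = 0 then 0 else (if (k : ZMod l) = x then (1 : ℝ) else 0) - cc k l) = 0 := by
  classical
  have hl : (1 : ℝ) < l := by exact_mod_cast (Fact.out : l.Prime).one_lt
  have h1 : ∀ x : ZMod l, (if x = 0 then 0 else (if (k : ZMod l) = x then (1 : ℝ) else 0) - cc k l) =
      (if x = (k : ZMod l) then (if x = 0 then (0 : ℝ) else 1) else 0) -
        (if x = 0 then 0 else cc k l) := by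
    intro x
    by_cases hx : x = 0
    · simp [hx]
    · by_cases hk : (k : ZMod l) = x
      · simp [hx, hk]
      · have hk' : ¬ x = (k : ZMod l) := fun h => hk h.symm
        simp [hx, hk, hk']
  simp only [h1, Finset.sum_sub_distrib]
  rw [Finset.sum_ite_eq' Finset.univ (k : ZMod l) (fun x => if x = 0 then (0 : ℝ) else 1)]
  have h2 : ∑ x : ZMod l, (if x = 0 then 0 else cc k l) = ((l : ℝ) - 1) * cc k l := by
    have h3 : ∀ x : ZMod l, (if x = 0 then 0 else cc k l) =
        cc k l - (if x = 0 then cc k l else 0) := by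
      intro x
      by_cases hx : x = 0 <;> simp [hx]
    simp only [h3, Finset.sum_sub_distrib]
    rw [Finset.sum_const, Finset.sum_ite_eq' Finset.univ (0 : ZMod l) (fun _ => cc k l)]
    rw [Finset.card_univ, ZMod.card]
    simp
    ring
  rw [h2, cc, mul_div_cancel₀ _ (by linarith)]
  by_cases hk : l ∣ k
  · have h4 : (k : ZMod l) = 0 := (ZMod.natCast_eq_zero_iff k l).2 hk
    simp [h4, hk]
  · have h4 : ¬ (k : ZMod l) = 0 := fun h => hk ((ZMod.natCast_eq_zero_iff k l).1 h)
    simp [h4, hk]

/-- The variance sums, extended by zero. -/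
noncomputable def G (s : Finset ℕ) (β : ℕ → ℝ) (u t : ℕ) : ℝ :=
  if t.Coprime u then ∑ k ∈ s, β k * ps u (t : ℤ) k else 0

lemma ps_add {u t k m : ℕ} (h : u ∣ m) : ps u ((t + m : ℕ) : ℤ) k = ps u (t : ℤ) k := by
  unfold ps
  apply Finset.prod_congr rfl
  intro l hl
  rw [wt_eq, wt_eq, D_add ((Nat.mem_primeFactors.1 hl).2.1.trans h)]

lemma fibre {u l : ℕ} (hu : Squarefree u) (hl : l.Prime) (hlu : l ∣ u) (k n : ℕ) :
    ∑ j ∈ range l, (if (n + j * (u / l)).Coprime u then
      ps u ((n + j * (u / l) : ℕ) : ℤ) k else 0) = 0 := by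
  classical
  have : Fact l.Prime := ⟨hl⟩
  have hmem : l ∈ u.primeFactors := Nat.mem_primeFactors.2 ⟨hl, hlu, hu.ne_zero⟩
  have hue : u = l * (u / l) := (Nat.mul_div_cancel' hlu).symm
  have hcop : (u / l).Coprime l := by
    rw [hue] at hu
    exact (Nat.squarefree_mul_iff.1 hu).1.symm
  have h1 : ∀ j, (if (n + j * (u / l)).Coprime u then
      ps u ((n + j * (u / l) : ℕ) : ℤ) k else 0) =
      (if n.Coprime (u / l) then ∏ l' ∈ u.primeFactors.erase l, wt l' (n : ℤ) k else 0) *
      (fun x : ZMod l => if x = 0 then 0 else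
        (if (k : ZMod l) = x then (1 : ℝ) else 0) - cc k l) ((n + j * (u / l) : ℕ) : ZMod l) := by
    intro j
    have h2 : (n + j * (u / l)).Coprime u ↔ n.Coprime (u / l) ∧
        ¬ (((n + j * (u / l) : ℕ) : ZMod l) = 0) := by
      rw [ZMod.natCast_eq_zero_iff, ← (Nat.Prime.coprime_iff_not_dvd hl)]
      conv_lhs => rw [hue]
      rw [Nat.coprime_mul_iff_right, Nat.mul_div_cancel' hlu, Nat.coprime_comm, and_comm]
      apply and_congr_left
      intro _
      rw [add_comm, Nat.coprime_mul_right_add_left]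
    have h3 : ps u ((n + j * (u / l) : ℕ) : ℤ) k =
        (∏ l' ∈ u.primeFactors.erase l, wt l' (n : ℤ) k) *
          wt l ((n + j * (u / l) : ℕ) : ℤ) k := by
      unfold ps
      rw [← Finset.prod_erase_mul _ _ hmem]
      congr 1
      apply Finset.prod_congr rfl
      intro l' hl'
      rw [Finset.mem_erase] at hl'
      rw [wt_eq, wt_eq, D_add ((dvd_div hl'.2 hmem hl'.1).mul_left j)]
    by_cases ha : n.Coprime (u / l)
    · by_cases hb : ((n + j * (u / l) : ℕ) : ZMod l) = 0
      · rw [if_neg (fun h => (h2.1 h).2 hb)]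
        simp only [hb, if_true, mul_zero]
      · rw [if_pos (h2.2 ⟨ha, hb⟩), if_pos ha, h3]
        congr 1
        simp only [if_neg hb]
        rw [wt_eq, D, Int.cast_natCast]
    · rw [if_neg (fun h => ha (h2.1 h).1), if_neg ha, zero_mul]
  rw [Finset.sum_congr rfl (fun j _ => h1 j), ← Finset.mul_sum]
  rw [sum_affine hcop n (fun x : ZMod l => if x = 0 then 0 else
        (if (k : ZMod l) = x then (1 : ℝ) else 0) - cc k l), sum_local, mul_zero]

lemma pure_G {s : Finset ℕ} {β : ℕ → ℝ} {u : ℕ} (hu : Squarefree u) : PureF u (G s β u) := by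
  constructor
  · intro n
    unfold G
    simp only [ps_add (dvd_refl u), Nat.coprime_add_self_left]
  · intro l hl hlu n
    have h1 : ∀ j, G s β u (n + j * (u / l)) = ∑ k ∈ s, β k *
        (if (n + j * (u / l)).Coprime u then ps u ((n + j * (u / l) : ℕ) : ℤ) k else 0) := by
      intro j
      unfold G
      split_ifs with h
      · rfl
      · simp
    rw [Finset.sum_congr rfl (fun j _ => h1 j), Finset.sum_comm]
    apply Finset.sum_eq_zero
    intro k _
    rw [← Finset.mul_sum, fibre hu hl hlu, mul_zero]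

end IPR.LSV

namespace IPR

open Finset IPR.LSV

theorem t_LSV : M_LSV := by
  intro hD P U f ρ x N β hU hf hP
  classical
  set s := (Ico x (x + N)).filter (fun k => k ≡ ρ [MOD f]) with hs
  have h1 : ∀ u ∈ P, ∑ t ∈ (range u).filter (fun t => t.Coprime u),
      (∑ k ∈ s, β k * ps u t k) ^ 2 = ∑ t ∈ range u, G s β u t ^ 2 := by
    intro u _
    rw [Finset.sum_filter]
    apply Finset.sum_congr rfl
    intro t _
    unfold G
    split_ifs <;> simp
  rw [Finset.sum_congr rfl h1]
  set A := ∑ u ∈ P, ∑ t ∈ range u, G s β u t ^ 2 with hA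
  have hA0 : 0 ≤ A := Finset.sum_nonneg fun u _ => Finset.sum_nonneg fun t _ => sq_nonneg _
  have h2 : A = ∑ k ∈ s, β k * ∑ u ∈ P, G s β u k := by
    have h3 : ∀ u ∈ P, ∑ t ∈ range u, G s β u t ^ 2 = ∑ k ∈ s, β k * G s β u k := by
      intro u hu
      have h4 : ∀ t ∈ range u, G s β u t ^ 2 = ∑ k ∈ s, β k * (G s β u t * ps u t k) := by
        intro t _
        by_cases h : t.Coprime u
        · have h5 : G s β u t = ∑ k ∈ s, β k * ps u t k := by
            unfold G
            rw [if_pos h]
          rw [sq]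
          nth_rewrite 2 [h5]
          rw [Finset.mul_sum]
          apply Finset.sum_congr rfl
          intro k _
          ring
        · have h5 : G s β u t = 0 := by
            unfold G
            rw [if_neg h]
          rw [h5]
          simp
      rw [Finset.sum_congr rfl h4, Finset.sum_comm]
      apply Finset.sum_congr rfl
      intro k _
      rw [← Finset.mul_sum, repro (hP u hu).1 (pure_G (hP u hu).1)]
    rw [hA, Finset.sum_congr rfl h3, Finset.sum_comm]
    apply Finset.sum_congr rfl
    intro k _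
    rw [Finset.mul_sum]
  have h3 := hD P U f ρ x N (fun u => G s β u) hU hf hP (fun u hu => pure_G (hP u hu).1)
  rw [← hs] at h3
  have h4 : A ^ 2 ≤ (∑ k ∈ s, β k ^ 2) * (dlt N f U P.card * A) := by
    calc A ^ 2 = (∑ k ∈ s, β k * ∑ u ∈ P, G s β u k) ^ 2 := by rw [← h2]
      _ ≤ (∑ k ∈ s, β k ^ 2) * ∑ k ∈ s, (∑ u ∈ P, G s β u k) ^ 2 :=
        Finset.sum_mul_sq_le_sq_mul_sq s β _
      _ ≤ _ := mul_le_mul_of_nonneg_left h3 (Finset.sum_nonneg fun k _ => sq_nonneg _)
  have hd : 0 ≤ dlt N f U P.card := by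
    unfold dlt
    positivity
  rcases hA0.eq_or_lt with h0 | h0
  · rw [← h0]
    exact mul_nonneg hd (Finset.sum_nonneg fun k _ => sq_nonneg _)
  · have h5 : A * A ≤ (dlt N f U P.card * ∑ k ∈ s, β k ^ 2) * A := by
      calc A * A = A ^ 2 := (sq A).symm
        _ ≤ _ := h4
        _ = _ := by ring
    exact le_of_mul_le_mul_right h5 h0

end IPR
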